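import Mathlib

/-!
The Prekopa-Leindler inequality on the line, with a Gaussian gain, and its tensorisation.
-/

namespace Pool.Agent.MP_0502fb_pr.H57

open MeasureTheory ProbabilityTheory Set Filter Topology
open scoped ENNReal NNReal Pointwise

lemma vol_aff (K : Set ℝ) {l : ℝ} (hl : 0 < l) (c : ℝ) :
    volume ((fun x => l * x + c) '' K) = ENNReal.ofReal l * volume K := by
  have : (fun x => l * x + c) '' K = (fun x => x + c) '' (l • K) := by
    ext y; simp only [mem_image, mem_smul_set, smul_eq_mul]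
    constructor
    · rintro ⟨x, hx, rfl⟩; exact ⟨l * x, ⟨x, hx, rfl⟩, rfl⟩
    · rintro ⟨_, ⟨x, hx, rfl⟩, rfl⟩; exact ⟨x, hx, rfl⟩
  rw [this, image_add_right, measure_preimage_add_right, Measure.addHaar_smul]
  simp [abs_of_pos hl]

lemma bm_compact {A B C : Set ℝ} (hA : IsCompact A) (hB : IsCompact B) (hAn : A.Nonempty)
    (hBn : B.Nonempty) {l : ℝ} (h0 : 0 < l) (h1 : l < 1)
    (h : ∀ x ∈ A, ∀ y ∈ B, l * x + (1 - l) * y ∈ C) :
    ENNReal.ofReal l * volume A + ENNReal.ofReal (1 - l) * volume B ≤ volume C := by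
  obtain ⟨a, ha, hmax⟩ := hA.exists_isMaxOn hAn continuousOn_id
  obtain ⟨b, hb, hmin⟩ := hB.exists_isMinOn hBn continuousOn_id
  rw [← vol_aff A h0 ((1 - l) * b), ← vol_aff B (by linarith) (l * a)]
  set U := (fun x => l * x + (1 - l) * b) '' A
  set V := (fun x => (1 - l) * x + l * a) '' B
  have hV : MeasurableSet V := (hB.image (by fun_prop)).measurableSet
  rw [← measure_union_add_inter U hV]
  have hi : volume (U ∩ V) = 0 := by
    refine measure_mono_null (t := {l * a + (1 - l) * b}) ?_ (by simp)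
    rintro z ⟨⟨x, hx, rfl⟩, ⟨y, hy, hxy⟩⟩
    have h2 : x ≤ a := hmax hx
    have h3 : b ≤ y := hmin hy
    simp only [mem_singleton_iff] at hxy ⊢
    nlinarith [mul_le_mul_of_nonneg_left h2 h0.le, mul_le_mul_of_nonneg_left h3 (by linarith : (0:ℝ) ≤ 1 - l)]
  rw [hi, add_zero]
  refine measure_mono ?_
  rintro z (⟨x, hx, rfl⟩ | ⟨y, hy, rfl⟩)
  · exact h x hx b hb
  · have := h a ha y hy
    simpa [add_comm] using this

lemma bm_line {A B C : Set ℝ} (hA : MeasurableSet A) (hB : MeasurableSet B) (hAn : A.Nonempty)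
    (hBn : B.Nonempty) {l : ℝ} (h0 : 0 < l) (h1 : l < 1)
    (h : ∀ x ∈ A, ∀ y ∈ B, l * x + (1 - l) * y ∈ C) :
    ENNReal.ofReal l * volume A + ENNReal.ofReal (1 - l) * volume B ≤ volume C := by
  obtain ⟨a, ha⟩ := hAn
  obtain ⟨b, hb⟩ := hBn
  rw [hA.measure_eq_iSup_isCompact volume, hB.measure_eq_iSup_isCompact volume]
  simp only [ENNReal.mul_iSup]
  refine ENNReal.biSup_add_biSup_le' (p := fun K : Set ℝ => True) (q := fun K : Set ℝ => True)
    ⟨∅, trivial⟩ ⟨∅, trivial⟩ (f := fun K => ⨆ (_ : K ⊆ A) (_ : IsCompact K),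
      ENNReal.ofReal l * volume K) (g := fun K => ⨆ (_ : K ⊆ B) (_ : IsCompact K),
      ENNReal.ofReal (1 - l) * volume K) ?_ |>.trans' (by simp)
  intro K _ L _
  have key : ∀ K' L' : Set ℝ, K' ⊆ A → IsCompact K' → L' ⊆ B → IsCompact L' →
      ENNReal.ofReal l * volume K' + ENNReal.ofReal (1 - l) * volume L' ≤ volume C := by
    intro K' L' h2 h3 h4 h5
    refine le_trans ?_ (bm_compact (h3.insert a) (h5.insert b) (insert_nonempty _ _)
      (insert_nonempty _ _) h0 h1 fun x hx y hy => h x (insert_subset ha h2 hx) y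
        (insert_subset hb h4 hy))
    gcongr <;> exact subset_insert _ _
  by_cases hK : K ⊆ A ∧ IsCompact K <;> by_cases hL : L ⊆ B ∧ IsCompact L
  · simpa [hK.1, hK.2, hL.1, hL.2] using key K L hK.1 hK.2 hL.1 hL.2
  · have e : (⨆ (_ : L ⊆ B) (_ : IsCompact L), ENNReal.ofReal (1 - l) * volume L) = 0 := by
      simp only [ENNReal.iSup_eq_zero]; exact fun h2 h3 => (hL ⟨h2, h3⟩).elim
    simpa [hK.1, hK.2, e] using key K ∅ hK.1 hK.2 (empty_subset _) isCompact_empty
  · have e : (⨆ (_ : K ⊆ A) (_ : IsCompact K), ENNReal.ofReal l * volume K) = 0 := by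
      simp only [ENNReal.iSup_eq_zero]; exact fun h2 h3 => (hK ⟨h2, h3⟩).elim
    simpa [hL.1, hL.2, e] using key ∅ L (empty_subset _) isCompact_empty hL.1 hL.2
  · have e : (⨆ (_ : L ⊆ B) (_ : IsCompact L), ENNReal.ofReal (1 - l) * volume L) = 0 := by
      simp only [ENNReal.iSup_eq_zero]; exact fun h2 h3 => (hL ⟨h2, h3⟩).elim
    have e' : (⨆ (_ : K ⊆ A) (_ : IsCompact K), ENNReal.ofReal l * volume K) = 0 := by
      simp only [ENNReal.iSup_eq_zero]; exact fun h2 h3 => (hK ⟨h2, h3⟩).elim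
    simp [e, e']

lemma layer {α : Type*} [MeasurableSpace α] (μ : Measure α) [SFinite μ] {f : α → ℝ≥0∞}
    (hf : Measurable f) :
    ∫⁻ x, f x ∂μ = ∫⁻ t in Ioi (0 : ℝ), μ {x | ENNReal.ofReal t < f x} := by
  have hS : MeasurableSet {p : α × ℝ | ENNReal.ofReal p.2 < f p.1} :=
    measurableSet_lt (by fun_prop) (by fun_prop)
  have h1 : ∀ a : ℝ≥0∞, (volume.restrict (Ioi (0 : ℝ))) {t | ENNReal.ofReal t < a} = a := by
    intro a
    rw [Measure.restrict_apply (measurableSet_lt (by fun_prop) (by fun_prop))]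
    rcases eq_or_ne a ⊤ with rfl | ha
    · simp
    · have : {t | ENNReal.ofReal t < a} ∩ Ioi 0 = Ioo 0 a.toReal := by
        ext t
        simp only [mem_inter_iff, mem_ofPred_eq, mem_Ioi, mem_Ioo]
        constructor
        · rintro ⟨h2, h3⟩; exact ⟨h3, (ENNReal.ofReal_lt_iff_lt_toReal h3.le ha).1 h2⟩
        · rintro ⟨h3, h2⟩; exact ⟨(ENNReal.ofReal_lt_iff_lt_toReal h3.le ha).2 h2, h3⟩
      rw [this, Real.volume_Ioo, sub_zero, ENNReal.ofReal_toReal ha]
  have h2 := Measure.prod_apply (μ := μ) (ν := volume.restrict (Ioi (0 : ℝ))) hS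
  have h3 := Measure.prod_apply_symm (μ := μ) (ν := volume.restrict (Ioi (0 : ℝ))) hS
  simp only [preimage_ofPred_eq, h1] at h2 h3
  rw [← h2, h3]

lemma pl_norm {f g h : ℝ → ℝ≥0∞} (hf : Measurable f) (hg : Measurable g) (hh : Measurable h)
    {l : ℝ} (h0 : 0 < l) (h1 : l < 1) (hf1 : ⨆ x, f x = 1) (hg1 : ⨆ x, g x = 1)
    (H : ∀ x y, f x ^ l * g y ^ (1 - l) ≤ h (l * x + (1 - l) * y)) :
    ENNReal.ofReal l * (∫⁻ x, f x) + ENNReal.ofReal (1 - l) * ∫⁻ x, g x ≤ ∫⁻ x, h x := by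
  have hm : ∀ {u : ℝ → ℝ≥0∞}, Measurable u →
      Measurable fun t : ℝ => volume {x | ENNReal.ofReal t < u x} := fun {u} hu =>
    Antitone.measurable fun s t hst => measure_mono fun x hx =>
      lt_of_le_of_lt (ENNReal.ofReal_le_ofReal hst) hx
  rw [layer volume hf, layer volume hg, layer volume hh, ← lintegral_const_mul _ (hm hf),
    ← lintegral_const_mul _ (hm hg), ← lintegral_add_left ((hm hf).const_mul _)]
  refine setLIntegral_mono' measurableSet_Ioi fun t ht => ?_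
  rcases lt_or_ge t 1 with h2 | h2
  · have h3 : ENNReal.ofReal t < 1 := by simpa using h2
    have n1 : ∃ x, ENNReal.ofReal t < f x := lt_iSup_iff.1 (hf1 ▸ h3)
    have n2 : ∃ x, ENNReal.ofReal t < g x := lt_iSup_iff.1 (hg1 ▸ h3)
    refine bm_line (measurableSet_lt measurable_const hf) (measurableSet_lt measurable_const hg)
      n1 n2 h0 h1 fun x hx y hy => ?_
    refine lt_of_lt_of_le ?_ (H x y)
    have ht0 : ENNReal.ofReal t ≠ 0 := by simpa using ht
    calc ENNReal.ofReal t = ENNReal.ofReal t ^ l * ENNReal.ofReal t ^ (1 - l) := by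
          rw [← ENNReal.rpow_add _ _ ht0 ENNReal.ofReal_ne_top]; simp
      _ < f x ^ l * g y ^ (1 - l) :=
          ENNReal.mul_lt_mul (ENNReal.rpow_lt_rpow hx h0) (ENNReal.rpow_lt_rpow hy (by linarith))
  · have h3 : (1 : ℝ≥0∞) ≤ ENNReal.ofReal t := by simpa using h2
    have e1 : {x | ENNReal.ofReal t < f x} = ∅ := eq_empty_of_forall_notMem fun x hx =>
      absurd (lt_of_le_of_lt h3 hx) (not_lt.2 (hf1 ▸ le_iSup f x))
    have e2 : {x | ENNReal.ofReal t < g x} = ∅ := eq_empty_of_forall_notMem fun x hx =>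
      absurd (lt_of_le_of_lt h3 hx) (not_lt.2 (hg1 ▸ le_iSup g x))
    simp [e1, e2]

lemma amgm (a b : ℝ≥0∞) {l : ℝ} (h0 : 0 < l) (h1 : l < 1) :
    a ^ l * b ^ (1 - l) ≤ ENNReal.ofReal l * a + ENNReal.ofReal (1 - l) * b := by
  rcases eq_or_ne a ⊤ with rfl | ha
  · rw [ENNReal.mul_top (by simpa using h0)]; simp
  rcases eq_or_ne b ⊤ with rfl | hb
  · rw [ENNReal.mul_top (by simpa using h1)]; simp
  lift a to ℝ≥0 using ha
  lift b to ℝ≥0 using hb
  have := Real.geom_mean_le_arith_mean2_weighted h0.le (by linarith : 0 ≤ 1 - l) a.2 b.2 (by ring)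
  rw [← ENNReal.ofReal_coe_nnreal, ← ENNReal.ofReal_coe_nnreal,
    ENNReal.ofReal_rpow_of_nonneg a.coe_nonneg h0.le,
    ENNReal.ofReal_rpow_of_nonneg b.coe_nonneg (by linarith),
    ← ENNReal.ofReal_mul (by positivity), ← ENNReal.ofReal_mul h0.le,
    ← ENNReal.ofReal_mul (by linarith), ← ENNReal.ofReal_add (by positivity)
      (mul_nonneg (by linarith) b.coe_nonneg)]
  exact ENNReal.ofReal_le_ofReal this

lemma pl_bdd {f g h : ℝ → ℝ≥0∞} (hf : Measurable f) (hg : Measurable g) (hh : Measurable h)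
    {l : ℝ} (h0 : 0 < l) (h1 : l < 1) (hf1 : ⨆ x, f x ≠ ⊤) (hg1 : ⨆ x, g x ≠ ⊤)
    (H : ∀ x y, f x ^ l * g y ^ (1 - l) ≤ h (l * x + (1 - l) * y)) :
    (∫⁻ x, f x) ^ l * (∫⁻ x, g x) ^ (1 - l) ≤ ∫⁻ x, h x := by
  have h1' : 0 < 1 - l := by linarith
  set a := ⨆ x, f x with ha
  set b := ⨆ x, g x with hb
  rcases eq_or_ne a 0 with a0 | a0
  · have : f = 0 := funext fun x => le_antisymm ((le_iSup f x).trans a0.le) bot_le
    simp [this, ENNReal.zero_rpow_of_pos h0]
  rcases eq_or_ne b 0 with b0 | b0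
  · have : g = 0 := funext fun x => le_antisymm ((le_iSup g x).trans b0.le) bot_le
    simp [this, ENNReal.zero_rpow_of_pos h1']
  set c := a⁻¹ ^ l * b⁻¹ ^ (1 - l) with hc
  have hc0 : c ≠ 0 := by
    simp [hc, ENNReal.rpow_eq_zero_iff, hf1, hg1, a0, b0]
  have hct : c ≠ ⊤ := ENNReal.mul_ne_top (ENNReal.rpow_ne_top_of_nonneg h0.le (by simpa using a0))
    (ENNReal.rpow_ne_top_of_nonneg h1'.le (by simpa using b0))
  have key := pl_norm (f := fun x => a⁻¹ * f x) (g := fun x => b⁻¹ * g x) (h := fun x => c * h x)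
    (hf.const_mul _) (hg.const_mul _) (hh.const_mul _) h0 h1
    (by rw [← ENNReal.mul_iSup, ← ha, ENNReal.inv_mul_cancel a0 hf1])
    (by rw [← ENNReal.mul_iSup, ← hb, ENNReal.inv_mul_cancel b0 hg1]) (fun x y => by
      rw [ENNReal.mul_rpow_of_nonneg _ _ h0.le, ENNReal.mul_rpow_of_nonneg _ _ h1'.le,
        mul_mul_mul_comm]
      exact mul_le_mul_right (H x y) _)
  have k2 := (amgm _ _ h0 h1).trans key
  rw [lintegral_const_mul _ hf, lintegral_const_mul _ hg, lintegral_const_mul _ hh,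
    ENNReal.mul_rpow_of_nonneg _ _ h0.le, ENNReal.mul_rpow_of_nonneg _ _ h1'.le,
    mul_mul_mul_comm] at k2
  exact (ENNReal.mul_le_mul_iff_right hc0 hct).1 k2

lemma pl_line {f g h : ℝ → ℝ≥0∞} (hf : Measurable f) (hg : Measurable g) (hh : Measurable h)
    {l : ℝ} (h0 : 0 < l) (h1 : l < 1)
    (H : ∀ x y, f x ^ l * g y ^ (1 - l) ≤ h (l * x + (1 - l) * y)) :
    (∫⁻ x, f x) ^ l * (∫⁻ x, g x) ^ (1 - l) ≤ ∫⁻ x, h x := by
  have h1' : 0 < 1 - l := by linarith
  have lim : ∀ {u : ℝ → ℝ≥0∞}, Measurable u →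
      Tendsto (fun n : ℕ => ∫⁻ x, min (u x) n) atTop (𝓝 (∫⁻ x, u x)) := by
    intro u hu
    refine lintegral_tendsto_of_tendsto_of_monotone
      (fun n => (hu.min measurable_const).aemeasurable)
      (ae_of_all _ fun x m n hmn => min_le_min_left _ (by exact_mod_cast hmn))
      (ae_of_all _ fun x => ?_)
    have := (tendsto_const_nhds (x := u x)).min ENNReal.tendsto_nat_nhds_top
    simpa using this
  rcases eq_or_ne (∫⁻ x, f x) 0 with a0 | a0
  · simp [a0, ENNReal.zero_rpow_of_pos h0]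
  rcases eq_or_ne (∫⁻ x, g x) 0 with b0 | b0
  · simp [b0, ENNReal.zero_rpow_of_pos h1']
  have t1 := (ENNReal.continuous_rpow_const (y := l)).tendsto _ |>.comp (lim hf)
  have t2 := (ENNReal.continuous_rpow_const (y := 1 - l)).tendsto _ |>.comp (lim hg)
  refine le_of_tendsto' (ENNReal.Tendsto.mul t1 (Or.inl ?_) t2 (Or.inl ?_)) fun n => ?_
  · simp [ENNReal.rpow_eq_zero_iff, a0, h0.le]
  · simp [ENNReal.rpow_eq_zero_iff, b0, h1.le]
  refine pl_bdd (hf.min measurable_const) (hg.min measurable_const) hh h0 h1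
    (ne_top_of_le_ne_top (ENNReal.natCast_ne_top n) (iSup_le fun x => min_le_right _ _))
    (ne_top_of_le_ne_top (ENNReal.natCast_ne_top n) (iSup_le fun x => min_le_right _ _))
    fun x y => le_trans ?_ (H x y)
  gcongr <;> exact min_le_left _ _

/-- Prekopa-Leindler inequality for `μ`, with gain `c` -/
def PLw {V : Type*} [AddCommGroup V] [Module ℝ V] [MeasurableSpace V] (μ : Measure V)
    (c : V → ℝ) : Prop :=
  ∀ l : ℝ, 0 < l → l < 1 → ∀ f g h : V → ℝ≥0∞, Measurable f → Measurable g → Measurable h →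
    (∀ x y, f x ^ l * g y ^ (1 - l) ≤
      h (l • x + (1 - l) • y) * ENNReal.ofReal (Real.exp (l * (1 - l) * c (x - y)))) →
    (∫⁻ x, f x ∂μ) ^ l * (∫⁻ x, g x ∂μ) ^ (1 - l) ≤ ∫⁻ x, h x ∂μ

lemma PLw.map {V W : Type*} [AddCommGroup V] [Module ℝ V] [MeasurableSpace V] [AddCommGroup W]
    [Module ℝ W] [MeasurableSpace W] {μ : Measure V} {c : V → ℝ} (H : PLw μ c) (L : V →ₗ[ℝ] W)
    (hL : Measurable L) {c' : W → ℝ} (hc : ∀ x, c' (L x) ≤ c x) : PLw (μ.map L) c' := by
  intro l h0 h1 f g h hf hg hh hfg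
  rw [lintegral_map hf hL, lintegral_map hg hL, lintegral_map hh hL]
  refine H l h0 h1 _ _ _ (hf.comp hL) (hg.comp hL) (hh.comp hL) fun x y => ?_
  refine (hfg (L x) (L y)).trans ?_
  simp only [map_add, map_smul, ← map_sub]
  have h2 : 0 ≤ l * (1 - l) := mul_nonneg h0.le (by linarith)
  gcongr
  exact hc _

lemma PLw.prod {V W : Type*} [AddCommGroup V] [Module ℝ V] [MeasurableSpace V] [AddCommGroup W]
    [Module ℝ W] [MeasurableSpace W] {μ : Measure V} {ν : Measure W} [SFinite ν] {c : V → ℝ}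
    {c' : W → ℝ} (H : PLw μ c) (H' : PLw ν c') : PLw (μ.prod ν) fun p => c p.1 + c' p.2 := by
  intro l h0 h1 f g h hf hg hh hfg
  rw [lintegral_prod _ hf.aemeasurable, lintegral_prod _ hg.aemeasurable,
    lintegral_prod _ hh.aemeasurable]
  refine H l h0 h1 _ _ _ hf.lintegral_prod_right' hg.lintegral_prod_right'
    hh.lintegral_prod_right' fun x y => ?_
  rw [← lintegral_mul_const _ (by fun_prop)]
  refine H' l h0 h1 _ _ _ (by fun_prop) (by fun_prop) (by fun_prop) fun u v => ?_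
  refine (hfg (x, u) (y, v)).trans (le_of_eq ?_)
  simp only [Prod.smul_mk, Prod.mk_add_mk, Prod.mk_sub_mk, mul_add, Real.exp_add]
  rw [ENNReal.ofReal_mul (Real.exp_pos _).le, mul_assoc (h _)]

lemma plw_gauss : PLw (gaussianReal 0 1) fun x : ℝ => x ^ 2 / 2 := by
  intro l h0 h1 f g h hf hg hh H
  have h1' : 0 < 1 - l := by linarith
  have hm := measurable_gaussianPDF 0 1
  rw [gaussianReal_of_var_ne_zero 0 one_ne_zero, lintegral_withDensity_eq_lintegral_mul _ hm hf,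
    lintegral_withDensity_eq_lintegral_mul _ hm hg, lintegral_withDensity_eq_lintegral_mul _ hm hh]
  refine pl_line (hm.mul hf) (hm.mul hg) (hm.mul hh) h0 h1 fun x y => ?_
  simp only [Pi.mul_apply]
  rw [ENNReal.mul_rpow_of_nonneg _ _ h0.le, ENNReal.mul_rpow_of_nonneg _ _ h1'.le,
    mul_mul_mul_comm]
  refine (mul_le_mul_right (H x y) _).trans (le_of_eq ?_)
  rw [mul_comm (h _), ← mul_assoc, smul_eq_mul, smul_eq_mul]
  congr 1
  simp only [gaussianPDF, gaussianPDFReal]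
  set k : ℝ := (√(2 * Real.pi * ((1 : ℝ≥0) : ℝ)))⁻¹ with hk
  have hk0 : 0 < k := by rw [hk]; simp; positivity
  rw [ENNReal.ofReal_rpow_of_nonneg (by positivity) h0.le,
    ENNReal.ofReal_rpow_of_nonneg (by positivity) h1'.le, ← ENNReal.ofReal_mul (by positivity),
    ← ENNReal.ofReal_mul (by positivity), Real.mul_rpow hk0.le (Real.exp_pos _).le,
    Real.mul_rpow hk0.le (Real.exp_pos _).le, ← Real.exp_mul, ← Real.exp_mul, mul_mul_mul_comm,
    ← Real.rpow_add hk0, mul_assoc, ← Real.exp_add, ← Real.exp_add]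
  congr 2
  · simp
  · congr 1; simp only [NNReal.coe_one]; ring

lemma plw_pi (n : ℕ) : PLw (Measure.pi fun _ : Fin n => gaussianReal 0 1)
    fun x => (∑ i, x i ^ 2) / 2 := by
  induction n with
  | zero =>
    intro l h0 h1 f g h hf hg hh H
    rw [Measure.pi_of_empty, lintegral_dirac' _ hf, lintegral_dirac' _ hg, lintegral_dirac' _ hh]
    refine (H _ _).trans (le_of_eq ?_)
    simp only [Finset.univ_eq_empty, Finset.sum_empty, zero_div, mul_zero, Real.exp_zero,
      ENNReal.ofReal_one, mul_one]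
    exact congrArg h (Subsingleton.elim _ _)
  | succ n ih =>
    have hp := (measurePreserving_piFinSuccAbove (fun _ : Fin (n + 1) => gaussianReal 0 1) 0).symm
    let L : (ℝ × (Fin n → ℝ)) →ₗ[ℝ] (Fin (n + 1) → ℝ) :=
      (Fin.consLinearEquiv ℝ fun _ : Fin (n + 1) => ℝ).toLinearMap
    have hL : (L : ℝ × (Fin n → ℝ) → Fin (n + 1) → ℝ) =
        (MeasurableEquiv.piFinSuccAbove (fun _ : Fin (n + 1) => ℝ) 0).symm := by
      funext p; simp [L, MeasurableEquiv.piFinSuccAbove, Fin.consLinearEquiv, Fin.consEquiv]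
    rw [← hp.map_eq, ← hL]
    refine (plw_gauss.prod ih).map L (hL ▸ hp.measurable) fun p => le_of_eq ?_
    simp [L, Fin.sum_univ_succ, Fin.consLinearEquiv, Fin.consEquiv, add_div]

end Pool.Agent.MP_0502fb_pr.H57
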