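import Mathlib
import Pool.Agent.MP_0502fb_pr.H57.PL

/-!
Centred isotropic Gaussian measures on a Euclidean space: convolution, shifts, log-concavity, and
the barycentre of a convex set.
-/

namespace Pool.Agent.MP_0502fb_pr.H57

open MeasureTheory ProbabilityTheory Set Filter Topology
open scoped ENNReal NNReal RealInnerProductSpace

variable {E : Type*} [NormedAddCommGroup E] [InnerProductSpace ℝ E] [FiniteDimensional ℝ E]
  [MeasurableSpace E] [BorelSpace E]

variable (E) in
/-- the centred Gaussian measure with covariance `t` times the identity -/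
noncomputable def gam (t : ℝ) : Measure E := (stdGaussian E).map fun z => √t • z

instance (t : ℝ) : IsProbabilityMeasure (gam E t) :=
  Measure.isProbabilityMeasure_map (Measurable.aemeasurable (by fun_prop))

instance (t : ℝ) : IsGaussian (gam E t) := by
  have : gam E t = (stdGaussian E).map (√t • ContinuousLinearMap.id ℝ E) := rfl
  rw [this]; infer_instance

omit [BorelSpace E] in
lemma gam_one : gam E 1 = stdGaussian E := by simp [gam]

lemma gam_zero : gam E 0 = Measure.dirac 0 := by simp [gam]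

lemma cmgf_std (u w : E) :
    ∫ z, Complex.exp ((⟪z, u⟫ : ℝ) + (⟪z, w⟫ : ℝ) * Complex.I) ∂stdGaussian E =
      Complex.exp (((‖u‖ ^ 2 - ‖w‖ ^ 2) / 2 : ℝ) + (⟪u, w⟫ : ℝ) * Complex.I) := by
  rw [stdGaussian, integral_map (Measurable.aemeasurable (by fun_prop))
    (Measurable.aestronglyMeasurable (by fun_prop))]
  set b := stdOrthonormalBasis ℝ E
  have e : ∀ x : Fin (Module.finrank ℝ E) → ℝ,
      Complex.exp ((⟪∑ i, x i • b i, u⟫ : ℝ) + (⟪∑ i, x i • b i, w⟫ : ℝ) * Complex.I) =
      ∏ i, Complex.exp (((⟪b i, u⟫ : ℝ) + (⟪b i, w⟫ : ℝ) * Complex.I) * (x i : ℝ)) := by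
    intro x
    rw [← Complex.exp_sum]
    congr 1
    simp only [sum_inner, real_inner_smul_left, Complex.ofReal_sum, Complex.ofReal_mul,
      Finset.sum_mul, ← Finset.sum_add_distrib]
    exact Finset.sum_congr rfl fun i _ => by ring
  simp_rw [e]
  rw [integral_fintype_prod_eq_prod (f := fun i (x : ℝ) =>
    Complex.exp (((⟪b i, u⟫ : ℝ) + (⟪b i, w⟫ : ℝ) * Complex.I) * (x : ℝ)))]
  have e2 : ∀ z : ℂ, ∫ x : ℝ, Complex.exp (z * x) ∂gaussianReal 0 1 = Complex.exp (z ^ 2 / 2) := by
    intro z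
    have := complexMGF_id_gaussianReal (μ := 0) (v := 1) z
    simpa [complexMGF] using this
  simp_rw [e2]
  rw [← Complex.exp_sum, ← b.sum_sq_inner_right u, ← b.sum_sq_inner_right w,
    ← b.sum_inner_mul_inner u w]
  congr 1
  push_cast
  rw [← Finset.sum_sub_distrib, Finset.sum_div, Finset.sum_mul, ← Finset.sum_add_distrib]
  refine Finset.sum_congr rfl fun i _ => ?_
  rw [real_inner_comm (b i) u]
  linear_combination (((⟪b i, w⟫ : ℝ) : ℂ) ^ 2 / 2) * Complex.I_sq

lemma cmgf_gam {t : ℝ} (ht : 0 ≤ t) (u w : E) :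
    ∫ z, Complex.exp ((⟪z, u⟫ : ℝ) + (⟪z, w⟫ : ℝ) * Complex.I) ∂gam E t =
      Complex.exp ((t * (‖u‖ ^ 2 - ‖w‖ ^ 2) / 2 : ℝ) + (t * ⟪u, w⟫ : ℝ) * Complex.I) := by
  rw [gam, integral_map (Measurable.aemeasurable (by fun_prop))
    (Measurable.aestronglyMeasurable (by fun_prop))]
  have := cmgf_std (√t • u) (√t • w)
  simp only [real_inner_smul_left, real_inner_smul_right, norm_smul, Real.norm_eq_abs, mul_pow,
    sq_abs, Real.sq_sqrt ht, ← mul_assoc, Real.mul_self_sqrt ht] at this ⊢
  rw [this, mul_sub]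

lemma charFun_gam {t : ℝ} (ht : 0 ≤ t) (w : E) :
    charFun (gam E t) w = Complex.exp (-(t * ‖w‖ ^ 2 / 2 : ℝ)) := by
  have := cmgf_gam ht 0 w
  simp only [inner_zero_right, inner_zero_left, Complex.ofReal_zero, zero_add, norm_zero] at this
  rw [charFun_apply, this]
  congr 1; push_cast; ring

lemma gam_conv {s t : ℝ} (hs : 0 ≤ s) (ht : 0 ≤ t) : gam E s ∗ gam E t = gam E (s + t) := by
  refine Measure.ext_of_charFun ?_
  funext w
  rw [charFun_conv, charFun_gam hs, charFun_gam ht, charFun_gam (add_nonneg hs ht),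
    ← Complex.exp_add]
  congr 1; push_cast; ring

lemma mp_add {s t : ℝ} (hs : 0 ≤ s) (ht : 0 ≤ t) :
    MeasurePreserving (fun p : E × E => p.1 + p.2) ((gam E s).prod (gam E t)) (gam E (s + t)) :=
  ⟨by fun_prop, gam_conv hs ht⟩

lemma int_exp (t : ℝ) (u : E) : Integrable (fun z => Real.exp ⟪u, z⟫) (gam E t) := by
  have h1 := IsGaussian.map_eq_gaussianReal (μ := gam E t) (innerSL ℝ u)
  have h2 := integrable_exp_mul_gaussianReal (μ := ∫ x, innerSL ℝ u x ∂gam E t)
    (v := Var[innerSL ℝ u; gam E t].toNNReal) 1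
  rw [← h1, integrable_map_measure (by fun_prop) (by fun_prop)] at h2
  simpa [Function.comp_def] using h2

lemma mgf_gam {t : ℝ} (ht : 0 ≤ t) (u : E) :
    ∫ z, Real.exp ⟪u, z⟫ ∂gam E t = Real.exp (t * ‖u‖ ^ 2 / 2) := by
  have := cmgf_gam ht u 0
  simp only [inner_zero_right, Complex.ofReal_zero, zero_mul, add_zero, norm_zero, mul_zero,
    ← Complex.ofReal_exp, integral_complex_ofReal] at this
  have h2 := Complex.ofReal_injective this
  simpa [real_inner_comm] using h2

lemma int_id (t : ℝ) : Integrable (fun z : E => z) (gam E t) := IsGaussian.integrable_id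

lemma mean_gam (t : ℝ) : ∫ z, z ∂gam E t = 0 := by
  rw [gam, integral_map (Measurable.aemeasurable (by fun_prop)) (by fun_prop), integral_smul]
  simp

lemma tilt_meas {t : ℝ} (ht : 0 ≤ t) (u : E) :
    (gam E t).map (fun z => z + t • u) =
      (gam E t).withDensity fun z => ENNReal.ofReal (Real.exp (⟪u, z⟫ - t * ‖u‖ ^ 2 / 2)) := by
  have hi : Integrable (fun z => Real.exp (⟪u, z⟫ - t * ‖u‖ ^ 2 / 2)) (gam E t) := by
    simp_rw [Real.exp_sub]; exact (int_exp t u).div_const _
  have := isFiniteMeasure_withDensity_ofReal hi.2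
  refine Measure.ext_of_charFun ?_
  funext w
  rw [charFun_map_add_const, charFun_gam ht, charFun_apply,
    integral_withDensity_eq_integral_toReal_smul (by fun_prop) (by simp)]
  have e : ∀ z : E, (ENNReal.ofReal (Real.exp (⟪u, z⟫ - t * ‖u‖ ^ 2 / 2))).toReal •
      Complex.exp ((⟪z, w⟫ : ℝ) * Complex.I) = Complex.exp (-(t * ‖u‖ ^ 2 / 2 : ℝ)) *
      Complex.exp ((⟪z, u⟫ : ℝ) + (⟪z, w⟫ : ℝ) * Complex.I) := by
    intro z
    rw [ENNReal.toReal_ofReal (Real.exp_pos _).le, Complex.real_smul, Complex.ofReal_exp,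
      ← Complex.exp_add, ← Complex.exp_add, real_inner_comm z u]
    congr 1; push_cast; ring
  simp_rw [e]
  rw [integral_const_mul, cmgf_gam ht, ← Complex.exp_add, ← Complex.exp_add,
    real_inner_smul_left]
  congr 1; push_cast; ring

lemma tilt_set {t : ℝ} (ht : 0 ≤ t) (u : E) {S : Set E} (hS : MeasurableSet S) :
    (gam E t).real {z | z + t • u ∈ S} =
      ∫ z in S, Real.exp (⟪u, z⟫ - t * ‖u‖ ^ 2 / 2) ∂gam E t := by
  have hi : Integrable (fun z => Real.exp (⟪u, z⟫ - t * ‖u‖ ^ 2 / 2)) (gam E t) := by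
    simp_rw [Real.exp_sub]; exact (int_exp t u).div_const _
  have h1 := congrArg (fun μ : Measure E => μ S) (tilt_meas ht u)
  rw [Measure.map_apply (by fun_prop) hS, withDensity_apply _ hS,
    ← ofReal_integral_eq_lintegral_ofReal hi.integrableOn
      (ae_of_all _ fun z => (Real.exp_pos _).le)] at h1
  rw [Measure.real, show {z | z + t • u ∈ S} = (fun z => z + t • u) ⁻¹' S from rfl, h1,
    ENNReal.toReal_ofReal (integral_nonneg fun z => (Real.exp_pos _).le)]

lemma plw_gam {t : ℝ} (ht : 0 ≤ t) : PLw (gam E t) fun u => ‖u‖ ^ 2 / (2 * t) := by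
  set b := stdOrthonormalBasis ℝ E
  have h1 : PLw (stdGaussian E) fun u => ‖u‖ ^ 2 / 2 := by
    let L : (Fin (Module.finrank ℝ E) → ℝ) →ₗ[ℝ] E := Fintype.linearCombination ℝ b
    have hL : (L : _ → E) = fun x => ∑ i, x i • b i := by
      funext x; simp [L, Fintype.linearCombination_apply]
    rw [stdGaussian, ← hL]
    refine (plw_pi _).map L (by rw [hL]; fun_prop) fun x => le_of_eq ?_
    rw [hL, ← b.sum_sq_inner_right]
    simp [b.orthonormal.inner_right_fintype]
  refine h1.map (√t • LinearMap.id) (by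
    change Measurable fun z : E => √t • z
    fun_prop) fun x => ?_
  rcases ht.eq_or_lt with rfl | ht
  · simp; positivity
  · simp only [LinearMap.smul_apply, LinearMap.id_apply, norm_smul, Real.norm_eq_abs, mul_pow,
      sq_abs, Real.sq_sqrt ht.le]
    exact le_of_eq (by field_simp)

lemma lc_set {t : ℝ} (ht : 0 ≤ t) {A B C : Set E} (hA : MeasurableSet A) (hB : MeasurableSet B)
    (hC : MeasurableSet C) {l : ℝ} (h0 : 0 < l) (h1 : l < 1)
    (h : ∀ x ∈ A, ∀ y ∈ B, l • x + (1 - l) • y ∈ C) :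
    (gam E t).real A ^ l * (gam E t).real B ^ (1 - l) ≤ (gam E t).real C := by
  have h1' : 0 < 1 - l := by linarith
  have key := plw_gam (E := E) ht l h0 h1 (A.indicator 1) (B.indicator 1) (C.indicator 1)
    (measurable_one.indicator hA) (measurable_one.indicator hB) (measurable_one.indicator hC)
    (fun x y => by
      by_cases hx : x ∈ A
      · by_cases hy : y ∈ B
        · simp only [indicator_of_mem hx, indicator_of_mem hy, indicator_of_mem (h x hx y hy),
            Pi.one_apply, ENNReal.one_rpow, one_mul, ENNReal.one_le_ofReal, Real.one_le_exp_iff]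
          positivity
        · simp [hy, ENNReal.zero_rpow_of_pos h1']
      · simp [hx, ENNReal.zero_rpow_of_pos h0])
  rw [lintegral_indicator_one hA, lintegral_indicator_one hB, lintegral_indicator_one hC] at key
  have := ENNReal.toReal_mono (measure_ne_top _ _) key
  rwa [ENNReal.toReal_mul, ← ENNReal.toReal_rpow, ← ENNReal.toReal_rpow] at this

lemma jensen_exp {α : Type*} [MeasurableSpace α] {μ : Measure α} {q g : α → ℝ}
    (hq : ∀ x, 0 ≤ q x) (h1 : Integrable q μ) (h2 : Integrable (fun x => q x * g x) μ)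
    (h3 : Integrable (fun x => q x * Real.exp (g x)) μ) {c : ℝ}
    (hc : ∫ x, q x * g x ∂μ = (∫ x, q x ∂μ) * c) :
    (∫ x, q x ∂μ) * Real.exp c ≤ ∫ x, q x * Real.exp (g x) ∂μ := by
  have : ∫ x, Real.exp c * ((1 - c) * q x + q x * g x) ∂μ = (∫ x, q x ∂μ) * Real.exp c := by
    rw [integral_const_mul, integral_add (h1.const_mul _) h2, integral_const_mul, hc]; ring
  rw [← this]
  refine integral_mono (((h1.const_mul _).add h2).const_mul _) h3 fun x => ?_
  have h4 := Real.add_one_le_exp (g x - c)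
  have h5 : Real.exp (g x) = Real.exp c * Real.exp (g x - c) := by rw [← Real.exp_add]; simp
  simp only [h5]
  nlinarith [mul_le_mul_of_nonneg_left h4 (mul_nonneg (hq x) (Real.exp_pos c).le)]

/-- probability of the shifted set -/
noncomputable def pr (A : Set E) (t : ℝ) (k : E) : ℝ := (gam E t).real {z | k + z ∈ A}

/-- first moment of the shifted set -/
noncomputable def mo (A : Set E) (t : ℝ) (k : E) : E := ∫ z in {z | k + z ∈ A}, (k + z) ∂gam E t

/-- barycentre -/
noncomputable def bary (A : Set E) (t : ℝ) (k : E) : E := (pr A t k)⁻¹ • mo A t k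

variable {A : Set E}

omit [InnerProductSpace ℝ E] [FiniteDimensional ℝ E] in
lemma ms_sh (hA : MeasurableSet A) (k : E) : MeasurableSet {z | k + z ∈ A} :=
  (measurable_const_add k) hA

omit [BorelSpace E] in
lemma pr_nonneg (t : ℝ) (k : E) : 0 ≤ pr A t k := measureReal_nonneg

lemma pr_le_one (t : ℝ) (k : E) : pr A t k ≤ 1 := measureReal_le_one

lemma pr_smul_bary (t : ℝ) (k : E) : pr A t k • bary A t k = mo A t k := by
  rcases eq_or_ne (pr A t k) 0 with h | h
  · rw [h, zero_smul, mo, setIntegral_measure_zero]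
    rwa [pr, measureReal_eq_zero_iff] at h
  · rw [bary, smul_inv_smul₀ h]

lemma int_inner (t : ℝ) (k u : E) :
    ∫ z in {z | k + z ∈ A}, ⟪u, z⟫ ∂gam E t = pr A t k * ⟪u, bary A t k - k⟫ := by
  have hi : IntegrableOn (fun z : E => z) {z | k + z ∈ A} (gam E t) := (int_id t).integrableOn
  rw [integral_inner hi, ← real_inner_smul_right, smul_sub, pr_smul_bary, mo,
    integral_add (by simp) hi]
  simp [pr]

lemma pr_tilt (hA : MeasurableSet A) {t : ℝ} (ht : 0 ≤ t) (k u : E) :
    pr A t (k + t • u) =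
      ∫ z in {z | k + z ∈ A}, Real.exp (⟪u, z⟫ - t * ‖u‖ ^ 2 / 2) ∂gam E t := by
  rw [← tilt_set ht u (ms_sh hA k), pr]
  congr 1; ext z; simp only [mem_ofPred_eq]; rw [add_assoc, add_comm z]

lemma pr_lower (hA : MeasurableSet A) {t : ℝ} (ht : 0 ≤ t) (k u : E) :
    pr A t k * Real.exp (⟪u, bary A t k - k⟫ - t * ‖u‖ ^ 2 / 2) ≤ pr A t (k + t • u) := by
  have hi : Integrable (fun z => Real.exp (⟪u, z⟫ - t * ‖u‖ ^ 2 / 2)) (gam E t) := by
    simp_rw [Real.exp_sub]; exact (int_exp t u).div_const _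
  have h2 : Integrable (fun z : E => ⟪u, z⟫) ((gam E t).restrict {z | k + z ∈ A}) :=
    ((int_id t).const_inner u).integrableOn
  have := jensen_exp (μ := (gam E t).restrict {z | k + z ∈ A}) (q := fun _ => 1)
    (g := fun z => ⟪u, z⟫ - t * ‖u‖ ^ 2 / 2) (fun _ => zero_le_one) (by simp)
    (by simp only [one_mul]; exact h2.sub (integrable_const _))
    (by simp only [one_mul]; exact hi.integrableOn)
    (c := ⟪u, bary A t k - k⟫ - t * ‖u‖ ^ 2 / 2) (by
      simp only [one_mul]
      rw [integral_sub h2 (by simp), int_inner]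
      simp [pr]; ring)
  rw [pr_tilt hA ht]
  simpa [pr] using this

lemma pr_lc (hA : MeasurableSet A) (hc : Convex ℝ A) {t : ℝ} (ht : 0 ≤ t) (x y : E) {l : ℝ}
    (h0 : 0 < l) (h1 : l < 1) :
    pr A t x ^ l * pr A t y ^ (1 - l) ≤ pr A t (l • x + (1 - l) • y) := by
  refine lc_set ht (ms_sh hA _) (ms_sh hA _) (ms_sh hA _) h0 h1 fun z hz w hw => ?_
  have := hc hz hw h0.le (by linarith : 0 ≤ 1 - l) (by ring)
  have e : l • x + (1 - l) • y + (l • z + (1 - l) • w) = l • (x + z) + (1 - l) • (y + w) := by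
    simp only [smul_add]; abel
  rw [mem_ofPred_eq, e]
  exact this

lemma pr_upper (hA : MeasurableSet A) (hc : Convex ℝ A) {t : ℝ} (ht : 0 ≤ t) (k u : E)
    (hp : 0 < pr A t k) : pr A t (k + t • u) ≤ pr A t k * Real.exp ⟪u, bary A t k - k⟫ := by
  have hq : 0 < pr A t (k + t • u) := lt_of_lt_of_le (by positivity) (pr_lower hA ht k u)
  rw [← Real.log_le_log_iff hq (by positivity), Real.log_mul hp.ne' (Real.exp_pos _).ne',
    Real.log_exp]
  set c := ⟪u, bary A t k - k⟫
  have hN : 0 ≤ t * ‖u‖ ^ 2 / 2 := by positivity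
  refine le_of_forall_pos_le_add fun δ hδ => ?_
  obtain ⟨e, he0, he⟩ : ∃ e : ℝ, 0 < e ∧ e * (t * ‖u‖ ^ 2 / 2) ≤ δ :=
    ⟨δ / (t * ‖u‖ ^ 2 / 2 + 1), by positivity, by
      rw [div_mul_eq_mul_div, div_le_iff₀ (by positivity)]; nlinarith⟩
  have h0 : 0 < e / (1 + e) := by positivity
  have h1 : e / (1 + e) < 1 := by rw [div_lt_one (by positivity)]; linarith
  have h2 := pr_lc hA hc ht (k + t • u) (k + t • (-e • u)) h0 h1
  have h3 := pr_lower hA ht k (-e • u)
  have hq' : 0 < pr A t (k + t • (-e • u)) := lt_of_lt_of_le (by positivity) h3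
  have h4 : (e / (1 + e)) • (k + t • u) + (1 - e / (1 + e)) • (k + t • (-e • u)) = k := by
    have : (1 - e / (1 + e)) * e = e / (1 + e) := by field_simp; ring
    match_scalars
    · ring
    · linear_combination (-t) * this
  rw [h4, ← Real.log_le_log_iff (by positivity) hp, Real.log_mul (by positivity) (by positivity),
    Real.log_rpow hq, Real.log_rpow hq'] at h2
  rw [← Real.log_le_log_iff (by positivity) hq', Real.log_mul hp.ne' (Real.exp_pos _).ne',
    Real.log_exp, real_inner_smul_left, norm_smul, mul_pow, Real.norm_eq_abs, sq_abs] at h3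
  have h5 : 1 - e / (1 + e) = 1 / (1 + e) := by field_simp; ring
  rw [h5] at h2
  have h6 : e * Real.log (pr A t (k + t • u)) + Real.log (pr A t (k + t • (-e • u))) ≤
      (1 + e) * Real.log (pr A t k) := by
    have := mul_le_mul_of_nonneg_left h2 (by positivity : 0 ≤ 1 + e)
    field_simp at this
    linarith
  refine le_of_mul_le_mul_left ?_ he0
  nlinarith

lemma bary_lip (hA : MeasurableSet A) (hc : Convex ℝ A) {t : ℝ} (ht : 0 ≤ t) (x y : E)
    (hx : 0 < pr A t x) (hy : 0 < pr A t y) : ‖bary A t x - bary A t y‖ ≤ ‖x - y‖ := by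
  rcases ht.eq_or_lt with rfl | ht0
  · have : ∀ k : E, 0 < pr A 0 k → bary A 0 k = k := by
      intro k hk
      have hk' : (0 : E) ∈ {z | k + z ∈ A} := by
        by_contra h
        simp [pr, gam_zero, Measure.real, Measure.dirac_apply' _ (ms_sh hA k), h] at hk
      have e : (Measure.dirac (0 : E)).restrict {z | k + z ∈ A} = Measure.dirac 0 := by
        classical
        rw [restrict_dirac' (ms_sh hA k), if_pos hk']
      simp [bary, pr, mo, gam_zero, Measure.real, Measure.dirac_apply' _ (ms_sh hA k), hk', e]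
    rw [this x hx, this y hy]
  have key : ∀ x y a : E, 0 < pr A t x → 0 < pr A t y →
      t * Real.log (pr A t x) + ⟪a, bary A t x - x⟫ - ‖a‖ ^ 2 / 2 ≤
        t * Real.log (pr A t y) + ⟪x + a - y, bary A t y - y⟫ := by
    intro x y a hx hy
    have h1 := pr_lower hA ht x (t⁻¹ • a)
    have h2 := pr_upper hA hc ht y (t⁻¹ • (x + a - y)) hy
    rw [smul_inv_smul₀ ht0.ne'] at h1 h2
    rw [add_sub_cancel] at h2
    have h3 := h1.trans h2
    rw [← Real.log_le_log_iff (by positivity) (by positivity),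
      Real.log_mul hx.ne' (Real.exp_pos _).ne', Real.log_mul hy.ne' (Real.exp_pos _).ne',
      Real.log_exp, Real.log_exp, real_inner_smul_left, real_inner_smul_left, norm_smul, mul_pow,
      Real.norm_eq_abs, sq_abs] at h3
    have := mul_le_mul_of_nonneg_left h3 ht0.le
    field_simp at this
    linarith
  set zx := bary A t x - x with hzx
  set zy := bary A t y - y with hzy
  have h1 := key x y (zx - zy) hx hy
  have h2 := key y x (zy - zx) hy hx
  rw [← hzx, ← hzy] at h1 h2
  have e : bary A t x - bary A t y = (x - y) + (zx - zy) := by rw [hzx, hzy]; abel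
  have e1 : x + (zx - zy) - y = (x - y) + (zx - zy) := by abel
  have e2 : y + (zy - zx) - x = -((x - y) + (zx - zy)) := by abel
  have e3 : zy - zx = -(zx - zy) := by abel
  rw [e1] at h1
  rw [e2, e3, norm_neg, inner_neg_left, inner_neg_left] at h2
  rw [e]
  set D := x - y
  have e4 : zx = zy + (zx - zy) := by abel
  generalize zx - zy = δ at *
  rw [e4] at h1 h2
  simp only [inner_add_left, inner_add_right, real_inner_self_eq_norm_sq] at h1 h2
  refine abs_le_of_sq_le_sq' ?_ (norm_nonneg _) |>.2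
  rw [norm_add_sq_real]
  nlinarith [sq_nonneg ‖δ‖]

end Pool.Agent.MP_0502fb_pr.H57
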