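import Mathlib
import Pool.Agent.MP_0502fb_pr.H57.Gau

/-!
A Gaussian vector conditioned on a convex set and centred is dominated by a multiple of the
Gaussian vector, for maxima of linear functionals (a form of the inequality of Harge).
-/

namespace Pool.Agent.MP_0502fb_pr.H57

open MeasureTheory ProbabilityTheory Set Filter Topology
open scoped ENNReal NNReal RealInnerProductSpace

lemma ofReal_int_le {α : Type*} [MeasurableSpace α] {μ : Measure α} {f : α → ℝ}
    (hf : Integrable f μ) {g : α → ℝ≥0∞} (h : ∀ x, ENNReal.ofReal (f x) ≤ g x) :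
    ENNReal.ofReal (∫ x, f x ∂μ) ≤ ∫⁻ x, g x ∂μ := by
  calc ENNReal.ofReal (∫ x, f x ∂μ) ≤ ENNReal.ofReal (∫ x, max (f x) 0 ∂μ) :=
        ENNReal.ofReal_le_ofReal (integral_mono hf hf.pos_part fun x => le_max_left _ _)
    _ = ∫⁻ x, ENNReal.ofReal (max (f x) 0) ∂μ :=
        ofReal_integral_eq_lintegral_ofReal hf.pos_part (ae_of_all _ fun x => le_max_right _ _)
    _ ≤ _ := lintegral_mono fun x => by simpa [ENNReal.ofReal_max] using h x

variable {E : Type*} [NormedAddCommGroup E] [InnerProductSpace ℝ E] [FiniteDimensional ℝ E]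
  [MeasurableSpace E] [BorelSpace E]

lemma tau {s : ℝ} (hs : 0 < s) {q : E → ℝ} {D : E → E} (hq : Measurable q) (hD : Measurable D)
    (h0 : ∀ x, 0 ≤ q x) (hi : Integrable q (gam E s))
    (hlc : ∀ x y, q x ^ (1 / 2 : ℝ) * q y ^ (1 - 1 / 2 : ℝ) ≤
      q ((1 / 2 : ℝ) • x + (1 - 1 / 2 : ℝ) • y))
    (hlip : ∀ x y, 0 < q x → 0 < q y → ‖D x - D y‖ ≤ ‖x - y‖)
    (hi2 : Integrable (fun x => q x • D x) (gam E s)) (hm : ∫ x, q x • D x ∂gam E s = 0) (u : E) :
    Integrable (fun x => q x * Real.exp ⟪u, D x⟫) (gam E s) ∧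
      ∫ x, q x * Real.exp ⟪u, D x⟫ ∂gam E s ≤ (∫ x, q x ∂gam E s) * Real.exp (s * ‖u‖ ^ 2) := by
  set Z := ∫ x, q x ∂gam E s with hZ
  have hZ0 : 0 ≤ Z := integral_nonneg h0
  have hZ' : ∫⁻ x, ENNReal.ofReal (q x) ∂gam E s = ENNReal.ofReal Z :=
    (ofReal_integral_eq_lintegral_ofReal hi (ae_of_all _ h0)).symm
  have key := plw_gam (E := E) hs.le (1 / 2) (by norm_num) (by norm_num)
    (fun x => ENNReal.ofReal (Real.exp (-(s * ‖u‖ ^ 2)) * (q x * Real.exp ⟪u, D x⟫)))
    (fun x => ENNReal.ofReal (q x * Real.exp (-⟪u, D x⟫))) (fun x => ENNReal.ofReal (q x))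
    (by fun_prop) (by fun_prop) (by fun_prop) (fun x y => by
      have hx := h0 x
      have hy := h0 y
      rw [ENNReal.ofReal_rpow_of_nonneg (by positivity) (by norm_num),
        ENNReal.ofReal_rpow_of_nonneg (by positivity) (by norm_num),
        ← ENNReal.ofReal_mul (by positivity), ← ENNReal.ofReal_mul (h0 _)]
      refine ENNReal.ofReal_le_ofReal ?_
      rcases hx.eq_or_lt with e | hx'
      · rw [← e]; simp only [zero_mul, mul_zero]
        rw [Real.zero_rpow (by norm_num), zero_mul]; exact mul_nonneg (h0 _) (Real.exp_pos _).le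
      rcases hy.eq_or_lt with e | hy'
      · rw [← e]; simp only [zero_mul]
        rw [Real.zero_rpow (by norm_num), mul_zero]; exact mul_nonneg (h0 _) (Real.exp_pos _).le
      rw [mul_left_comm, ← Real.exp_add, Real.mul_rpow hx (Real.exp_pos _).le,
        Real.mul_rpow hy (Real.exp_pos _).le, mul_mul_mul_comm, ← Real.exp_mul, ← Real.exp_mul,
        ← Real.exp_add]
      refine mul_le_mul (hlc x y) (Real.exp_le_exp.2 ?_) (Real.exp_pos _).le (h0 _)
      have h1 : ⟪u, D x⟫ - ⟪u, D y⟫ ≤ ‖u‖ * ‖x - y‖ := by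
        rw [← inner_sub_right]
        exact (real_inner_le_norm _ _).trans
          (mul_le_mul_of_nonneg_left (hlip x y hx' hy') (norm_nonneg _))
      have h2 : ‖u‖ * ‖x - y‖ ≤ s * ‖u‖ ^ 2 + ‖x - y‖ ^ 2 / (2 * s) / 2 := by
        rw [div_div, ← sub_le_iff_le_add', le_div_iff₀ (by positivity)]
        nlinarith [sq_nonneg (2 * s * ‖u‖ - ‖x - y‖)]
      linarith)
  have hi3 : Integrable (fun x => q x * ⟪u, D x⟫) (gam E s) := by
    simpa [real_inner_smul_right] using hi2.const_inner (𝕜 := ℝ) u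
  have hm3 : ∫ x, q x * ⟪u, D x⟫ ∂gam E s = 0 := by
    have := integral_inner (𝕜 := ℝ) hi2 u
    simpa [real_inner_smul_right, hm] using this
  have low : ENNReal.ofReal Z ≤ ∫⁻ x, ENNReal.ofReal (q x * Real.exp (-⟪u, D x⟫)) ∂gam E s := by
    have := ofReal_int_le (hi.sub hi3) (g := fun x => ENNReal.ofReal (q x * Real.exp (-⟪u, D x⟫)))
      fun x => ENNReal.ofReal_le_ofReal (by
        have := mul_le_mul_of_nonneg_left (Real.add_one_le_exp (-⟪u, D x⟫)) (h0 x)
        simp only [Pi.sub_apply]; linarith)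
    simp only [Pi.sub_apply] at this
    rwa [integral_sub hi hi3, hm3, sub_zero] at this
  set I := ∫⁻ x, ENNReal.ofReal (q x * Real.exp ⟪u, D x⟫) ∂gam E s with hI
  have hIZ : I ≤ ENNReal.ofReal (Z * Real.exp (s * ‖u‖ ^ 2)) := by
    rcases hZ0.eq_or_lt with e | hZ1
    · have : q =ᵐ[gam E s] 0 := (integral_eq_zero_iff_of_nonneg h0 hi).1 e.symm
      rw [hI, lintegral_congr_ae (g := fun _ => 0) (this.mono fun x hx => by simp [hx])]
      simp
    simp_rw [ENNReal.ofReal_mul (Real.exp_pos _).le] at key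
    rw [lintegral_const_mul _ (by fun_prop), ← hI, hZ'] at key
    have k2 : (ENNReal.ofReal (Real.exp (-(s * ‖u‖ ^ 2))) * I) ^ (1 / 2 : ℝ) *
        ENNReal.ofReal Z ^ (1 / 2 : ℝ) ≤
        ENNReal.ofReal Z ^ (1 / 2 : ℝ) * ENNReal.ofReal Z ^ (1 / 2 : ℝ) := by
      rw [← ENNReal.rpow_add _ _ (by simpa using hZ1) ENNReal.ofReal_ne_top]
      norm_num at key ⊢
      exact le_trans (by gcongr) key
    rw [ENNReal.mul_le_mul_iff_left (by simpa using hZ1) (by simp),
      ENNReal.rpow_le_rpow_iff (by norm_num)] at k2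
    calc I = ENNReal.ofReal (Real.exp (s * ‖u‖ ^ 2)) *
          (ENNReal.ofReal (Real.exp (-(s * ‖u‖ ^ 2))) * I) := by
          rw [← mul_assoc, ← ENNReal.ofReal_mul (Real.exp_pos _).le, ← Real.exp_add]; simp
      _ ≤ _ := by rw [mul_comm Z, ENNReal.ofReal_mul (Real.exp_pos _).le]; gcongr
  have hnn : 0 ≤ᵐ[gam E s] fun x => q x * Real.exp ⟪u, D x⟫ :=
    ae_of_all _ fun x => mul_nonneg (h0 x) (Real.exp_pos _).le
  have hint : Integrable (fun x => q x * Real.exp ⟪u, D x⟫) (gam E s) :=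
    ⟨Measurable.aestronglyMeasurable (by fun_prop),
      (hasFiniteIntegral_iff_ofReal hnn).2 (hIZ.trans_lt ENNReal.ofReal_lt_top)⟩
  refine ⟨hint, ?_⟩
  rw [← ENNReal.ofReal_le_ofReal_iff (by positivity), ofReal_integral_eq_lintegral_ofReal hint hnn]
  exact hIZ

variable {J : Type*} [Fintype J]

/-- smooth maximum of linear functionals -/
noncomputable def sm (a : J → E) (y : E) : ℝ := Real.log (∑ j, Real.exp ⟪a j, y⟫)

omit [FiniteDimensional ℝ E] [MeasurableSpace E] [BorelSpace E] in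
lemma le_sm (a : J → E) (y : E) (j : J) : ⟪a j, y⟫ ≤ sm a y := by
  have : Real.exp ⟪a j, y⟫ ≤ ∑ j, Real.exp ⟪a j, y⟫ :=
    Finset.single_le_sum (f := fun j => Real.exp ⟪a j, y⟫) (fun _ _ => (Real.exp_pos _).le)
      (Finset.mem_univ j)
  simpa [sm] using Real.log_le_log (Real.exp_pos _) this

omit [FiniteDimensional ℝ E] [MeasurableSpace E] [BorelSpace E] in
lemma sm_exp [Nonempty J] {a : J → E} {B : ℝ} (hB : ∀ j, ‖a j‖ ≤ B) (y : E) :
    ∃ (w : J → ℝ) (c : E) (u : J → E), (∀ j, 0 ≤ w j) ∧ ∑ j, w j = 1 ∧ (∀ j, ‖u j‖ ≤ 2 * B) ∧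
      ∀ d, sm a (y + d) ≤ sm a y + ⟪c, d⟫ + (∑ j, w j * Real.exp ⟪u j, d⟫ - 1) ∧
        sm a y + ⟪c, d⟫ + (∑ j, w j * Real.exp ⟪u j, d⟫ - 1) -
          ∑ j, w j * (Real.exp ⟪(2 : ℝ) • u j, d⟫ + Real.exp ⟪(-2 : ℝ) • u j, d⟫ -
            4 * Real.exp ⟪u j, d⟫ - 4 * Real.exp ⟪-u j, d⟫ + 6) ≤ sm a (y + d) := by
  set S := ∑ j, Real.exp ⟪a j, y⟫ with hS
  have hS0 : 0 < S := Finset.sum_pos (fun _ _ => Real.exp_pos _) Finset.univ_nonempty
  set w : J → ℝ := fun j => Real.exp ⟪a j, y⟫ / S with hw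
  have hw0 : ∀ j, 0 ≤ w j := fun j => by positivity
  have hw1 : ∑ j, w j = 1 := by rw [← Finset.sum_div, div_self hS0.ne']
  set c := ∑ j, w j • a j with hc
  have hcB : ‖c‖ ≤ B := by
    calc ‖c‖ ≤ ∑ j, ‖w j • a j‖ := norm_sum_le _ _
      _ ≤ ∑ j, w j * B := Finset.sum_le_sum fun j _ => by
          rw [norm_smul, Real.norm_of_nonneg (hw0 j)]; exact mul_le_mul_of_nonneg_left (hB j) (hw0 j)
      _ = B := by rw [← Finset.sum_mul, hw1, one_mul]
  refine ⟨w, c, fun j => a j - c, hw0, hw1, fun j => (norm_sub_le _ _).trans (by linarith [hB j]),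
    fun d => ?_⟩
  set x : J → ℝ := fun j => ⟪a j - c, d⟫ with hx
  set X := ∑ j, w j * Real.exp (x j) with hX
  have hx0 : ∑ j, w j * x j = 0 := by
    simp only [hx, inner_sub_left, mul_sub, Finset.sum_sub_distrib, ← Finset.sum_mul, hw1]
    rw [hc, sum_inner]; simp [real_inner_smul_left]
  have hX1 : X - 1 = ∑ j, w j * (Real.exp (x j) - 1 - x j) := by
    simp only [mul_sub, Finset.sum_sub_distrib, mul_one, hw1, hx0, hX, sub_zero]
  have hnn : ∀ j, 0 ≤ Real.exp (x j) - 1 - x j := fun j => by linarith [Real.add_one_le_exp (x j)]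
  have hX0 : 0 ≤ X - 1 := hX1 ▸ Finset.sum_nonneg fun j _ => mul_nonneg (hw0 j) (hnn j)
  have hid : sm a (y + d) = sm a y + ⟪c, d⟫ + Real.log X := by
    have : ∑ j, Real.exp ⟪a j, y + d⟫ = S * Real.exp ⟪c, d⟫ * X := by
      rw [hX, Finset.mul_sum]
      refine Finset.sum_congr rfl fun j _ => ?_
      simp only [hw, hx, inner_add_right, inner_sub_left, Real.exp_add, Real.exp_sub]
      field_simp
    rw [sm, this, Real.log_mul (by positivity) (by linarith),
      Real.log_mul hS0.ne' (Real.exp_pos _).ne', Real.log_exp, sm]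
  refine ⟨by rw [hid]; linarith [Real.log_le_sub_one_of_pos (by linarith : 0 < X)], ?_⟩
  have h1 : X - 1 - (X - 1) ^ 2 ≤ Real.log X := by
    refine le_trans ?_ (Real.one_sub_inv_le_log_of_pos (by linarith))
    have : 1 - X⁻¹ = (X - 1) / X := by rw [sub_div, div_self (by linarith), one_div]
    rw [this, le_div_iff₀ (by linarith)]
    nlinarith [mul_nonneg hX0 (sq_nonneg (X - 1))]
  have h2 : (X - 1) ^ 2 ≤ ∑ j, w j * (Real.exp (x j) - 1 - x j) ^ 2 := by
    have h3 : 0 ≤ ∑ j, w j * ((Real.exp (x j) - 1 - x j) - (X - 1)) ^ 2 :=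
      Finset.sum_nonneg fun j _ => mul_nonneg (hw0 j) (sq_nonneg _)
    have h4 : ∑ j, w j * ((Real.exp (x j) - 1 - x j) - (X - 1)) ^ 2 =
        ∑ j, w j * (Real.exp (x j) - 1 - x j) ^ 2 -
          2 * (X - 1) * ∑ j, w j * (Real.exp (x j) - 1 - x j) + (X - 1) ^ 2 * ∑ j, w j := by
      simp only [Finset.mul_sum, ← Finset.sum_sub_distrib, ← Finset.sum_add_distrib]
      exact Finset.sum_congr rfl fun j _ => by ring
    rw [h4, ← hX1, hw1] at h3
    linarith
  have h3 : ∑ j, w j * (Real.exp (x j) - 1 - x j) ^ 2 ≤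
      ∑ j, w j * (Real.exp ⟪(2 : ℝ) • (a j - c), d⟫ + Real.exp ⟪(-2 : ℝ) • (a j - c), d⟫ -
        4 * Real.exp (x j) - 4 * Real.exp ⟪-(a j - c), d⟫ + 6) := by
    refine Finset.sum_le_sum fun j _ => mul_le_mul_of_nonneg_left ?_ (hw0 j)
    rw [real_inner_smul_left, real_inner_smul_left, inner_neg_left]
    change _ ≤ Real.exp (2 * x j) + Real.exp (-2 * x j) - 4 * Real.exp (x j) -
      4 * Real.exp (-x j) + 6
    have e1 : Real.exp (2 * x j) = Real.exp (x j) ^ 2 := by rw [← Real.exp_nat_mul]; simp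
    have e2 : Real.exp (-2 * x j) = Real.exp (-x j) ^ 2 := by
      rw [← Real.exp_nat_mul]; congr 1; push_cast; ring
    have e3 : Real.exp (x j) * Real.exp (-x j) = 1 := by rw [← Real.exp_add]; simp
    have e4 := Real.add_one_le_exp (-x j)
    have e5 : (Real.exp (x j) - 1 - x j) ^ 2 ≤ (Real.exp (x j) + Real.exp (-x j) - 2) ^ 2 :=
      pow_le_pow_left₀ (hnn j) (by linarith) 2
    rw [e1, e2]
    nlinarith
  rw [hid]
  linarith

lemma meas_sm (a : J → E) : Measurable (sm a) := by unfold sm; fun_prop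

lemma step {s : ℝ} (hs : 0 < s) {q : E → ℝ} {D : E → E} (hq : Measurable q) (hD : Measurable D)
    (h0 : ∀ x, 0 ≤ q x) (hi : Integrable q (gam E s))
    (hlc : ∀ x y, q x ^ (1 / 2 : ℝ) * q y ^ (1 - 1 / 2 : ℝ) ≤
      q ((1 / 2 : ℝ) • x + (1 - 1 / 2 : ℝ) • y))
    (hlip : ∀ x y, 0 < q x → 0 < q y → ‖D x - D y‖ ≤ ‖x - y‖)
    (hi2 : Integrable (fun x => q x • D x) (gam E s)) (hm : ∫ x, q x • D x ∂gam E s = 0)
    {a : J → E} {B : ℝ} (hB : ∀ j, ‖a j‖ ≤ B) (hz : ∃ j, a j = 0) (hsB : 16 * s * B ^ 2 ≤ 1)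
    (y : E) :
    ∫⁻ x, ENNReal.ofReal (q x) * ENNReal.ofReal (sm a (y + D x)) ∂gam E s ≤
      ENNReal.ofReal (∫ x, q x ∂gam E s) * (∫⁻ x, ENNReal.ofReal (sm a (y + x)) ∂gam E (2 * s) +
        ENNReal.ofReal (512 * s ^ 2 * B ^ 4)) := by
  obtain ⟨j0, hj0⟩ := hz
  have : Nonempty J := ⟨j0⟩
  obtain ⟨w, c, u, hw0, hw1, hu, H⟩ := sm_exp hB y
  have hsm : ∀ z, 0 ≤ sm a z := fun z => by simpa [hj0] using le_sm a z j0
  set Z := ∫ x, q x ∂gam E s with hZ
  have hZ0 : 0 ≤ Z := integral_nonneg h0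
  set T := sm a y + (∑ j, w j * Real.exp (s * ‖u j‖ ^ 2) - 1) with hT
  have ht := tau hs hq hD h0 hi hlc hlip hi2 hm
  have hi3 : Integrable (fun x => q x * ⟪c, D x⟫) (gam E s) := by
    simpa [real_inner_smul_right] using hi2.const_inner (𝕜 := ℝ) c
  have hm3 : ∫ x, q x * ⟪c, D x⟫ ∂gam E s = 0 := by
    have := integral_inner (𝕜 := ℝ) hi2 c
    simpa [real_inner_smul_right, hm] using this
  have hi4 : Integrable (fun x => ∑ j, w j * (q x * Real.exp ⟪u j, D x⟫)) (gam E s) :=
    integrable_finsetSum _ fun j _ => (ht (u j)).1.const_mul _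
  have up : ∫⁻ x, ENNReal.ofReal (q x) * ENNReal.ofReal (sm a (y + D x)) ∂gam E s ≤
      ENNReal.ofReal (Z * T) := by
    set R : E → ℝ := fun x => (sm a y - 1) * q x + q x * ⟪c, D x⟫ +
      ∑ j, w j * (q x * Real.exp ⟪u j, D x⟫) with hR
    have hle : ∀ x, q x * sm a (y + D x) ≤ R x := fun x => by
      have := mul_le_mul_of_nonneg_left (H (D x)).1 (h0 x)
      have e : ∑ j, w j * (q x * Real.exp ⟪u j, D x⟫) = q x * ∑ j, w j * Real.exp ⟪u j, D x⟫ := by
        rw [Finset.mul_sum]; exact Finset.sum_congr rfl fun j _ => by ring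
      simp only [hR, e]; linarith
    have hRi : Integrable R (gam E s) := ((hi.const_mul _).add hi3).add hi4
    calc _ ≤ ∫⁻ x, ENNReal.ofReal (R x) ∂gam E s := lintegral_mono fun x => by
          rw [← ENNReal.ofReal_mul (h0 x)]; exact ENNReal.ofReal_le_ofReal (hle x)
      _ = ENNReal.ofReal (∫ x, R x ∂gam E s) := (ofReal_integral_eq_lintegral_ofReal hRi
          (ae_of_all _ fun x => (mul_nonneg (h0 x) (hsm _)).trans (hle x))).symm
      _ ≤ _ := by
          refine ENNReal.ofReal_le_ofReal ?_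
          have hi5 : Integrable (fun x => (sm a y - 1) * q x + q x * ⟪c, D x⟫) (gam E s) :=
            (hi.const_mul _).add hi3
          simp only [hR]
          rw [integral_add hi5 hi4, integral_add (hi.const_mul _) hi3,
            hm3, integral_const_mul, integral_finsetSum _ fun j _ => (ht (u j)).1.const_mul _]
          have : ∑ j, ∫ x, w j * (q x * Real.exp ⟪u j, D x⟫) ∂gam E s ≤
              Z * ∑ j, w j * Real.exp (s * ‖u j‖ ^ 2) := by
            rw [Finset.mul_sum]
            refine Finset.sum_le_sum fun j _ => ?_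
            rw [integral_const_mul, mul_left_comm]
            exact mul_le_mul_of_nonneg_left (ht (u j)).2 (hw0 j)
          rw [hT]; nlinarith
  have hs2 : 0 ≤ 2 * s := by positivity
  have low : ENNReal.ofReal (T - 512 * s ^ 2 * B ^ 4) ≤
      ∫⁻ x, ENNReal.ofReal (sm a (y + x)) ∂gam E (2 * s) := by
    have i1 : Integrable (fun x : E => ⟪c, x⟫) (gam E (2 * s)) := (int_id _).const_inner c
    have i2 : Integrable (fun x : E => ∑ j, w j * Real.exp ⟪u j, x⟫) (gam E (2 * s)) :=
      integrable_finsetSum _ fun j _ => (int_exp _ _).const_mul _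
    have i3 : ∀ j, Integrable (fun x : E => Real.exp ⟪(2 : ℝ) • u j, x⟫ +
        Real.exp ⟪(-2 : ℝ) • u j, x⟫ - 4 * Real.exp ⟪u j, x⟫ - 4 * Real.exp ⟪-u j, x⟫ + 6)
        (gam E (2 * s)) := fun j =>
      ((((int_exp _ _).add (int_exp _ _)).sub ((int_exp _ _).const_mul _)).sub
        ((int_exp _ _).const_mul _)).add (integrable_const _)
    have i4 := integrable_finsetSum Finset.univ fun j _ => (i3 j).const_mul (w j)
    have i5 : Integrable (fun x : E => sm a y + ⟪c, x⟫) (gam E (2 * s)) :=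
      (integrable_const _).add i1
    have i6 : Integrable (fun x : E => ∑ j, w j * Real.exp ⟪u j, x⟫ - 1) (gam E (2 * s)) :=
      i2.sub (integrable_const _)
    have i7 : Integrable (fun x : E => sm a y + ⟪c, x⟫ + (∑ j, w j * Real.exp ⟪u j, x⟫ - 1))
        (gam E (2 * s)) := i5.add i6
    refine le_trans (ENNReal.ofReal_le_ofReal ?_) (ofReal_int_le (i7.sub i4)
      fun x => ENNReal.ofReal_le_ofReal (H x).2)
    simp only [Pi.sub_apply]
    rw [integral_sub i7 i4, integral_add i5 i6, integral_add (integrable_const _) i1,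
      integral_sub i2 (integrable_const _), integral_inner (int_id _), mean_gam,
      integral_finsetSum _ fun j _ => (int_exp _ _).const_mul _,
      integral_finsetSum _ fun j _ => (i3 j).const_mul _]
    simp only [integral_const_mul, mgf_gam hs2, integral_const, probReal_univ, smul_eq_mul,
      one_mul, inner_zero_right, add_zero]
    have e : ∀ j, 2 * s * ‖u j‖ ^ 2 / 2 = s * ‖u j‖ ^ 2 := fun j => by ring
    simp only [e]
    have : ∑ j, w j * ∫ x, (Real.exp ⟪(2 : ℝ) • u j, x⟫ + Real.exp ⟪(-2 : ℝ) • u j, x⟫ -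
        4 * Real.exp ⟪u j, x⟫ - 4 * Real.exp ⟪-u j, x⟫ + 6) ∂gam E (2 * s) ≤
        ∑ j, w j * (512 * s ^ 2 * B ^ 4) := by
      refine Finset.sum_le_sum fun j _ => mul_le_mul_of_nonneg_left ?_ (hw0 j)
      have k1 : Integrable (fun x : E => Real.exp ⟪(2 : ℝ) • u j, x⟫ +
          Real.exp ⟪(-2 : ℝ) • u j, x⟫) (gam E (2 * s)) := (int_exp _ _).add (int_exp _ _)
      have k2 := (int_exp (2 * s) (u j)).const_mul 4
      have k3 := (int_exp (2 * s) (-u j)).const_mul 4
      have k4 : Integrable (fun x : E => Real.exp ⟪(2 : ℝ) • u j, x⟫ +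
          Real.exp ⟪(-2 : ℝ) • u j, x⟫ - 4 * Real.exp ⟪u j, x⟫) (gam E (2 * s)) := k1.sub k2
      have k5 : Integrable (fun x : E => Real.exp ⟪(2 : ℝ) • u j, x⟫ +
          Real.exp ⟪(-2 : ℝ) • u j, x⟫ - 4 * Real.exp ⟪u j, x⟫ - 4 * Real.exp ⟪-u j, x⟫)
          (gam E (2 * s)) := k4.sub k3
      rw [integral_add k5 (integrable_const _), integral_sub k4 k3,
        integral_sub k1 k2, integral_add (int_exp _ _) (int_exp _ _)]
      simp only [integral_const_mul, mgf_gam hs2, integral_const, probReal_univ, smul_eq_mul,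
        one_mul, norm_smul, norm_neg, mul_pow, Real.norm_ofNat]
      set v := s * ‖u j‖ ^ 2 with hv
      have hv0 : 0 ≤ v := by positivity
      have hv1 : v ≤ 4 * s * B ^ 2 := by
        have := pow_le_pow_left₀ (norm_nonneg _) (hu j) 2
        rw [hv]; nlinarith
      have e1 : 2 * s * (2 ^ 2 * ‖u j‖ ^ 2) / 2 = 4 * v := by rw [hv]; ring
      have e2 : 2 * s * ‖u j‖ ^ 2 / 2 = v := by rw [hv]; ring
      rw [e1, e2]
      have b1 := Real.abs_exp_sub_one_sub_id_le (x := 4 * v) (by rw [abs_of_nonneg (by positivity)]; linarith)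
      have b2 := Real.add_one_le_exp v
      have b3 := (abs_le.1 b1).2
      have b4 : v ^ 2 ≤ (4 * s * B ^ 2) ^ 2 := pow_le_pow_left₀ hv0 hv1 2
      nlinarith
    rw [← Finset.sum_mul, hw1] at this
    rw [hT]; linarith
  refine up.trans ?_
  rw [ENNReal.ofReal_mul hZ0]
  gcongr
  calc ENNReal.ofReal T = ENNReal.ofReal (T - 512 * s ^ 2 * B ^ 4 + 512 * s ^ 2 * B ^ 4) := by
        simp
    _ ≤ _ := ENNReal.ofReal_add_le.trans (by gcongr)

variable {A : Set E}

lemma meas_pr (hA : MeasurableSet A) (t : ℝ) : Measurable (pr A t) := by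
  have h : MeasurableSet {p : E × E | p.1 + p.2 ∈ A} := measurable_add hA
  exact (measurable_measure_prodMk_left (ν := gam E t) h).ennreal_toReal

lemma mo_eq (hA : MeasurableSet A) (t : ℝ) (k : E) :
    mo A t k = ∫ z, A.indicator id (k + z) ∂gam E t := by
  rw [mo, ← integral_indicator (ms_sh hA k)]
  rfl

lemma meas_mo (hA : MeasurableSet A) (t : ℝ) : Measurable (mo A t) := by
  have : mo A t = fun k => ∫ z, A.indicator id (k + z) ∂gam E t := funext (mo_eq hA t)
  rw [this]
  exact (StronglyMeasurable.integral_prod_right (f := fun k z => A.indicator id (k + z))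
    ((measurable_id.indicator hA).comp measurable_add).stronglyMeasurable).measurable

lemma meas_bary (hA : MeasurableSet A) (t : ℝ) : Measurable (bary A t) :=
  (meas_pr hA t).inv.smul (meas_mo hA t)

lemma pr_tower (hA : MeasurableSet A) {s t : ℝ} (hs : 0 ≤ s) (ht : 0 ≤ t) (k : E) :
    ∫ x, pr A t (k + x) ∂gam E s = pr A (s + t) k := by
  have h := mp_add (E := E) hs ht
  rw [pr, ← h.measureReal_preimage (ms_sh hA k).nullMeasurableSet, Measure.real,
    Measure.prod_apply (h.measurable (ms_sh hA k)), ← integral_toReal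
      (measurable_measure_prodMk_left (h.measurable (ms_sh hA k))).aemeasurable
      (ae_of_all _ fun x => measure_lt_top _ _)]
  simp [pr, Measure.real, add_assoc]

lemma mo_tower (hA : MeasurableSet A) {s t : ℝ} (hs : 0 ≤ s) (ht : 0 ≤ t) (k : E) :
    Integrable (fun x => mo A t (k + x)) (gam E s) ∧
      ∫ x, mo A t (k + x) ∂gam E s = mo A (s + t) k := by
  have h := mp_add (E := E) hs ht
  have h1 : Integrable (fun z => A.indicator id (k + z)) (gam E (s + t)) := by
    have : Integrable (fun z : E => k + z) (gam E (s + t)) := (integrable_const _).add (int_id _)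
    exact this.indicator (ms_sh hA k)
  have h2 : Integrable (fun p : E × E => A.indicator id (k + (p.1 + p.2)))
      ((gam E s).prod (gam E t)) := h.integrable_comp_of_integrable h1
  have h3 := integral_map (μ := (gam E s).prod (gam E t)) h.measurable.aemeasurable
    (f := fun z => A.indicator id (k + z)) (h.map_eq ▸ h1.aestronglyMeasurable)
  rw [h.map_eq, integral_prod _ h2] at h3
  simp only [mo_eq hA, add_assoc]
  exact ⟨h2.integral_prod_left, h3.symm⟩

lemma harge_ind (hA : MeasurableSet A) (hc : Convex ℝ A) {s : ℝ} (hs : 0 < s) {a : J → E} {B : ℝ}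
    (hB : ∀ j, ‖a j‖ ≤ B) (hz : ∃ j, a j = 0) (hsB : 16 * s * B ^ 2 ≤ 1) (n : ℕ) (k d : E) :
    ∫⁻ z in {z | k + z ∈ A}, ENNReal.ofReal (sm a (d + (k + z - bary A (n * s) k)))
        ∂gam E (n * s) ≤
      ENNReal.ofReal (pr A (n * s) k) * (∫⁻ z, ENNReal.ofReal (sm a (d + z)) ∂gam E (2 * (n * s)) +
        n * ENNReal.ofReal (512 * s ^ 2 * B ^ 4)) := by
  have hsm := meas_sm a
  induction n generalizing k d with
  | zero =>
    simp only [Nat.cast_zero, zero_mul, mul_zero, add_zero, gam_zero]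
    by_cases hk : (0 : E) ∈ {z | k + z ∈ A}
    · have e : (Measure.dirac (0 : E)).restrict {z | k + z ∈ A} = Measure.dirac 0 := by
        classical
        rw [restrict_dirac' (ms_sh hA k), if_pos hk]
      simp [bary, pr, mo, gam_zero, Measure.real, Measure.dirac_apply' _ (ms_sh hA k), hk, e]
    · have e : (Measure.dirac (0 : E)).restrict {z | k + z ∈ A} = 0 := by
        classical
        rw [restrict_dirac' (ms_sh hA k), if_neg hk]
      simp [e]
  | succ n ih =>
    set t : ℝ := n * s with ht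
    have ht0 : 0 ≤ t := by positivity
    have e1 : ((n + 1 : ℕ) : ℝ) * s = s + t := by push_cast; ring
    have e2 : 2 * (s + t) = 2 * t + 2 * s := by ring
    rw [e1, e2]
    set m := bary A (s + t) k with hm
    set err := ENNReal.ofReal (512 * s ^ 2 * B ^ 4)
    have hb := meas_bary hA t
    have hp := meas_pr hA t
    have hip : Integrable (fun x => pr A t (k + x)) (gam E s) :=
      Integrable.of_bound (Measurable.aestronglyMeasurable (by fun_prop)) 1
        (ae_of_all _ fun x => by rw [Real.norm_of_nonneg (pr_nonneg _ _)]; exact pr_le_one _ _)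
    have hmo := mo_tower hA hs.le ht0 k
    have hst := step (q := fun x => pr A t (k + x)) (D := fun x => bary A t (k + x) - m) hs
      (by fun_prop) (by fun_prop) (fun x => pr_nonneg _ _) hip (fun x y => by
        have := pr_lc hA hc ht0 (k + x) (k + y) (l := 1 / 2) (by norm_num) (by norm_num)
        have e : (1 / 2 : ℝ) • (k + x) + (1 - 1 / 2 : ℝ) • (k + y) =
            k + ((1 / 2 : ℝ) • x + (1 - 1 / 2 : ℝ) • y) := by module
        rwa [e] at this) (fun x y hx hy => by
        simpa using bary_lip hA hc ht0 (k + x) (k + y) hx hy)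
      (by simp only [smul_sub, pr_smul_bary]; exact hmo.1.sub (hip.smul_const m))
      (by
        simp only [smul_sub, pr_smul_bary]
        rw [integral_sub hmo.1 (hip.smul_const m), hmo.2, integral_smul_const,
          pr_tower hA hs.le ht0, hm, pr_smul_bary, sub_self]) hB hz hsB
    rw [pr_tower hA hs.le ht0] at hst
    have hF : Measurable ({z | k + z ∈ A}.indicator
        fun z => ENNReal.ofReal (sm a (d + (k + z - m)))) :=
      Measurable.indicator (by fun_prop) (ms_sh hA k)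
    have hF' : Measurable fun p : E × E => {z | k + z ∈ A}.indicator
        (fun z => ENNReal.ofReal (sm a (d + (k + z - m)))) (p.1 + p.2) := hF.comp measurable_add
    rw [← lintegral_indicator (ms_sh hA k), ← (mp_add hs.le ht0).lintegral_comp hF,
      lintegral_prod _ hF'.aemeasurable]
    have hG : Measurable fun z => ENNReal.ofReal (sm a (d + z)) := by fun_prop
    rw [← (mp_add (by positivity : 0 ≤ 2 * t) (by positivity : 0 ≤ 2 * s)).lintegral_comp hG,
      lintegral_prod _ (Measurable.aemeasurable (by fun_prop))]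
    calc _ ≤ ∫⁻ x, ENNReal.ofReal (pr A t (k + x)) *
          (∫⁻ z, ENNReal.ofReal (sm a (d + (bary A t (k + x) - m) + z)) ∂gam E (2 * t) + n * err)
          ∂gam E s := by
          refine lintegral_mono fun x => le_trans (le_of_eq ?_) (ih (k + x) _)
          rw [← lintegral_indicator (ms_sh hA _)]
          refine lintegral_congr fun z => ?_
          have e : d + (bary A t (k + x) - m) + (k + x + z - bary A t (k + x)) =
              d + (k + (x + z) - m) := by abel
          by_cases h : k + (x + z) ∈ A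
          · rw [indicator_of_mem (by exact h), indicator_of_mem (by simpa [add_assoc] using h), e]
          · rw [indicator_of_notMem (by exact h), indicator_of_notMem (by simpa [add_assoc] using h)]
      _ = ∫⁻ z, ∫⁻ x, ENNReal.ofReal (pr A t (k + x)) *
            ENNReal.ofReal (sm a (d + z + (bary A t (k + x) - m))) ∂gam E s ∂gam E (2 * t) +
          ENNReal.ofReal (pr A (s + t) k) * (n * err) := by
          simp only [mul_add]
          rw [lintegral_add_right _ (by fun_prop), lintegral_mul_const _ (by fun_prop),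
            ← ofReal_integral_eq_lintegral_ofReal hip (ae_of_all _ fun x => pr_nonneg _ _),
            pr_tower hA hs.le ht0, ← lintegral_lintegral_swap
              (Measurable.aemeasurable (by fun_prop))]
          congr 1
          refine lintegral_congr fun x => ?_
          rw [← lintegral_const_mul _ (by fun_prop)]
          simp only [add_right_comm d]
      _ ≤ ∫⁻ z, ENNReal.ofReal (pr A (s + t) k) *
            (∫⁻ x, ENNReal.ofReal (sm a (d + z + x)) ∂gam E (2 * s) + err) ∂gam E (2 * t) +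
          ENNReal.ofReal (pr A (s + t) k) * (n * err) := by
          gcongr with z
          exact hst _
      _ = _ := by
          rw [lintegral_const_mul' _ _ ENNReal.ofReal_ne_top, lintegral_add_right _ (by fun_prop)]
          simp only [lintegral_const, measure_univ, mul_one, add_assoc, Nat.cast_add, Nat.cast_one]
          ring

theorem harge (hA : MeasurableSet A) (hc : Convex ℝ A) (a : J → E) :
    ∫⁻ z in A, ⨆ j, ENNReal.ofReal ⟪a j, z - bary A 1 0⟫ ∂gam E 1 ≤
      ENNReal.ofReal (pr A 1 0) * (2 * ∫⁻ z, ⨆ j, ENNReal.ofReal ⟪a j, z⟫ ∂gam E 1) := by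
  set G := ∫⁻ z, ⨆ j, ENNReal.ofReal ⟪a j, z⟫ ∂gam E 1 with hG
  have hmax : Measurable fun z : E => ⨆ j, ENNReal.ofReal ⟪a j, z⟫ := by fun_prop
  have h2 : ∫⁻ z, ⨆ j, ENNReal.ofReal ⟪a j, z⟫ ∂gam E 2 ≤ 2 * G := by
    rw [hG, gam_one, gam, lintegral_map hmax (by fun_prop), ← lintegral_const_mul _ hmax]
    refine lintegral_mono fun z => iSup_le fun j => ?_
    rw [real_inner_smul_right, ENNReal.ofReal_mul (by positivity)]
    gcongr
    · simp only [ENNReal.ofReal_le_ofNat]
      rw [Real.sqrt_le_left (by norm_num)]; norm_num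
    · exact le_iSup (fun j => ENNReal.ofReal ⟪a j, z⟫) j
  set L : ℝ := Real.log (Fintype.card J + 1) + 1 with hL
  have hL0 : 0 < L := by
    have : 0 ≤ Real.log (Fintype.card J + 1) := Real.log_nonneg (by simp)
    linarith
  refine ENNReal.le_of_forall_pos_le_add fun ε hε _ => ?_
  set β : ℝ := L / ε with hβ
  have hβ0 : 0 < β := by positivity
  let a' : Option J → E := fun o => o.elim 0 fun j => β • a j
  obtain ⟨B, hB⟩ : ∃ B, ∀ o, ‖a' o‖ ≤ B := (Finite.bddAbove_range fun o => ‖a' o‖).imp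
    fun B hB o => hB ⟨o, rfl⟩
  obtain ⟨n, hn⟩ := exists_nat_ge (16 * B ^ 2 + 512 * B ^ 4 + 1)
  have hn0 : (0 : ℝ) < n := lt_of_lt_of_le (by positivity) hn
  have key := harge_ind hA hc (s := 1 / n) (by positivity) hB ⟨none, rfl⟩ (by
    rw [mul_one_div, div_mul_eq_mul_div, div_le_one hn0]; nlinarith [sq_nonneg (B ^ 2)]) n 0 0
  rw [mul_one_div_cancel hn0.ne'] at key
  simp only [zero_add, mul_one, ofPred_mem_eq] at key
  have herr : (n : ℝ≥0∞) * ENNReal.ofReal (512 * (1 / n) ^ 2 * B ^ 4) ≤ 1 := by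
    rw [← ENNReal.ofReal_natCast, ← ENNReal.ofReal_mul hn0.le, ENNReal.ofReal_le_one]
    have : (n : ℝ) * (512 * (1 / n) ^ 2 * B ^ 4) = 512 * B ^ 4 / n := by field_simp
    rw [this, div_le_one hn0]; nlinarith [sq_nonneg B]
  have hup : ∀ z, ENNReal.ofReal (sm a' z) ≤ ENNReal.ofReal β * (⨆ j, ENNReal.ofReal ⟪a j, z⟫) +
      ENNReal.ofReal (Real.log (Fintype.card J + 1)) := by
    intro z
    obtain ⟨o, ho⟩ := Finite.exists_max fun o => ⟪a' o, z⟫
    have h1 : sm a' z ≤ ⟪a' o, z⟫ + Real.log (Fintype.card J + 1) := by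
      have : ∑ o, Real.exp ⟪a' o, z⟫ ≤ Real.exp ⟪a' o, z⟫ * (Fintype.card J + 1) := by
        have := Finset.sum_le_card_nsmul Finset.univ (fun o => Real.exp ⟪a' o, z⟫) _
          fun o' _ => Real.exp_le_exp.2 (ho o')
        simpa [mul_comm] using this
      have h3 := Real.log_le_log (Finset.sum_pos (fun _ _ => Real.exp_pos _) Finset.univ_nonempty)
        this
      rwa [Real.log_mul (Real.exp_pos _).ne' (by positivity), Real.log_exp] at h3
    refine (ENNReal.ofReal_le_ofReal h1).trans (ENNReal.ofReal_add_le.trans ?_)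
    gcongr
    cases o with
    | none => simp [a']
    | some j =>
      simp only [a', Option.elim_some, real_inner_smul_left, ENNReal.ofReal_mul hβ0.le]
      gcongr
      exact le_iSup (fun j => ENNReal.ofReal ⟪a j, z⟫) j
  have hlow : ∀ z, ENNReal.ofReal β * (⨆ j, ENNReal.ofReal ⟪a j, z⟫) ≤ ENNReal.ofReal (sm a' z) := by
    intro z
    rw [ENNReal.mul_iSup]
    refine iSup_le fun j => ?_
    rw [← ENNReal.ofReal_mul hβ0.le, ← real_inner_smul_left]
    exact ENNReal.ofReal_le_ofReal (le_sm a' z (some j))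
  have hb0 : ENNReal.ofReal β ≠ 0 := by simpa using hβ0
  rw [← ENNReal.mul_le_mul_iff_right hb0 ENNReal.ofReal_ne_top,
    ← lintegral_const_mul' _ _ ENNReal.ofReal_ne_top]
  refine (lintegral_mono fun z => hlow _).trans (key.trans ?_)
  have h3 : ∫⁻ z, ENNReal.ofReal (sm a' z) ∂gam E 2 ≤ ENNReal.ofReal β * (2 * G) +
      ENNReal.ofReal (Real.log (Fintype.card J + 1)) := by
    refine (lintegral_mono hup).trans ?_
    rw [lintegral_add_right _ measurable_const, lintegral_const_mul _ hmax]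
    simp only [lintegral_const, measure_univ, mul_one]
    gcongr
  have h4 : ENNReal.ofReal (Real.log (Fintype.card J + 1)) + 1 = ENNReal.ofReal β * ε := by
    rw [← ENNReal.ofReal_one, ← ENNReal.ofReal_add (Real.log_nonneg (by simp)) zero_le_one,
      ← ENNReal.ofReal_coe_nnreal, ← ENNReal.ofReal_mul hβ0.le, hβ,
      div_mul_cancel₀ _ (by positivity)]
  have h5 : ENNReal.ofReal (pr A 1 0) ≤ 1 := ENNReal.ofReal_le_one.2 (pr_le_one _ _)
  calc _ ≤ ENNReal.ofReal (pr A 1 0) * (ENNReal.ofReal β * (2 * G) + ENNReal.ofReal β * ε) := by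
        rw [← h4, ← add_assoc]; gcongr
    _ = ENNReal.ofReal β * (ENNReal.ofReal (pr A 1 0) * (2 * G) + ENNReal.ofReal (pr A 1 0) * ε) := by
        ring
    _ ≤ _ := by gcongr; exact mul_le_of_le_one_left' h5

end Pool.Agent.MP_0502fb_pr.H57
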