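import Mathlib
import Pool.Agent.MP_0502fb_pr.H57.Harge

/-!
Linear spaces of centred Gaussian random variables, conditioned on finitely many inequalities.
-/

namespace Pool.Agent.MP_0502fb_pr.H57

open MeasureTheory ProbabilityTheory Set Filter Topology
open scoped ENNReal NNReal RealInnerProductSpace MatrixOrder

variable {Ω : Type*} [MeasurableSpace Ω] {P : Measure Ω} {V : Submodule ℝ (Ω → ℝ)}

/-- a linear space of centred Gaussian random variables -/
structure GS (P : Measure Ω) (V : Submodule ℝ (Ω → ℝ)) : Prop where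
  prob : IsProbabilityMeasure P
  meas : ∀ ξ ∈ V, Measurable ξ
  law : ∀ ξ ∈ V, ∃ v, P.map ξ = gaussianReal 0 v

/-- covariance -/
noncomputable def cov (P : Measure Ω) (ξ η : Ω → ℝ) : ℝ := ∫ ω, ξ ω * η ω ∂P

lemma cov_comm (ξ η : Ω → ℝ) : cov P ξ η = cov P η ξ := by simp [cov, mul_comm]

lemma cov_self_nonneg (ξ : Ω → ℝ) : 0 ≤ cov P ξ ξ := integral_nonneg fun _ => mul_self_nonneg _

lemma GS.memLp (h : GS P V) {ξ : Ω → ℝ} (hξ : ξ ∈ V) : MemLp ξ 2 P := by
  obtain ⟨v, hv⟩ := h.law ξ hξ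
  have := memLp_id_gaussianReal' (μ := 0) (v := v) 2 (by simp)
  rw [← hv] at this
  exact this.comp_of_map (h.meas ξ hξ).aemeasurable

lemma GS.int (h : GS P V) {ξ : Ω → ℝ} (hξ : ξ ∈ V) : Integrable ξ P := by
  have := h.prob
  exact (h.memLp hξ).integrable (by simp)

lemma GS.int_exp (h : GS P V) {ξ : Ω → ℝ} (hξ : ξ ∈ V) :
    Integrable (fun ω => Real.exp (ξ ω)) P := by
  obtain ⟨v, hv⟩ := h.law ξ hξ
  have := integrable_exp_mul_gaussianReal (μ := 0) (v := v) 1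
  rw [← hv, integrable_map_measure (by fun_prop) (h.meas ξ hξ).aemeasurable] at this
  simpa [Function.comp_def] using this

lemma GS.cov_sum (h : GS P V) {ι κ : Type*} (s : Finset ι) (t : Finset κ) {ξ : ι → Ω → ℝ}
    {η : κ → Ω → ℝ} (hξ : ∀ i, ξ i ∈ V) (hη : ∀ i, η i ∈ V) (a : ι → ℝ) (b : κ → ℝ) :
    cov P (∑ i ∈ s, a i • ξ i) (∑ j ∈ t, b j • η j) =
      ∑ i ∈ s, ∑ j ∈ t, a i * b j * cov P (ξ i) (η j) := by
  have hi : ∀ i j, Integrable (fun ω => a i * b j * (ξ i ω * η j ω)) P := fun i j =>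
    ((h.memLp (hξ i)).integrable_mul (h.memLp (hη j))).const_mul _
  simp only [cov, ← integral_const_mul]
  simp_rw [← integral_finsetSum _ fun j _ => hi _ j]
  rw [← integral_finsetSum _ fun i _ => integrable_finsetSum _ fun j _ => hi i j]
  refine integral_congr_ae (ae_of_all _ fun ω => ?_)
  simp only [Finset.sum_apply, Pi.smul_apply, smul_eq_mul, Finset.sum_mul_sum]
  exact Finset.sum_congr rfl fun i _ => Finset.sum_congr rfl fun j _ => by ring

lemma GS.char (h : GS P V) {ξ : Ω → ℝ} (hξ : ξ ∈ V) :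
    ∫ ω, Complex.exp (ξ ω * Complex.I) ∂P = Complex.exp (-(cov P ξ ξ / 2 : ℝ)) := by
  obtain ⟨v, hv⟩ := h.law ξ hξ
  have hm := (h.meas ξ hξ).aemeasurable (μ := P)
  have h1 : cov P ξ ξ = v := by
    have h2 := variance_id_gaussianReal (μ := 0) (v := v)
    rw [variance_eq_integral aemeasurable_id] at h2
    simp only [id_eq, integral_id_gaussianReal, sub_zero] at h2
    rw [← hv, integral_map hm (by fun_prop)] at h2
    simpa [cov, sq] using h2
  have h2 := charFun_gaussianReal (μ := 0) (v := v) 1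
  rw [← hv, charFun_apply_real, integral_map hm (by fun_prop)] at h2
  simpa [h1] using h2

variable {ι : Type*} [Fintype ι]

lemma gram_exists (S : ι → ι → ℝ) (hs : ∀ i j, S i j = S j i)
    (hp : ∀ a : ι → ℝ, 0 ≤ ∑ i, ∑ j, a i * a j * S i j) :
    ∃ e : ι → EuclideanSpace ℝ ι, ∀ i j, ⟪e i, e j⟫ = S i j := by
  classical
  have h : (Matrix.of S).PosSemidef := by
    refine Matrix.posSemidef_iff_dotProduct_mulVec.2 ⟨?_, fun a => ?_⟩
    · ext i j; simp [hs i j]
    · have := hp a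
      simp only [dotProduct, Matrix.mulVec, star_trivial, Matrix.of_apply, Finset.mul_sum]
      refine this.trans_eq (Finset.sum_congr rfl fun i _ => Finset.sum_congr rfl fun j _ => by ring)
  obtain ⟨B, hB⟩ := CStarAlgebra.nonneg_iff_eq_star_mul_self.1 h.nonneg
  refine ⟨fun i => WithLp.toLp 2 fun k => B k i, fun i j => ?_⟩
  have := congrFun (congrFun hB i) j
  simp only [Matrix.of_apply, Matrix.mul_apply, Matrix.star_apply, star_trivial] at this
  simp [this, PiLp.inner_apply, mul_comm]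

lemma ext_lin {μ ν : Measure (ι → ℝ)} [IsFiniteMeasure μ] [IsFiniteMeasure ν]
    (h : ∀ a : ι → ℝ, ∫ y, Complex.exp ((∑ i, a i * y i : ℝ) * Complex.I) ∂μ =
      ∫ y, Complex.exp ((∑ i, a i * y i : ℝ) * Complex.I) ∂ν) : μ = ν := by
  classical
  refine Measure.ext_of_charFunDual (funext fun L => ?_)
  have : ∀ y : ι → ℝ, L y = ∑ i, L (Pi.single i 1) * y i := fun y => by
    conv_lhs => rw [← Finset.univ_sum_single y, map_sum]
    refine Finset.sum_congr rfl fun i _ => ?_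
    rw [mul_comm, ← smul_eq_mul, ← map_smul, ← Pi.single_smul, smul_eq_mul, mul_one]
  rw [charFunDual_apply, charFunDual_apply, show (fun v => Complex.exp (L v * Complex.I)) =
    fun y => Complex.exp ((∑ i, L (Pi.single i 1) * y i : ℝ) * Complex.I) from
      funext fun y => by rw [← this y]]
  exact h _

lemma GS.char_vec (h : GS P V) {ξ : ι → Ω → ℝ} (hξ : ∀ i, ξ i ∈ V) (a : ι → ℝ) :
    ∫ y, Complex.exp ((∑ i, a i * y i : ℝ) * Complex.I) ∂(P.map fun ω i => ξ i ω) =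
      Complex.exp (-((∑ i, ∑ j, a i * a j * cov P (ξ i) (ξ j)) / 2 : ℝ)) := by
  have hm : Measurable fun ω i => ξ i ω := measurable_pi_lambda _ fun i => h.meas _ (hξ i)
  rw [integral_map hm.aemeasurable (Measurable.aestronglyMeasurable (by fun_prop)),
    ← h.cov_sum _ _ hξ hξ, ← h.char (V.sum_mem fun i _ => V.smul_mem (a i) (hξ i))]
  simp

lemma char_gram {E : Type*} [NormedAddCommGroup E] [InnerProductSpace ℝ E] [FiniteDimensional ℝ E]
    [MeasurableSpace E] [BorelSpace E] (e : ι → E) (a : ι → ℝ) :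
    ∫ z, Complex.exp ((∑ i, a i * ⟪e i, z⟫ : ℝ) * Complex.I) ∂gam E 1 =
      Complex.exp (-((∑ i, ∑ j, a i * a j * ⟪e i, e j⟫) / 2 : ℝ)) := by
  have := charFun_gam (E := E) zero_le_one (∑ i, a i • e i)
  rw [charFun_apply, one_mul, ← real_inner_self_eq_norm_sq] at this
  have e1 : ∀ z, ⟪z, ∑ i, a i • e i⟫ = ∑ i, a i * ⟪e i, z⟫ := fun z => by
    rw [real_inner_comm, sum_inner]; simp only [real_inner_smul_left]
  simp only [e1] at this
  rw [this]
  have e2 : ∑ x, a x * ∑ i, a i * ⟪e i, e x⟫ = ∑ i, ∑ j, a i * a j * ⟪e i, e j⟫ :=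
    Finset.sum_congr rfl fun i _ => by
      rw [Finset.mul_sum]
      exact Finset.sum_congr rfl fun j _ => by rw [real_inner_comm, mul_assoc]
  rw [e2]

lemma GS.law_eq (h : GS P V) {ξ η : ι → Ω → ℝ} (hξ : ∀ i, ξ i ∈ V) (hη : ∀ i, η i ∈ V)
    (hc : ∀ i j, cov P (ξ i) (ξ j) = cov P (η i) (η j)) :
    (P.map fun ω i => ξ i ω) = P.map fun ω i => η i ω := by
  have := h.prob
  refine ext_lin fun a => ?_
  simp only [h.char_vec hξ, h.char_vec hη, hc]

lemma GS.rep (h : GS P V) {ξ : ι → Ω → ℝ} (hξ : ∀ i, ξ i ∈ V) :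
    ∃ e : ι → EuclideanSpace ℝ ι, (∀ i j, ⟪e i, e j⟫ = cov P (ξ i) (ξ j)) ∧
      (∀ S, MeasurableSet S → P {ω | (fun i => ξ i ω) ∈ S} =
        gam _ 1 {z | (fun i => ⟪e i, z⟫) ∈ S}) ∧
      (∀ S, MeasurableSet S → ∀ F : (ι → ℝ) → ℝ, Measurable F →
        ∫ ω in {ω | (fun i => ξ i ω) ∈ S}, F (fun i => ξ i ω) ∂P =
          ∫ z in {z | (fun i => ⟪e i, z⟫) ∈ S}, F (fun i => ⟪e i, z⟫) ∂gam _ 1) ∧
      (∀ S, MeasurableSet S → ∀ F : (ι → ℝ) → ℝ≥0∞, Measurable F →
        ∫⁻ ω in {ω | (fun i => ξ i ω) ∈ S}, F (fun i => ξ i ω) ∂P =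
          ∫⁻ z in {z | (fun i => ⟪e i, z⟫) ∈ S}, F (fun i => ⟪e i, z⟫) ∂gam _ 1) := by
  have := h.prob
  obtain ⟨e, he⟩ := gram_exists (fun i j => cov P (ξ i) (ξ j)) (fun i j => cov_comm _ _)
    fun a => by rw [← h.cov_sum _ _ hξ hξ]; exact cov_self_nonneg _
  have hm : Measurable fun ω i => ξ i ω := measurable_pi_lambda _ fun i => h.meas _ (hξ i)
  have hm' : Measurable fun (z : EuclideanSpace ℝ ι) i => ⟪e i, z⟫ := by fun_prop
  have key : (P.map fun ω i => ξ i ω) = (gam _ 1).map fun z i => ⟪e i, z⟫ := by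
    refine ext_lin fun a => ?_
    rw [h.char_vec hξ, integral_map hm'.aemeasurable
      (Measurable.aestronglyMeasurable (by fun_prop)), char_gram]
    simp only [he]
  refine ⟨e, he, fun S hS => ?_, fun S hS F hF => ?_, fun S hS F hF => ?_⟩
  · have := congrArg (fun μ : Measure (ι → ℝ) => μ S) key
    simp only [Measure.map_apply hm hS, Measure.map_apply hm' hS] at this
    exact this
  · have := congrArg (fun μ : Measure (ι → ℝ) => ∫ y in S, F y ∂μ) key
    simp only [setIntegral_map hS hF.aestronglyMeasurable hm.aemeasurable,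
      setIntegral_map hS hF.aestronglyMeasurable hm'.aemeasurable] at this
    exact this
  · have := congrArg (fun μ : Measure (ι → ℝ) => ∫⁻ y in S, F y ∂μ) key
    simp only [setLIntegral_map hS hF hm, setLIntegral_map hS hF hm'] at this
    exact this

/-- the event that all variables lie above the wall `-k` -/
def ev (ξ : ι → Ω → ℝ) (k : ι → ℝ) : Set Ω := {ω | ∀ i, 0 ≤ ξ i ω + k i}

/-- conditional mean -/
noncomputable def cm (P : Measure Ω) (S : Set Ω) (η : Ω → ℝ) : ℝ := (∫ ω in S, η ω ∂P) / P.real S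

lemma GS.ms_ev (h : GS P V) {ξ : ι → Ω → ℝ} (hξ : ∀ i, ξ i ∈ V) (k : ι → ℝ) :
    MeasurableSet (ev ξ k) := by
  have := fun i => h.meas _ (hξ i)
  unfold ev; measurability

lemma GS.lc (h : GS P V) {ξ : ι → Ω → ℝ} (hξ : ∀ i, ξ i ∈ V) (k k' : ι → ℝ) {l : ℝ} (h0 : 0 < l)
    (h1 : l < 1) : P.real (ev ξ k) ^ l * P.real (ev ξ k') ^ (1 - l) ≤
      P.real (ev ξ (l • k + (1 - l) • k')) := by
  obtain ⟨e, -, hS, -⟩ := h.rep hξ
  have key : ∀ k : ι → ℝ, P.real (ev ξ k) = (gam _ 1).real {z | ∀ i, 0 ≤ ⟪e i, z⟫ + k i} :=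
    fun k => congrArg ENNReal.toReal (hS {y | ∀ i, 0 ≤ y i + k i} (by measurability))
  simp only [key]
  refine lc_set zero_le_one (by measurability) (by measurability) (by measurability) h0 h1
    fun x hx y hy i => ?_
  simp only [inner_add_right, real_inner_smul_right, Pi.add_apply, Pi.smul_apply, smul_eq_mul]
  nlinarith [mul_nonneg h0.le (hx i), mul_nonneg (by linarith : 0 ≤ 1 - l) (hy i)]

omit [Fintype ι] in
lemma convex_wall {E : Type*} [NormedAddCommGroup E] [InnerProductSpace ℝ E] (e : ι → E)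
    (k : ι → ℝ) : Convex ℝ {z | ∀ i, 0 ≤ ⟪e i, z⟫ + k i} := by
  intro x hx y hy a b ha hb hab i
  simp only [inner_add_right, real_inner_smul_right]
  have : k i = a * k i + b * k i := by rw [← add_mul, hab, one_mul]
  nlinarith [mul_nonneg ha (hx i), mul_nonneg hb (hy i)]

/-- joint model of the constraints `ξ` and of further variables `η` -/
lemma GS.rep2 (h : GS P V) {J : Type*} [Fintype J] {ξ : ι → Ω → ℝ} (hξ : ∀ i, ξ i ∈ V)
    {η : J → Ω → ℝ} (hη : ∀ j, η j ∈ V) (k : ι → ℝ) :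
    ∃ (A : Set (EuclideanSpace ℝ (ι ⊕ J))) (u : J → EuclideanSpace ℝ (ι ⊕ J)),
      MeasurableSet A ∧ Convex ℝ A ∧ (∀ j, ‖u j‖ ^ 2 = cov P (η j) (η j)) ∧
      P.real (ev ξ k) = pr A 1 0 ∧
      (∀ j, P.real (ev ξ (k + fun i => cov P (ξ i) (η j))) = pr A 1 (0 + (1 : ℝ) • u j)) ∧
      (∀ F : (J → ℝ) → ℝ, Measurable F → ∫ ω in ev ξ k, F (fun j => η j ω) ∂P =
        ∫ z in A, F (fun j => ⟪u j, z⟫) ∂gam _ 1) ∧
      (∀ F : (J → ℝ) → ℝ≥0∞, Measurable F → ∫⁻ ω in ev ξ k, F (fun j => η j ω) ∂P =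
        ∫⁻ z in A, F (fun j => ⟪u j, z⟫) ∂gam _ 1) ∧
      (∀ F : (J → ℝ) → ℝ≥0∞, Measurable F → ∫⁻ ω, F (fun j => η j ω) ∂P =
        ∫⁻ z, F (fun j => ⟪u j, z⟫) ∂gam _ 1) := by
  obtain ⟨e, he, hS, hI, hL⟩ := h.rep (ξ := Sum.elim ξ η) (by rintro (i | j); exacts [hξ i, hη j])
  have ms : ∀ k : ι → ℝ, MeasurableSet {y : ι ⊕ J → ℝ | ∀ i, 0 ≤ y (.inl i) + k i} := fun k => by
    measurability
  refine ⟨{z | ∀ i, 0 ≤ ⟪e (.inl i), z⟫ + k i}, fun j => e (.inr j), by measurability,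
    convex_wall _ _, fun j => by rw [← real_inner_self_eq_norm_sq, he]; rfl, ?_, fun j => ?_,
    fun F hF => hI _ (ms k) (fun y => F fun j => y (.inr j)) (by fun_prop),
    fun F hF => hL _ (ms k) (fun y => F fun j => y (.inr j)) (by fun_prop), fun F hF => ?_⟩
  · simpa [pr, ev, Measure.real] using congrArg ENNReal.toReal (hS _ (ms k))
  · refine (congrArg ENNReal.toReal (hS _ (ms _))).trans ?_
    simp only [pr, Measure.real, zero_add, one_smul, mem_ofPred_eq, inner_add_right, he,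
      Sum.elim_inl, Sum.elim_inr, Pi.add_apply]
    refine congrArg (fun S => (gam _ 1 S).toReal) (Set.ext fun z => forall_congr' fun i => ?_)
    constructor <;> intro h <;> linarith
  · simpa using hL univ MeasurableSet.univ (fun y => F fun j => y (.inr j)) (by fun_prop)

lemma GS.one (h : GS P V) {ξ : ι → Ω → ℝ} (hξ : ∀ i, ξ i ∈ V) {η : Ω → ℝ} (hη : η ∈ V)
    (k : ι → ℝ) :
    P.real (ev ξ (k + fun i => cov P (ξ i) η)) =
        ∫ ω in ev ξ k, Real.exp (η ω - cov P η η / 2) ∂P ∧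
      P.real (ev ξ k) * Real.exp (cm P (ev ξ k) η - cov P η η / 2) ≤
        P.real (ev ξ (k + fun i => cov P (ξ i) η)) ∧
      (0 < P.real (ev ξ k) → P.real (ev ξ (k + fun i => cov P (ξ i) η)) ≤
        P.real (ev ξ k) * Real.exp (cm P (ev ξ k) η)) := by
  obtain ⟨A, u, hA, hc, hu, hp, hq, hI, -⟩ := h.rep2 hξ (η := fun _ : Unit => η) (fun _ => hη) k
  have e1 := hI (fun y => y ()) (by fun_prop)
  have e2 := int_inner (A := A) 1 0 (u ())
  simp only [zero_add, ofPred_mem_eq] at e2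
  have e3 : 0 < pr A 1 0 → cm P (ev ξ k) η = ⟪u (), bary A 1 0 - 0⟫ := fun h0 => by
    rw [cm, e1, e2, hp, mul_div_cancel_left₀ _ h0.ne']
  rw [hq (), hp]
  refine ⟨?_, ?_, fun h0 => ?_⟩
  · rw [pr_tilt hA zero_le_one, hI (fun y => Real.exp (y () - cov P η η / 2)) (by fun_prop)]
    simp [hu]
  · rcases (pr_nonneg (A := A) 1 0).eq_or_lt with h0 | h0
    · rw [← h0, zero_mul]; exact pr_nonneg _ _
    · rw [e3 h0, ← hu ()]; simpa using pr_lower hA zero_le_one 0 (u ())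
  · rw [e3 h0]; exact pr_upper hA hc zero_le_one 0 _ h0

lemma GS.hbd (h : GS P V) {ξ : ι → Ω → ℝ} (hξ : ∀ i, ξ i ∈ V) (k c : ι → ℝ) {r : ℝ}
    (hc : ∀ a : ι → ℝ, (∑ i, a i * c i) ^ 2 ≤ r * ∑ i, ∑ j, a i * a j * cov P (ξ i) (ξ j))
    (hr : 0 ≤ r) :
    P.real (ev ξ k) ^ 2 * Real.exp (-r) ≤ P.real (ev ξ (k + c)) * P.real (ev ξ (k - c)) := by
  classical
  obtain ⟨e, he, -⟩ := h.rep hξ
  let T : EuclideanSpace ℝ ι →ₗ[ℝ] EuclideanSpace ℝ ι :=
    (Fintype.linearCombination ℝ e).comp (WithLp.linearEquiv 2 ℝ (ι → ℝ)).toLinearMap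
  have hT : ∀ a, T a = ∑ i, a i • e i := fun a => by simp [T, Fintype.linearCombination_apply]
  have hN : ∀ a, ⟪T a, T a⟫ = ∑ i, ∑ j, a i * a j * cov P (ξ i) (ξ j) := fun a => by
    simp only [hT, sum_inner, inner_sum, real_inner_smul_left, real_inner_smul_right, he,
      mul_assoc]
    exact Finset.sum_congr rfl fun i _ => Finset.sum_congr rfl fun j _ => by rw [cov_comm]
  set S := T.adjoint ∘ₗ T with hS
  have hmem : WithLp.toLp 2 c ∈ S.range := by
    have h1 : S.adjoint = S := by simp [hS, LinearMap.adjoint_comp]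
    rw [← h1, ← LinearMap.orthogonal_ker, Submodule.mem_orthogonal]
    intro a ha
    have h2 : ⟪T a, T a⟫ = 0 := by
      rw [← LinearMap.adjoint_inner_left]
      have : T.adjoint (T a) = 0 := ha
      rw [this, inner_zero_left]
    have h3 := hc a
    rw [← hN, h2, mul_zero] at h3
    have h4 : ∑ i, a i * c i = 0 := by nlinarith [sq_nonneg (∑ i, a i * c i)]
    simpa [PiLp.inner_apply, mul_comm] using h4
  obtain ⟨a, ha⟩ := hmem
  have hci : ∀ i, c i = ∑ j, a j * cov P (ξ i) (ξ j) := fun i => by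
    have h1 : ⟪EuclideanSpace.single i (1 : ℝ), S a⟫ = c i := by
      rw [ha, EuclideanSpace.inner_single_left]; simp
    rw [← h1, hS, LinearMap.comp_apply, LinearMap.adjoint_inner_right, hT, hT]
    simp [inner_sum, real_inner_smul_right, he]
  set η := ∑ j, a j • ξ j with hη
  have hηV : η ∈ V := V.sum_mem fun i _ => V.smul_mem _ (hξ i)
  have hcov : ∀ i, cov P (ξ i) η = c i := fun i => by
    have := h.cov_sum {i} Finset.univ hξ hξ (fun _ => 1) a
    simpa [hci i] using this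
  have hv : cov P η η ≤ r := by
    have h1 := hc a
    have h2 : ∑ i, a i * c i = cov P η η := by
      rw [hη, h.cov_sum _ _ hξ hξ]; simp only [hci, Finset.mul_sum, mul_assoc]
    rw [← h.cov_sum _ _ hξ hξ, h2] at h1
    rcases (cov_self_nonneg (P := P) η).eq_or_lt with h3 | h3
    · rwa [← h3]
    · nlinarith
  have h1 := (h.one hξ hηV k).2.1
  have h2 := (h.one hξ (V.neg_mem hηV) k).2.1
  have e1 : ∀ ζ, cov P ζ (-η) = -cov P ζ η := fun ζ => by simp [cov, integral_neg]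
  have e2 : cov P (-η) (-η) = cov P η η := by simp [cov]
  have e3 : cm P (ev ξ k) (-η) = -cm P (ev ξ k) η := by simp [cm, integral_neg, neg_div]
  rw [e2, e3] at h2
  simp only [e1, hcov] at h1 h2
  have e4 : (k + fun i => -c i) = k - c := by ext i; simp [sub_eq_add_neg]
  rw [e4] at h2
  refine le_trans ?_ (mul_le_mul h1 h2 (by positivity) measureReal_nonneg)
  rw [mul_mul_mul_comm, ← Real.exp_add, ← sq]
  gcongr
  linarith

lemma iSup_abs {J : Type*} (y : J → ℝ) :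
    ⨆ j, ENNReal.ofReal |y j| = ⨆ j : J ⊕ J, ENNReal.ofReal (Sum.elim y (-y) j) := by
  rw [iSup_sum, ← iSup_sup_eq]
  refine iSup_congr fun j => ?_
  simp [abs_eq_max_neg, ENNReal.ofReal_max]

lemma GS.harge (h : GS P V) {J : Type*} [Fintype J] {ξ : ι → Ω → ℝ} (hξ : ∀ i, ξ i ∈ V)
    {η : J → Ω → ℝ} (hη : ∀ j, η j ∈ V) (k : ι → ℝ) (hk : 0 < P.real (ev ξ k)) :
    ∫⁻ ω in ev ξ k, ⨆ j, ENNReal.ofReal |η j ω - cm P (ev ξ k) (η j)| ∂P ≤
      P (ev ξ k) * (2 * ∫⁻ ω, ⨆ j, ENNReal.ofReal |η j ω| ∂P) := by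
  have := h.prob
  obtain ⟨A, u, hA, hc, -, hp, -, hI, hL, hL'⟩ := h.rep2 hξ hη k
  have e3 : ∀ j, cm P (ev ξ k) (η j) = ⟪u j, bary A 1 0⟫ := fun j => by
    have e2 := int_inner (A := A) 1 0 (u j)
    simp only [zero_add, ofPred_mem_eq, sub_zero] at e2
    rw [cm, hI (fun y => y j) (by fun_prop), e2, hp, mul_div_cancel_left₀ _ (hp ▸ hk).ne']
  rw [hL (fun y => ⨆ j, ENNReal.ofReal |y j - cm P (ev ξ k) (η j)|) (by fun_prop),
    hL' (fun y => ⨆ j, ENNReal.ofReal |y j|) (by fun_prop),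
    ← ofReal_measureReal (measure_ne_top P _), hp]
  have key := H57.harge hA hc (Sum.elim u (-u))
  have e4 : ∀ z, ⨆ j, ENNReal.ofReal ⟪Sum.elim u (-u) j, z⟫ = ⨆ j, ENNReal.ofReal |⟪u j, z⟫| :=
    fun z => by
      rw [iSup_abs]
      exact iSup_congr (by rintro (j | j) <;> simp)
  simp only [e4] at key
  simpa only [e3, inner_sub_right] using key

lemma GS.borell (h : GS P V) {η : ι → Ω → ℝ} (hη : ∀ j, η j ∈ V) {r : ℝ} (hr : 0 < r)
    (h34 : 3 / 4 ≤ P.real {ω | ∀ j, |η j ω| ≤ r}) (n : ℕ) :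
    P.real {ω | ∃ j, (2 * n + 1) * r < |η j ω|} ≤ (1 / 2) ^ (n + 1) := by
  obtain ⟨e, -, hS, -⟩ := h.rep hη
  have k1 : ∀ s : ℝ, P.real {ω | ∃ j, s < |η j ω|} = (gam _ 1).real {z | ∃ j, s < |⟪e j, z⟫|} :=
    fun s => congrArg ENNReal.toReal (hS {y | ∃ j, s < |y j|} (by measurability))
  have k2 : P.real {ω | ∀ j, |η j ω| ≤ r} = (gam _ 1).real {z | ∀ j, |⟪e j, z⟫| ≤ r} :=
    congrArg ENNReal.toReal (hS {y | ∀ j, |y j| ≤ r} (by measurability))
  rw [k2] at h34
  rw [k1]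
  have mC : MeasurableSet {z | ∀ j, |⟪e j, z⟫| ≤ r} := by measurability
  have h14 : (gam _ 1).real {z | ∃ j, r < |⟪e j, z⟫|} ≤ 1 / 4 := by
    have : {z | ∃ j, r < |⟪e j, z⟫|} = {z | ∀ j, |⟪e j, z⟫| ≤ r}ᶜ := by ext; simp
    rw [this, probReal_compl_eq_one_sub mC]; linarith
  rcases Nat.eq_zero_or_pos n with rfl | hn
  · simp only [Nat.cast_zero, mul_zero, zero_add, one_mul, pow_one]; linarith
  have hn' : (0 : ℝ) < n := by exact_mod_cast hn
  set l : ℝ := 1 / (n + 1) with hl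
  have h0 : 0 < l := by positivity
  have h1 : l < 1 := by rw [hl, div_lt_one (by positivity)]; linarith
  have key := lc_set (t := 1) zero_le_one (A := {z | ∃ j, (2 * n + 1) * r < |⟪e j, z⟫|})
    (C := {z | ∃ j, r < |⟪e j, z⟫|}) (by measurability) mC (by measurability) h0 h1 (by
      rintro x ⟨j, hj⟩ y hy
      refine ⟨j, ?_⟩
      rw [inner_add_right, real_inner_smul_right, real_inner_smul_right]
      have h2 := abs_sub_abs_le_abs_add (l * ⟪e j, x⟫) ((1 - l) * ⟪e j, y⟫)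
      rw [abs_mul, abs_mul, abs_of_pos h0, abs_of_pos (by linarith : 0 < 1 - l)] at h2
      have h3 := mul_lt_mul_of_pos_left hj h0
      have h4 := mul_le_mul_of_nonneg_left (hy j) (by linarith : 0 ≤ 1 - l)
      have h5 : l * ((2 * n + 1) * r) - (1 - l) * r = r := by rw [hl]; field_simp; ring
      linarith)
  set p := (gam _ 1).real {z | ∃ j, (2 * n + 1) * r < |⟪e j, z⟫|}
  have hp : 0 ≤ p := measureReal_nonneg
  have h2 : (3 / 4 : ℝ) ≤ (gam _ 1).real {z | ∀ j, |⟪e j, z⟫| ≤ r} ^ (1 - l) :=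
    h34.trans (Real.self_le_rpow_of_le_one measureReal_nonneg measureReal_le_one (by linarith))
  have h3 : p ^ l ≤ 1 / 2 := by nlinarith [Real.rpow_nonneg hp l]
  calc p = (p ^ l) ^ (n + 1) := by
        rw [← Real.rpow_natCast, ← Real.rpow_mul hp, hl]; push_cast
        rw [one_div_mul_cancel (by positivity), Real.rpow_one]
    _ ≤ _ := pow_le_pow_left₀ (Real.rpow_nonneg hp l) h3 _

lemma GS.borell_int (h : GS P V) {η : ι → Ω → ℝ} (hη : ∀ j, η j ∈ V) {r : ℝ} (hr : 0 < r)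
    (h34 : 3 / 4 ≤ P.real {ω | ∀ j, |η j ω| ≤ r}) :
    ∫⁻ ω, ⨆ j, ENNReal.ofReal |η j ω| ∂P ≤ ENNReal.ofReal (3 * r) := by
  have := h.prob
  have hm := fun j => h.meas _ (hη j)
  set S : ℕ → Set Ω := fun n => {ω | ∃ j, (2 * n + 1) * r < |η j ω|} with hS
  have mS : ∀ n, MeasurableSet (S n) := fun n => by simp only [hS]; measurability
  have pt : ∀ ω, ⨆ j, ENNReal.ofReal |η j ω| ≤ ENNReal.ofReal r +
      ∑' n, (S n).indicator (fun _ => ENNReal.ofReal (2 * r)) ω := by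
    intro ω
    refine iSup_le fun j => ?_
    obtain ⟨N, hN⟩ := exists_nat_ge (|η j ω| / r)
    have ex : ∃ n : ℕ, |η j ω| ≤ (2 * n + 1) * r :=
      ⟨N, by rw [div_le_iff₀ hr] at hN; nlinarith [N.cast_nonneg (α := ℝ)]⟩
    classical
    have h1 := Nat.find_spec ex
    refine (ENNReal.ofReal_le_ofReal h1).trans ?_
    refine le_trans ?_ (add_le_add_right (ENNReal.sum_le_tsum (Finset.range (Nat.find ex))) _)
    have h2 : ∀ n ∈ Finset.range (Nat.find ex),
        (S n).indicator (fun _ => ENNReal.ofReal (2 * r)) ω = ENNReal.ofReal (2 * r) := fun n hn =>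
      indicator_of_mem (show ω ∈ S n from
        ⟨j, not_le.1 (Nat.find_min ex (Finset.mem_range.1 hn))⟩) _
    rw [Finset.sum_congr rfl h2, Finset.sum_const, Finset.card_range, nsmul_eq_mul, ← ENNReal.ofReal_natCast,
      ← ENNReal.ofReal_mul (by positivity), ← ENNReal.ofReal_add hr.le (by positivity)]
    exact ENNReal.ofReal_le_ofReal (le_of_eq (by ring))
  refine (lintegral_mono pt).trans ?_
  rw [lintegral_add_left measurable_const,
    lintegral_tsum fun n => (measurable_const.indicator (mS n)).aemeasurable]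
  simp only [lintegral_const, measure_univ, mul_one, lintegral_indicator_const (mS _)]
  have hb : ∀ n, ENNReal.ofReal (2 * r) * P (S n) ≤ ENNReal.ofReal (r * (1 / 2) ^ n) := fun n => by
    rw [← ofReal_measureReal (measure_ne_top P _), ← ENNReal.ofReal_mul (by positivity)]
    refine ENNReal.ofReal_le_ofReal ?_
    have := mul_le_mul_of_nonneg_left (h.borell hη hr h34 n) (by positivity : 0 ≤ 2 * r)
    rw [pow_succ] at this
    linarith
  refine (add_le_add_right (ENNReal.tsum_le_tsum hb) _).trans ?_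
  rw [← ENNReal.ofReal_tsum_of_nonneg (fun n => by positivity)
    (summable_geometric_two.mul_left r), tsum_mul_left, tsum_geometric_two,
    ← ENNReal.ofReal_add hr.le (by positivity)]
  exact ENNReal.ofReal_le_ofReal (le_of_eq (by ring))

end Pool.Agent.MP_0502fb_pr.H57
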