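import Mathlib
import Pool.Agent.MP_0502fb_pr.H57.GS

/-!
Supergradients of concave functions, and the entropic cost of staying positive and low.
-/

namespace Pool.Agent.MP_0502fb_pr.H57

open MeasureTheory ProbabilityTheory Set Filter Topology
open scoped ENNReal NNReal RealInnerProductSpace

variable {ι : Type*} [Fintype ι]

lemma exists_super {G : (ι → ℝ) → ℝ} (hG : ConcaveOn ℝ univ G) :
    ∃ σ : ι → ℝ, ∀ k, G k ≤ G 0 + ∑ i, σ i * k i := by
  classical
  have hc : Continuous G := continuousOn_univ.1 (hG.continuousOn isOpen_univ)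
  have hU : Convex ℝ {p : (ι → ℝ) × ℝ | p.2 < G p.1} := by
    simpa using hG.convex_strict_hypograph
  obtain ⟨f, hf⟩ := geometric_hahn_banach_open_point hU (isOpen_lt continuous_snd (by fun_prop))
    (x := (0, G 0)) (by simp)
  set c := f (0, 1) with hc'
  have e : ∀ (k : ι → ℝ) (t : ℝ), f (k, t) = ∑ i, f (Pi.single i 1, 0) * k i + c * t := by
    intro k t
    have : (k, t) = ∑ i, k i • ((Pi.single i 1 : ι → ℝ), (0 : ℝ)) + t • ((0 : ι → ℝ), (1 : ℝ)) := by
      ext j <;> simp [Prod.fst_sum, Prod.snd_sum, Pi.single_apply]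
    rw [this, map_add, map_sum]
    simp only [map_smul, smul_eq_mul, mul_comm, hc']
  have hc0 : 0 < c := by
    have := hf (0, G 0 - 1) (by simp)
    rw [e, e] at this; linarith
  refine ⟨fun i => -f (Pi.single i 1, 0) / c, fun k => le_of_forall_lt_imp_le_of_dense
    fun t ht => ?_⟩
  have := hf (k, t) ht
  rw [e, e] at this
  simp only [Pi.zero_apply, mul_zero, Finset.sum_const_zero, zero_add] at this
  have e2 : ∑ i, -f (Pi.single i 1, 0) / c * k i = -(∑ i, f (Pi.single i 1, 0) * k i) / c := by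
    rw [← Finset.sum_neg_distrib, Finset.sum_div]
    exact Finset.sum_congr rfl fun i _ => by ring
  rw [e2, ← sub_le_iff_le_add', le_div_iff₀ hc0]
  linarith

lemma ent_one {c : ℝ≥0} (hc : c ≠ 0) {M : ℝ} (hM : 0 ≤ M) : ∃ l : ℝ, 0 < l ∧ ∀ g : ℝ,
    Real.exp (l * M) * ∫ x, (if 0 ≤ g + x then Real.exp (-(l * (g + x))) else 0)
      ∂gaussianReal 0 c ≤ Real.exp (-l) := by
  set u : ℝ := M + c / 2 + 1 with hu
  set q := (gaussianReal 0 c).real (Iio (-u)) with hq
  have hq0 : 0 < q := by
    rw [hq, measureReal_def, ENNReal.toReal_pos_iff]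
    refine ⟨pos_iff_ne_zero.2 fun h => ?_, measure_lt_top _ _⟩
    simpa using gaussianReal_absolutelyContinuous' 0 hc h
  set l := min 1 (q / (2 * (M + 1))) with hl
  have hl0 : 0 < l := lt_min one_pos (by positivity)
  have hl1 : l ≤ 1 := min_le_left _ _
  have hl2 : l * (2 * (M + 1)) ≤ q := (le_div_iff₀ (by positivity)).1 (min_le_right _ _)
  refine ⟨l, hl0, fun g => ?_⟩
  have nn : 0 ≤ᵐ[gaussianReal 0 c] fun x => if 0 ≤ g + x then Real.exp (-(l * (g + x))) else 0 :=
    ae_of_all _ fun x => by simp only [Pi.zero_apply]; split_ifs <;> positivity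
  rcases le_or_gt g u with h | h
  · have : ∫ x, (if 0 ≤ g + x then Real.exp (-(l * (g + x))) else 0) ∂gaussianReal 0 c ≤ 1 - q := by
      rw [hq, ← probReal_compl_eq_one_sub measurableSet_Iio,
        ← integral_indicator_one measurableSet_Iio.compl]
      refine integral_mono_of_nonneg nn ((integrable_const 1).indicator measurableSet_Iio.compl)
        (ae_of_all _ fun x => ?_)
      simp only
      split_ifs with h1
      · rw [indicator_of_mem (by simp; linarith)]
        simp only [Pi.one_apply, Real.exp_le_one_iff, neg_nonpos]; positivity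
      · exact indicator_nonneg (by simp) _
    calc _ ≤ Real.exp (l * M) * Real.exp (-q) := by
          gcongr; linarith [Real.add_one_le_exp (-q)]
      _ ≤ _ := by rw [← Real.exp_add]; gcongr; nlinarith
  · have : ∫ x, (if 0 ≤ g + x then Real.exp (-(l * (g + x))) else 0) ∂gaussianReal 0 c ≤
        Real.exp (-(l * u)) * Real.exp (c * l ^ 2 / 2) := by
      have h1 := congrFun (mgf_fun_id_gaussianReal (μ := 0) (v := c)) (-l)
      simp only [mgf, zero_mul, zero_add, even_two, Even.neg_pow] at h1
      rw [← h1, ← integral_const_mul]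
      refine integral_mono_of_nonneg nn ((integrable_exp_mul_gaussianReal _).const_mul _)
        (ae_of_all _ fun x => ?_)
      simp only
      split_ifs with h1
      · rw [← Real.exp_add]; gcongr; nlinarith
      · positivity
    calc _ ≤ Real.exp (l * M) * (Real.exp (-(l * u)) * Real.exp (c * l ^ 2 / 2)) := by gcongr
      _ ≤ _ := by
        rw [← Real.exp_add, ← Real.exp_add, hu]; gcongr
        nlinarith [mul_nonneg (mul_nonneg c.coe_nonneg hl0.le) (by linarith : 0 ≤ 1 - l)]

variable {Ω : Type*} [MeasurableSpace Ω] {P : Measure Ω} {V : Submodule ℝ (Ω → ℝ)}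

lemma ent {c M : ℝ} (hc : 0 < c) (hM : 0 ≤ M) : ∃ l : ℝ, 0 < l ∧
    ∀ {ι : Type} [Fintype ι] {ξ : ι → Ω → ℝ}, GS P V → (∀ i, ξ i ∈ V) →
      (∀ a : ι → ℝ, c * ∑ i, a i ^ 2 ≤ ∑ i, ∑ j, a i * a j * cov P (ξ i) (ξ j)) →
      P.real {ω | (∀ i, 0 ≤ ξ i ω) ∧ ∑ i, ξ i ω ≤ M * Fintype.card ι} ≤
        Real.exp (-(l * Fintype.card ι)) := by
  classical
  lift c to ℝ≥0 using hc.le
  obtain ⟨l, hl, H⟩ := ent_one (c := c) (by exact_mod_cast hc.ne') hM
  refine ⟨l, hl, fun {ι} _ {ξ} h hξ hp => ?_⟩
  have := h.prob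
  have hsq : ∀ a : ι → ℝ, ∑ i, ∑ j, a i * a j * (cov P (ξ i) (ξ j) - if i = j then (c : ℝ) else 0) =
      ∑ i, ∑ j, a i * a j * cov P (ξ i) (ξ j) - c * ∑ i, a i ^ 2 := fun a => by
    simp only [mul_sub, Finset.sum_sub_distrib, mul_ite, mul_zero, Finset.sum_ite_eq,
      Finset.mem_univ, if_true, Finset.mul_sum]
    exact congrArg _ (Finset.sum_congr rfl fun i _ => by ring)
  obtain ⟨e, he⟩ := gram_exists (fun i j => cov P (ξ i) (ξ j) - if i = j then (c : ℝ) else 0)
    (fun i j => by simp only [cov_comm (ξ i), eq_comm]) fun a => by rw [hsq]; linarith [hp a]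
  set ν : Measure (ι → ℝ) := Measure.pi fun _ => gaussianReal 0 c
  have hm : Measurable fun ω i => ξ i ω := measurable_pi_lambda _ fun i => h.meas _ (hξ i)
  have hm' : Measurable fun (p : EuclideanSpace ℝ ι × (ι → ℝ)) i => ⟪e i, p.1⟫ + p.2 i := by
    fun_prop
  have key : (P.map fun ω i => ξ i ω) = ((gam _ 1).prod ν).map fun p i => ⟪e i, p.1⟫ + p.2 i := by
    refine ext_lin fun a => ?_
    rw [h.char_vec hξ, integral_map hm'.aemeasurable
      (Measurable.aestronglyMeasurable (by fun_prop))]
    have e1 : ∀ p : EuclideanSpace ℝ ι × (ι → ℝ),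
        Complex.exp ((∑ i, a i * (⟪e i, p.1⟫ + p.2 i) : ℝ) * Complex.I) =
        Complex.exp ((∑ i, a i * ⟪e i, p.1⟫ : ℝ) * Complex.I) *
          ∏ i, Complex.exp (a i * p.2 i * Complex.I) := fun p => by
      rw [← Complex.exp_sum, ← Complex.exp_add, ← Finset.sum_mul, ← add_mul]
      simp only [mul_add, Finset.sum_add_distrib]; push_cast; rfl
    simp only [e1]
    rw [integral_prod_mul (f := fun z => Complex.exp ((∑ i, a i * ⟪e i, z⟫ : ℝ) * Complex.I))
      (g := fun x : ι → ℝ => ∏ i, Complex.exp (a i * x i * Complex.I)), char_gram,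
      integral_fintype_prod_eq_prod (f := fun i (x : ℝ) => Complex.exp (a i * x * Complex.I))]
    simp only [← charFun_apply_real, charFun_gaussianReal, he, hsq]
    rw [← Complex.exp_sum, ← Complex.exp_add]
    congr 1
    simp only [Complex.ofReal_zero, mul_zero, zero_mul, zero_sub, Finset.sum_neg_distrib,
      ← Finset.sum_div, ← Finset.mul_sum]
    push_cast; ring
  set ψ : ℝ → ℝ := fun y => if 0 ≤ y then Real.exp (-(l * y)) else 0 with hψ
  have ψm : Measurable ψ := Measurable.ite measurableSet_Ici (by fun_prop) measurable_const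
  have ψ0 : ∀ y, 0 ≤ ψ y := fun y => by simp only [hψ]; split_ifs <;> positivity
  have ψ1 : ∀ y, ψ y ≤ 1 := fun y => by
    simp only [hψ]; split_ifs
    · simp only [Real.exp_le_one_iff, neg_nonpos]; positivity
    · exact zero_le_one
  set F : (ι → ℝ) → ℝ := fun y => ∏ i, Real.exp (l * M) * ψ (y i) with hF
  have Fm : Measurable F := by fun_prop
  have F0 : ∀ y, 0 ≤ F y := fun y => Finset.prod_nonneg fun i _ => mul_nonneg (by positivity) (ψ0 _)
  have Fi : ∀ (μ : Measure (ι → ℝ)) [IsFiniteMeasure μ], Integrable F μ := fun μ _ =>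
    Integrable.of_bound Fm.aestronglyMeasurable (∏ _i : ι, Real.exp (l * M)) (ae_of_all _ fun y => by
      rw [Real.norm_of_nonneg (F0 y)]
      exact Finset.prod_le_prod (fun i _ => mul_nonneg (by positivity) (ψ0 _))
        fun i _ => mul_le_of_le_one_right (by positivity) (ψ1 _))
  set S : Set (ι → ℝ) := {y | (∀ i, 0 ≤ y i) ∧ ∑ i, y i ≤ M * Fintype.card ι} with hS
  have Sm : MeasurableSet S := by simp only [hS]; measurability
  calc _ = (P.map fun ω i => ξ i ω).real S := by rw [map_measureReal_apply hm Sm]; rfl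
    _ ≤ ∫ y, F y ∂(P.map fun ω i => ξ i ω) := by
        rw [← integral_indicator_one Sm]
        refine integral_mono ((integrable_const 1).indicator Sm) (Fi _) fun y => ?_
        by_cases hy : y ∈ S
        · rw [indicator_of_mem hy]
          simp only [hF, hψ, if_pos (hy.1 _), ← Real.exp_add, ← Real.exp_sum, Pi.one_apply,
            Real.one_le_exp_iff, Finset.sum_add_distrib, Finset.sum_const, Finset.card_univ,
            nsmul_eq_mul, Finset.sum_neg_distrib, ← Finset.mul_sum]
          nlinarith [hy.2]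
        · rw [indicator_of_notMem hy]; exact F0 y
    _ ≤ ∫ _z, Real.exp (-(l * Fintype.card ι)) ∂gam (EuclideanSpace ℝ ι) 1 := by
        have hi0 := Fi (P.map fun ω i => ξ i ω)
        rw [key, integrable_map_measure Fm.aestronglyMeasurable hm'.aemeasurable] at hi0
        have hi : Integrable (fun p : EuclideanSpace ℝ ι × (ι → ℝ) =>
          F fun i => ⟪e i, p.1⟫ + p.2 i) ((gam _ 1).prod ν) := hi0
        rw [key, integral_map hm'.aemeasurable Fm.aestronglyMeasurable, integral_prod _ hi]
        refine integral_mono hi.integral_prod_left (integrable_const _) fun z => ?_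
        simp only [hF]
        rw [integral_fintype_prod_eq_prod (f := fun i (x : ℝ) =>
          Real.exp (l * M) * ψ (⟪e i, z⟫ + x))]
        refine (Finset.prod_le_prod (g := fun _ => Real.exp (-l)) (fun i _ => integral_nonneg
          fun x => mul_nonneg (by positivity) (ψ0 _)) fun i _ => ?_).trans (le_of_eq ?_)
        · rw [integral_const_mul]; exact H _
        · rw [Finset.prod_const, Finset.card_univ, ← Real.exp_nat_mul]; congr 1; ring
    _ = _ := by simp

end Pool.Agent.MP_0502fb_pr.H57
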