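import Mathlib

/-!
Averages of a regular kernel over lattice points of a cube.
-/

namespace Pool.Agent.MP_0502fb_pr.H57

open Set Filter Topology

variable {d : ℕ}

/-- kernels that are eventually positive, almost decreasing, and decay slower than a power -/
structure Reg (K : (Fin d → ℝ) → ℝ) (α c R : ℝ) : Prop where
  a0 : 0 < α
  ad : α < d
  c0 : 0 < c
  R0 : 0 < R
  pos : ∀ x, R ≤ ‖x‖ → 0 < K x
  reg : ∀ x y, R ≤ ‖x‖ → R ≤ ‖y‖ → c * min 1 ((‖x‖ / ‖y‖) ^ α) * K x ≤ K y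
  bd : ∀ x, |K x| ≤ K 0

/-- lattice points -/
def pt (L : ℝ) (N : ℕ) (j : Fin d → Fin (2 * N + 1)) : Fin d → ℝ :=
  fun i => L * (((j i : ℕ) : ℝ) - N)

lemma norm_pt {L : ℝ} (hL : 0 < L) (N : ℕ) (j : Fin d → Fin (2 * N + 1)) : ‖pt L N j‖ ≤ L * N := by
  refine (pi_norm_le_iff_of_nonneg (by positivity)).2 fun i => ?_
  have h1 : (((j i : ℕ) : ℝ)) ≤ 2 * N := by exact_mod_cast Nat.lt_succ_iff.1 (j i).2
  have h2 : (0 : ℝ) ≤ (j i : ℕ) := by positivity
  rw [pt, Real.norm_eq_abs, abs_mul, abs_of_pos hL]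
  gcongr
  rw [abs_le]; constructor <;> linarith

lemma near_pt {L : ℝ} (hL : 0 < L) (N : ℕ) {x : Fin d → ℝ} (hx : ‖x‖ ≤ L * (N + 1)) :
    ∃ j, ‖x - pt L N j‖ ≤ L := by
  have : ∀ i, ∃ m : Fin (2 * N + 1), |x i - L * (((m : ℕ) : ℝ) - N)| ≤ L := by
    intro i
    have h1 : |x i| ≤ L * (N + 1) := (norm_le_pi_norm x i).trans hx
    rw [abs_le] at h1
    rcases le_or_gt (x i) (-(L * N)) with h | h
    · exact ⟨0, by simp; rw [abs_le]; constructor <;> nlinarith⟩
    rcases le_or_gt (L * N) (x i) with h' | h'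
    · exact ⟨Fin.last _, by simp; rw [abs_le]; constructor <;> nlinarith⟩
    have h0 : 0 ≤ x i / L + N := by
      have : -(N : ℝ) ≤ x i / L := by rw [le_div_iff₀ hL]; linarith
      linarith
    have h2 : x i / L < N := by rw [div_lt_iff₀ hL]; linarith
    have h3 := Nat.floor_le h0
    have h4 := Nat.lt_floor_add_one (x i / L + N)
    refine ⟨⟨⌊x i / L + N⌋₊, (Nat.floor_lt h0).2 (by push_cast; linarith)⟩, ?_⟩
    have h5 : x i = L * (x i / L) := by field_simp
    simp only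
    rw [abs_le]; constructor <;> nlinarith
  choose j hj using this
  exact ⟨j, (pi_norm_le_iff_of_nonneg hL.le).2 hj⟩

lemma count_pt {L r : ℝ} (hL : 0 < L) (hr : 0 ≤ r) (N : ℕ) (x : Fin d → ℝ) :
    ((Finset.univ.filter fun j => ‖x - pt L N j‖ ≤ r).card : ℝ) ≤ (2 * r / L + 1) ^ d := by
  classical
  let S : Fin d → Finset (Fin (2 * N + 1)) := fun i =>
    Finset.univ.filter fun m => |x i - L * (((m : ℕ) : ℝ) - N)| ≤ r
  have h1 : (Finset.univ.filter fun j => ‖x - pt L N j‖ ≤ r) ⊆ Fintype.piFinset S := fun j hj =>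
    Fintype.mem_piFinset.2 fun i => Finset.mem_filter.2 ⟨Finset.mem_univ _,
      (norm_le_pi_norm (x - pt L N j) i).trans (Finset.mem_filter.1 hj).2⟩
  have h2 : ∀ i, ((S i).card : ℝ) ≤ 2 * r / L + 1 := by
    intro i
    set a := (x i - r) / L + N
    set b := (x i + r) / L + N
    have hab : b - a = 2 * r / L := by simp only [a, b]; ring
    have h3 : (S i).card ≤ (Finset.Icc ⌈a⌉ ⌊b⌋).card := by
      refine Finset.card_le_card_of_injOn (fun m => ((m : ℕ) : ℤ)) (fun m hm => ?_)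
        fun m _ m' _ h => Fin.ext (by simpa using h)
      have := abs_le.1 (Finset.mem_filter.1 hm).2
      simp only [Finset.coe_Icc, mem_Icc, Int.ceil_le, Int.le_floor, Int.cast_natCast, a, b]
      rw [← le_sub_iff_add_le, ← sub_le_iff_le_add, div_le_iff₀ hL, le_div_iff₀ hL]
      constructor <;> linarith [this.1, this.2]
    rw [Int.card_Icc] at h3
    have h4 : ((⌊b⌋ + 1 - ⌈a⌉).toNat : ℝ) ≤ 2 * r / L + 1 := by
      rcases le_or_gt 0 (⌊b⌋ + 1 - ⌈a⌉) with h | h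
      · rw [← Int.cast_natCast, Int.toNat_of_nonneg h]; push_cast
        linarith [Int.floor_le b, Int.le_ceil a]
      · rw [Int.toNat_of_nonpos h.le]; simp; positivity
    exact le_trans (by exact_mod_cast h3) h4
  calc _ ≤ ((Fintype.piFinset S).card : ℝ) := by exact_mod_cast Finset.card_le_card h1
    _ = ∏ i, ((S i).card : ℝ) := by simp
    _ ≤ ∏ _i : Fin d, (2 * r / L + 1) := Finset.prod_le_prod (fun _ _ => by positivity) fun i _ => h2 i
    _ = _ := by simp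

lemma sum_pt {α L R : ℝ} (h0 : 0 < α) (hd : α < d) (hL : 0 < L) (hR : 0 < R) :
    ∃ C : ℝ, 0 < C ∧ ∀ (ρ : ℝ) (N : ℕ) (x : Fin d → ℝ), 0 < ρ → (∀ j, ‖x - pt L N j‖ ≤ ρ) →
      ∑ j ∈ Finset.univ.filter fun j => R ≤ ‖x - pt L N j‖, (ρ / ‖x - pt L N j‖) ^ α ≤
        C * ρ ^ d := by
  classical
  set q : ℝ := 2 ^ α / 2 ^ d with hq
  have hq0 : 0 < q := by positivity
  have hq1 : q < 1 := by
    rw [hq, div_lt_one (by positivity), ← Real.rpow_natCast]
    exact Real.rpow_lt_rpow_of_exponent_lt one_lt_two hd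
  refine ⟨2 ^ α * (2 / L + 1 / R) ^ d * (1 - q)⁻¹, by have := sub_pos.2 hq1; positivity,
    fun ρ N x hρ hx => ?_⟩
  obtain ⟨M, hM⟩ := pow_unbounded_of_one_lt (ρ / R) (one_lt_two (α := ℝ))
  have pt1 : ∀ t : ℝ, R ≤ t → t ≤ ρ → (ρ / t) ^ α ≤ ∑ m ∈ Finset.range M,
      if t ≤ ρ / 2 ^ m ∧ R ≤ ρ / 2 ^ m then ((2 : ℝ) ^ α) ^ (m + 1) else 0 := by
    intro t h1 h2
    have ht : 0 < t := hR.trans_le h1
    obtain ⟨m, h3, h4⟩ := exists_nat_pow_near ((one_le_div ht).2 h2) (one_lt_two (α := ℝ))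
    have h5 : t ≤ ρ / 2 ^ m := by rw [le_div_iff₀ (by positivity)]; rwa [le_div_iff₀' ht] at h3
    have h6 : m < M := by
      refine (pow_lt_pow_iff_right₀ (one_lt_two (α := ℝ))).1 (h3.trans_lt (lt_of_le_of_lt ?_ hM))
      gcongr
    refine le_trans ?_ (Finset.single_le_sum (fun m _ => by split_ifs <;> positivity)
      (Finset.mem_range.2 h6))
    rw [if_pos ⟨h5, h1.trans h5⟩, ← Real.rpow_natCast, ← Real.rpow_mul zero_le_two, mul_comm,
      Real.rpow_mul zero_le_two, Real.rpow_natCast]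
    exact Real.rpow_le_rpow (by positivity) h4.le h0.le
  calc _ ≤ ∑ j, ∑ m ∈ Finset.range M, if ‖x - pt L N j‖ ≤ ρ / 2 ^ m ∧ R ≤ ρ / 2 ^ m then
          ((2 : ℝ) ^ α) ^ (m + 1) else 0 := by
        refine (Finset.sum_le_sum fun j hj => pt1 _ (Finset.mem_filter.1 hj).2 (hx j)).trans
          (Finset.sum_le_sum_of_subset_of_nonneg (Finset.subset_univ _) fun j _ _ =>
            Finset.sum_nonneg fun m _ => by split_ifs <;> positivity)
    _ ≤ ∑ m ∈ Finset.range M, 2 ^ α * (2 / L + 1 / R) ^ d * ρ ^ d * q ^ m := by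
        rw [Finset.sum_comm]
        refine Finset.sum_le_sum fun m _ => ?_
        by_cases h : R ≤ ρ / 2 ^ m
        · simp only [h, and_true]
          rw [← Finset.sum_filter, Finset.sum_const, nsmul_eq_mul]
          have h1 := count_pt hL (by positivity : 0 ≤ ρ / 2 ^ m) N x
          have h2 : 2 * (ρ / 2 ^ m) / L + 1 ≤ (2 / L + 1 / R) * (ρ / 2 ^ m) := by
            have : 1 ≤ 1 / R * (ρ / 2 ^ m) := by rw [one_div, ← div_eq_inv_mul, one_le_div hR]; exact h
            have e : 2 * (ρ / 2 ^ m) / L = 2 / L * (ρ / 2 ^ m) := by ring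
            rw [add_mul, e]; linarith
          calc _ ≤ ((2 / L + 1 / R) * (ρ / 2 ^ m)) ^ d * ((2 : ℝ) ^ α) ^ (m + 1) := by
                gcongr; exact h1.trans (by gcongr)
            _ = _ := by
                rw [hq, mul_pow, div_pow, div_pow, ← pow_mul, ← pow_mul, mul_comm m d, pow_succ]
                ring
        · simp only [h, and_false, if_false, Finset.sum_const_zero]; positivity
    _ ≤ _ := by
        have : ∑ m ∈ Finset.range M, q ^ m ≤ (1 - q)⁻¹ := by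
          rw [← tsum_geometric_of_lt_one hq0.le hq1]
          exact (summable_geometric_of_lt_one hq0.le hq1).sum_le_tsum _ fun _ _ => by positivity
        rw [← Finset.mul_sum, mul_right_comm _ (1 - q)⁻¹]
        exact mul_le_mul_of_nonneg_left this (by positivity)

variable {K : (Fin d → ℝ) → ℝ} {α c R : ℝ}

lemma Reg.norm_const (h : Reg K α c R) {t : ℝ} (ht : 0 ≤ t) : ‖(fun _ => t : Fin d → ℝ)‖ = t := by
  have : Nonempty (Fin d) := ⟨⟨0, by exact_mod_cast h.a0.trans h.ad⟩⟩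
  simp [pi_norm_const, abs_of_nonneg ht]

lemma Reg.c1 (h : Reg K α c R) : c ≤ 1 := by
  have h1 := (h.norm_const h.R0.le).ge
  have h2 := h.reg _ _ h1 h1
  rw [div_self (h.R0.trans_le h1).ne', Real.one_rpow, min_self, mul_one] at h2
  nlinarith [h.pos _ h1]

lemma tend_pow (h0 : α < d) : Tendsto (fun T : ℝ => T ^ d * T ^ (-α)) atTop atTop := by
  refine (tendsto_rpow_atTop (sub_pos.2 h0)).congr' ?_
  filter_upwards [eventually_gt_atTop 0] with T hT
  rw [sub_eq_add_neg, Real.rpow_add hT, Real.rpow_natCast]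

theorem Reg.lattice (h : Reg K α c R) {L : ℝ} (hL : 0 < L) :
    ∃ C c₁ : ℝ, 1 ≤ C ∧ 0 < c₁ ∧ ∀ᶠ T : ℝ in atTop, ∃ κ : ℝ, c₁ * T ^ (-α) ≤ κ ∧ κ ≤ K 0 ∧
      (∀ u, R ≤ ‖u‖ → ‖u‖ ≤ 2 * T → c * κ ≤ K u) ∧
      (T / L) ^ d ≤ Fintype.card (Fin d → Fin (2 * ⌊T / L⌋₊ + 1)) ∧
      ∀ x, ‖x‖ ≤ T →
        c * κ / 2 * Fintype.card (Fin d → Fin (2 * ⌊T / L⌋₊ + 1)) ≤ ∑ j, K (x - pt L ⌊T / L⌋₊ j) ∧
        ∑ j, K (x - pt L ⌊T / L⌋₊ j) ≤ C * κ * Fintype.card (Fin d → Fin (2 * ⌊T / L⌋₊ + 1)) := by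
  classical
  obtain ⟨C, hC, HC⟩ := sum_pt h.a0 h.ad hL h.R0
  have hc := h.c0
  have hR := h.R0
  have hK0 : 0 ≤ K 0 := (abs_nonneg _).trans (h.bd 0)
  have hyR := h.pos _ (h.norm_const hR.le).ge
  set c₁ := c * (R / 2) ^ α * K fun _ => R with hc₁
  have hc₁0 : 0 < c₁ := by positivity
  set NR := (2 * R / L + 1) ^ d with hNR
  refine ⟨1 + c⁻¹ * C * (2 * L) ^ d, c₁, le_add_of_nonneg_right (by positivity), hc₁0, ?_⟩
  filter_upwards [eventually_ge_atTop R, (tend_pow h.ad).eventually_ge_atTop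
    (4 * NR * K 0 * L ^ d / (c * c₁))] with T hT hbig
  have hT0 : 0 < T := hR.trans_le hT
  have hn2 := h.norm_const (t := 2 * T) (by positivity)
  set κ := K fun _ => 2 * T with hκ
  set N := ⌊T / L⌋₊
  set n : ℝ := ((Fintype.card (Fin d → Fin (2 * N + 1)) : ℕ) : ℝ) with hn
  have k1 : c₁ * T ^ (-α) ≤ κ := by
    have := h.reg _ _ (h.norm_const hR.le).ge (hn2.ge.trans' (by linarith))
    rw [hn2, h.norm_const hR.le, min_eq_right (Real.rpow_le_one (by positivity)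
      ((div_le_one (by positivity)).2 (by linarith)) h.a0.le)] at this
    refine le_trans (le_of_eq ?_) this
    rw [hc₁, ← div_div, Real.div_rpow (by positivity) hT0.le, Real.rpow_neg hT0.le]; ring
  have hκ0 : 0 < κ := lt_of_lt_of_le (by positivity) k1
  have k2 : κ ≤ K 0 := (le_abs_self _).trans (h.bd _)
  have k3 : ∀ u, R ≤ ‖u‖ → ‖u‖ ≤ 2 * T → c * κ ≤ K u := fun u h1 h2 => by
    have := h.reg _ u (hn2.ge.trans' (by linarith)) h1
    rwa [hn2, min_eq_left (Real.one_le_rpow ((one_le_div (hR.trans_le h1)).2 h2) h.a0.le),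
      mul_one] at this
  have k4 : ∀ u, R ≤ ‖u‖ → ‖u‖ ≤ 2 * T → K u ≤ c⁻¹ * κ * (2 * T / ‖u‖) ^ α := fun u h1 h2 => by
    have hu := hR.trans_le h1
    have := h.reg u _ h1 (hn2.ge.trans' (by linarith))
    rw [hn2, min_eq_right (Real.rpow_le_one (by positivity)
      ((div_le_one (by positivity)).2 h2) h.a0.le)] at this
    rw [← inv_div, Real.inv_rpow (by positivity), ← div_eq_mul_inv, le_div_iff₀ (by positivity),
      ← div_eq_inv_mul, le_div_iff₀ hc]
    linarith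
  have k5 : (T / L) ^ d ≤ n := by
    simp only [hn, Fintype.card_pi, Fintype.card_fin, Finset.prod_const, Finset.card_univ]
    push_cast
    gcongr
    linarith [Nat.lt_floor_add_one (T / L), (Nat.cast_nonneg N : (0 : ℝ) ≤ N)]
  have k6 : 4 * NR * K 0 ≤ c * κ * n := by
    rw [div_le_iff₀ (by positivity)] at hbig
    calc _ ≤ c * (c₁ * T ^ (-α)) * (T / L) ^ d := by
          rw [div_pow, ← mul_div_assoc, le_div_iff₀ (by positivity)]; linarith
      _ ≤ _ := by gcongr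
  refine ⟨κ, k1, k2, k3, k5, fun x hx => ?_⟩
  have hx2 : ∀ j, ‖x - pt L N j‖ ≤ 2 * T := fun j => by
    have h1 := norm_pt hL N j
    have h2 : L * N ≤ T := by rw [← le_div_iff₀' hL]; exact Nat.floor_le (by positivity)
    linarith [norm_sub_le x (pt L N j)]
  have hcnt := count_pt hL hR.le N x
  have hc1 := h.c1
  have ind : ∀ b : ℝ, ∑ j, (if ‖x - pt L N j‖ ≤ R then b else 0) =
      (Finset.univ.filter fun j => ‖x - pt L N j‖ ≤ R).card * b := fun b => by
    rw [← Finset.sum_filter, Finset.sum_const, nsmul_eq_mul]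
  constructor
  · have : ∑ j, (c * κ - if ‖x - pt L N j‖ ≤ R then 2 * K 0 else 0) ≤ ∑ j, K (x - pt L N j) := by
      refine Finset.sum_le_sum fun j _ => ?_
      split_ifs with h1
      · nlinarith [(abs_le.1 (h.bd (x - pt L N j))).1]
      · simpa using k3 _ (not_le.1 h1).le (hx2 j)
    rw [Finset.sum_sub_distrib, ind, Finset.sum_const, Finset.card_univ, nsmul_eq_mul] at this
    nlinarith [mul_le_mul_of_nonneg_right hcnt hK0]
  · have : ∑ j, K (x - pt L N j) ≤ ∑ j, ((if ‖x - pt L N j‖ ≤ R then K 0 else 0) +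
        c⁻¹ * κ * if R ≤ ‖x - pt L N j‖ then (2 * T / ‖x - pt L N j‖) ^ α else 0) := by
      refine Finset.sum_le_sum fun j _ => ?_
      by_cases h1 : ‖x - pt L N j‖ ≤ R
      · rw [if_pos h1]
        exact ((le_abs_self _).trans (h.bd _)).trans
          (le_add_of_nonneg_right (by split_ifs <;> positivity))
      · rw [if_neg h1, if_pos (not_le.1 h1).le, zero_add]
        exact k4 _ (not_le.1 h1).le (hx2 j)
    rw [Finset.sum_add_distrib, ind, ← Finset.mul_sum, ← Finset.sum_filter] at this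
    have h2 := HC (2 * T) N x (by positivity) hx2
    have h3 : (2 * T) ^ d ≤ (2 * L) ^ d * n := by
      calc (2 * T) ^ d = (2 * L) ^ d * (T / L) ^ d := by rw [← mul_pow]; congr 1; field_simp
        _ ≤ _ := by gcongr
    have h4 : c⁻¹ * κ * (C * (2 * T) ^ d) ≤ c⁻¹ * κ * (C * ((2 * L) ^ d * n)) := by gcongr
    have h5 := mul_le_mul_of_nonneg_left h2 (by positivity : 0 ≤ c⁻¹ * κ)
    have h6 : c * κ * n ≤ κ * n := by
      rw [mul_assoc]; exact mul_le_of_le_one_left (by positivity) hc1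
    have h7 : 0 ≤ NR * K 0 := by positivity
    nlinarith [mul_le_mul_of_nonneg_right hcnt hK0]

end Pool.Agent.MP_0502fb_pr.H57
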