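import Mathlib
import Pool.Agent.MP_0502fb_pr.H57.Lat

/-!
Covariance kernels whose spectral measure has a lower semicontinuous density.
-/

namespace Pool.Agent.MP_0502fb_pr.H57

open MeasureTheory Set Filter Topology
open scoped ENNReal NNReal

variable {d : ℕ}

lemma cs_int {X : Type*} [MeasurableSpace X] {μ : Measure X} {F G : X → ℝ} (hF : MemLp F 2 μ)
    (hG : MemLp G 2 μ) : (∫ x, F x * G x ∂μ) ^ 2 ≤ (∫ x, F x * F x ∂μ) * ∫ x, G x * G x ∂μ := by
  have h1 : Integrable (fun x => F x * F x) μ := hF.integrable_mul hF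
  have h2 : Integrable (fun x => F x * G x) μ := hF.integrable_mul hG
  have h3 : Integrable (fun x => G x * G x) μ := hG.integrable_mul hG
  have := discrim_le_zero (a := ∫ x, F x * F x ∂μ) (b := 2 * ∫ x, F x * G x ∂μ)
    (c := ∫ x, G x * G x ∂μ) fun t => by
      have : 0 ≤ ∫ x, (t * t * (F x * F x) + 2 * t * (F x * G x) + G x * G x) ∂μ :=
        integral_nonneg fun x => by simp only [Pi.zero_apply]; nlinarith [sq_nonneg (t * F x + G x)]
      rw [integral_add (by exact (h1.const_mul _).add (h2.const_mul _)) h3,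
        integral_add (h1.const_mul _) (h2.const_mul _), integral_const_mul,
        integral_const_mul] at this
      linarith
  rw [discrim] at this
  linarith

/-- plane waves -/
noncomputable def ex (l x : Fin d → ℝ) : ℂ := Complex.exp (Complex.I * (∑ i, l i * x i : ℝ))

/-- Fourier transform of a measure -/
noncomputable def ch (μ : Measure (Fin d → ℝ)) (x : Fin d → ℝ) : ℂ := ∫ l, ex l x ∂μ

lemma norm_ex (l x : Fin d → ℝ) : ‖ex l x‖ = 1 := by
  rw [ex, mul_comm, Complex.norm_exp_ofReal_mul_I]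

lemma ex_add (l l' x : Fin d → ℝ) : ex (l + l') x = ex l x * ex l' x := by
  simp [ex, ← Complex.exp_add, add_mul, mul_add, Finset.sum_add_distrib]

lemma ex_sub (l x y : Fin d → ℝ) : ex l (x - y) = ex l x * (starRingEnd ℂ) (ex l y) := by
  simp [ex, ← Complex.exp_conj, ← Complex.exp_add, sub_eq_add_neg, mul_add,
    Finset.sum_add_distrib]

lemma cont_ex (x : Fin d → ℝ) : Continuous fun l => ex l x := by unfold ex; fun_prop

variable {μ ν : Measure (Fin d → ℝ)}

lemma int_ex [IsFiniteMeasure μ] (x : Fin d → ℝ) : Integrable (fun l => ex l x) μ :=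
  Integrable.of_bound (cont_ex x).aestronglyMeasurable 1 (.of_forall fun l => (norm_ex l x).le)

lemma norm_ch [IsFiniteMeasure μ] (x : Fin d → ℝ) : ‖ch μ x‖ ≤ μ.real univ := by
  simpa [ch] using norm_integral_le_of_norm_le_const (μ := μ)
    (.of_forall fun l => (norm_ex l x).le)

lemma ch_zero : ch μ 0 = μ.real univ := by simp [ch, ex]

lemma cont_ch [IsFiniteMeasure μ] : Continuous (ch μ) :=
  continuous_of_dominated (bound := fun _ => 1) (fun x => (cont_ex x).aestronglyMeasurable)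
    (fun x => .of_forall fun l => (norm_ex l x).le) (integrable_const _)
    (.of_forall fun l => by unfold ex; fun_prop)

lemma ch_conv [IsFiniteMeasure μ] [IsFiniteMeasure ν] (x : Fin d → ℝ) :
    ch (μ ∗ ν) x = ch μ x * ch ν x := by
  rw [ch, integral_conv (int_ex x)]
  simp only [ex_add, integral_const_mul, integral_mul_const, ch]

lemma ch_pi (m : Fin d → Measure ℝ) [∀ i, SigmaFinite (m i)] (x : Fin d → ℝ) :
    ch (Measure.pi m) x = ∏ i, ∫ t, Complex.exp (Complex.I * x i * t) ∂m i := by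
  rw [← integral_fintype_prod_eq_prod fun i (t : ℝ) => Complex.exp (Complex.I * x i * t), ch]
  refine integral_congr_ae (.of_forall fun l => ?_)
  simp only [ex, ← Complex.exp_sum]
  push_cast
  rw [Finset.mul_sum]
  exact congrArg _ (Finset.sum_congr rfl fun i _ => by ring)

variable {ι : Type*} [Fintype ι]

lemma memLp_wave [IsFiniteMeasure μ] (x : ι → Fin d → ℝ) (a : ι → ℝ) :
    MemLp (fun l => ‖∑ i, (a i : ℂ) * ex l (x i)‖) 2 μ := by
  refine MemLp.of_bound (Continuous.aestronglyMeasurable (by have := @cont_ex d; fun_prop))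
    (∑ i, |a i|) (.of_forall fun l => ?_)
  rw [norm_norm]
  exact (norm_sum_le _ _).trans (by simp [norm_ex])

lemma quad [IsFiniteMeasure μ] (x : ι → Fin d → ℝ) (a : ι → ℝ) :
    ∑ i, ∑ j, a i * a j * (ch μ (x i - x j)).re =
      ∫ l, ‖∑ i, (a i : ℂ) * ex l (x i)‖ * ‖∑ i, (a i : ℂ) * ex l (x i)‖ ∂μ := by
  have h1 : ∀ i j, Integrable (fun l => a i * a j * (ex l (x i - x j)).re) μ := fun i j =>
    (int_ex _).re.const_mul _
  have h2 : ∀ i j, a i * a j * (ch μ (x i - x j)).re =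
      ∫ l, a i * a j * (ex l (x i - x j)).re ∂μ := fun i j => by
    rw [integral_const_mul, ch]; exact congrArg _ (integral_re (int_ex _)).symm
  simp only [h2]
  rw [← Finset.sum_congr rfl fun i _ => integral_finsetSum _ fun j _ => h1 i j,
    ← integral_finsetSum _ fun i _ => integrable_finsetSum _ fun j _ => h1 i j]
  refine integral_congr_ae (.of_forall fun l => ?_)
  simp only [← sq]
  rw [← Complex.normSq_eq_norm_sq, ← Complex.ofReal_re (Complex.normSq _), ← Complex.mul_conj,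
    map_sum, Finset.sum_mul_sum, Complex.re_sum]
  refine Finset.sum_congr rfl fun i _ => ?_
  rw [Complex.re_sum]
  refine Finset.sum_congr rfl fun j _ => ?_
  rw [ex_sub, ← Complex.re_ofReal_mul, map_mul, Complex.conj_ofReal]
  push_cast
  exact congrArg _ (by ring)

lemma quad_mono [IsFiniteMeasure μ] [IsFiniteMeasure ν] (h : ν ≤ μ) (x : ι → Fin d → ℝ)
    (a : ι → ℝ) :
    ∑ i, ∑ j, a i * a j * (ch ν (x i - x j)).re ≤ ∑ i, ∑ j, a i * a j * (ch μ (x i - x j)).re := by
  rw [quad, quad]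
  exact integral_mono_measure h (.of_forall fun l => by positivity)
    ((memLp_wave x a).integrable_mul (memLp_wave x a))

lemma quad_cs [IsFiniteMeasure μ] (x : ι → Fin d → ℝ) (a : ι → ℝ) (y : Fin d → ℝ) :
    (∑ i, a i * (ch μ (x i - y)).re) ^ 2 ≤
      μ.real univ * ∑ i, ∑ j, a i * a j * (ch μ (x i - x j)).re := by
  have h1 := cs_int (memLp_wave (μ := μ) x a) (memLp_const 1)
  simp only [mul_one, integral_const, smul_eq_mul] at h1
  rw [quad, mul_comm]
  refine le_trans (sq_le_sq' (abs_le.1 ?_).1 (abs_le.1 ?_).2) h1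
  all_goals
    have e : ∑ i, a i * (ch μ (x i - y)).re =
        (∫ l, (∑ i, (a i : ℂ) * ex l (x i)) * (starRingEnd ℂ) (ex l y) ∂μ).re := by
      simp only [Finset.sum_mul, mul_assoc, ← ex_sub]
      rw [integral_finsetSum _ fun i _ => (int_ex _).const_mul _, Complex.re_sum]
      simp only [integral_const_mul, Complex.re_ofReal_mul, ch]
    rw [e]
    refine (Complex.abs_re_le_norm _).trans ((norm_integral_le_integral_norm _).trans_eq ?_)
    simp [norm_ex]

lemma wave1 (a y : ℝ) {δ : ℝ} (hδ : 0 ≤ δ) (hy : y ≠ 0) :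
    ∫ t in Icc (a - δ) (a + δ), Complex.exp (Complex.I * y * t) =
      Complex.exp (Complex.I * y * (a - δ : ℝ)) * (Complex.exp (Complex.I * y * (2 * δ)) - 1) /
        (Complex.I * y) := by
  rw [integral_Icc_eq_integral_Ioc, ← intervalIntegral.integral_of_le (by linarith),
    integral_exp_mul_complex (by simpa using hy), mul_sub, ← Complex.exp_add, mul_one]
  congr 3
  push_cast; ring

lemma riesz_cube (l₀ : Fin d → ℝ) {δ : ℝ} (hδ : 0 < δ) (N : ℕ)
    (j k : Fin d → Fin (2 * N + 1)) :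
    ch (volume.restrict (Metric.closedBall l₀ δ)) (pt (Real.pi / δ) N j - pt (Real.pi / δ) N k) =
      if j = k then (((2 * δ) ^ d : ℝ) : ℂ) else 0 := by
  split_ifs with h
  · rw [h, sub_self, ch_zero]
    simp [Measure.real, Real.volume_pi_closedBall _ hδ.le, hδ.le]
  · obtain ⟨i, hi⟩ := Function.ne_iff.1 h
    rw [closedBall_pi _ hδ.le, volume_pi, Measure.restrict_pi_pi, ch_pi]
    refine Finset.prod_eq_zero (Finset.mem_univ i) ?_
    have e : (pt (Real.pi / δ) N j - pt (Real.pi / δ) N k) i =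
        Real.pi / δ * (((j i : ℕ) : ℝ) - (k i : ℕ)) := by simp only [pt, Pi.sub_apply]; ring
    have hne : ((j i : ℕ) : ℝ) - (k i : ℕ) ≠ 0 := fun h0 =>
      hi (Fin.ext (by exact_mod_cast sub_eq_zero.1 h0))
    rw [Real.closedBall_eq_Icc, e, wave1 _ _ hδ.le (by have := Real.pi_pos; positivity)]
    have : Complex.exp (Complex.I * (Real.pi / δ * (((j i : ℕ) : ℝ) - (k i : ℕ)) : ℝ) * (2 * δ)) =
        1 := by
      rw [← Complex.exp_int_mul_two_pi_mul_I (((j i : ℕ) : ℤ) - (k i : ℕ))]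
      congr 1
      have : (δ : ℂ) ≠ 0 := by exact_mod_cast hδ.ne'
      push_cast; field_simp
    rw [this]; simp

/-- uniform distribution on a segment -/
noncomputable def un (δ : ℝ) : Measure ℝ :=
  (ENNReal.ofReal (2 * δ))⁻¹ • volume.restrict (Icc (0 - δ) (0 + δ))

lemma prob_un {δ : ℝ} (hδ : 0 < δ) : IsProbabilityMeasure (un δ) := ⟨by
  simp only [un, Measure.smul_apply, Measure.restrict_apply_univ, Real.volume_Icc, smul_eq_mul]
  rw [show 0 + δ - (0 - δ) = 2 * δ by ring]
  exact ENNReal.inv_mul_cancel (by simpa using hδ) ENNReal.ofReal_ne_top⟩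

lemma wave_un {δ : ℝ} (hδ : 0 < δ) (y : ℝ) :
    ‖∫ t, Complex.exp (Complex.I * y * t) ∂un δ‖ ^ 2 ≤ (1 + δ⁻¹ ^ 2) * (1 + y ^ 2)⁻¹ := by
  have := prob_un hδ
  have nI : ∀ t : ℝ, ‖Complex.exp (Complex.I * y * t)‖ = 1 := fun t => by
    rw [← Complex.norm_exp_ofReal_mul_I (y * t)]; congr 2; push_cast; ring
  have h1 : ‖∫ t, Complex.exp (Complex.I * y * t) ∂un δ‖ ≤ 1 := by
    simpa using norm_integral_le_of_norm_le_const (μ := un δ) (.of_forall fun t => (nI t).le)
  have h2 : ‖∫ t, Complex.exp (Complex.I * y * t) ∂un δ‖ * |y| ≤ δ⁻¹ := by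
    rcases eq_or_ne y 0 with rfl | hy
    · simp [hδ.le]
    have h3 : ‖Complex.exp (Complex.I * y * (2 * δ)) - 1‖ ≤ 2 := by
      refine (norm_sub_le _ _).trans ?_
      have := nI (2 * δ)
      push_cast at this
      rw [this]; norm_num
    rw [un, integral_smul_measure, wave1 _ _ hδ.le hy, norm_smul, norm_div, norm_mul, nI, norm_mul]
    simp only [ENNReal.toReal_inv, ENNReal.toReal_ofReal (by positivity : 0 ≤ 2 * δ), norm_inv,
      Real.norm_eq_abs, Complex.norm_I, Complex.norm_real, one_mul,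
      abs_of_pos (by positivity : 0 < 2 * δ)]
    rw [mul_assoc, div_mul_cancel₀ _ (abs_ne_zero.2 hy)]
    calc _ ≤ (2 * δ)⁻¹ * 2 := by gcongr
      _ = _ := by field_simp
  rw [← div_eq_mul_inv, le_div_iff₀ (by positivity), ← sq_abs y]
  have h4 := pow_le_pow_left₀ (by positivity) h2 2
  have h5 := pow_le_pow_left₀ (by positivity) h1 2
  nlinarith

/-- all translates of `ν` by short vectors lie below `μ` -/
def Dom (δ : ℝ) (ν μ : Measure (Fin d → ℝ)) : Prop :=
  ∀ u, ‖u‖ ≤ δ → ∀ F : (Fin d → ℝ) → ℝ≥0∞, Measurable F → ∫⁻ l, F (u + l) ∂ν ≤ ∫⁻ l, F l ∂μ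

lemma Dom.conv [SFinite ν] {δ δ' : ℝ} (h : Dom (δ + δ') ν μ) (hδ : 0 < δ') :
    Dom δ (Measure.pi (fun _ => un δ') ∗ ν) μ := by
  intro u hu F hF
  have := prob_un hδ
  have ae : ∀ᵐ v ∂Measure.pi (fun _ : Fin d => un δ'), ‖v‖ ≤ δ' := by
    have : ∀ i : Fin d, ∀ᵐ v ∂Measure.pi (fun _ : Fin d => un δ'), ‖v i‖ ≤ δ' := fun i =>
      Measure.tendsto_eval_ae_ae.eventually (p := fun t : ℝ => ‖t‖ ≤ δ') (Measure.ae_smul_measure
        ((ae_restrict_mem measurableSet_Icc).mono fun t ht =>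
          abs_le.2 ⟨by linarith [ht.1], by linarith [ht.2]⟩) _)
    filter_upwards [ae_all_iff.2 this] with v hv using (pi_norm_le_iff_of_nonneg hδ.le).2 hv
  rw [Measure.lintegral_conv (f := fun l => F (u + l)) (by fun_prop)]
  refine (lintegral_mono_ae (g := fun _ => ∫⁻ l, F l ∂μ) (ae.mono fun v hv => ?_)).trans (by simp)
  simp only [← add_assoc]
  exact h _ ((norm_add_le _ _).trans (by linarith)) F hF

lemma Dom.le (h : Dom 0 ν μ) : ν ≤ μ := Measure.le_iff.2 fun s hs => by
  simpa [hs] using h 0 (by simp) (s.indicator 1) (measurable_one.indicator hs)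

lemma exists_dom {ρ : (Fin d → ℝ) → ℝ≥0∞} (hρ : LowerSemicontinuous ρ) (hf : ∫⁻ l, ρ l ≠ ∞)
    {ε : ℝ} (hε : 0 < ε) : ∃ δ : ℝ, 0 < δ ∧ ∃ ν : Measure (Fin d → ℝ), IsFiniteMeasure ν ∧
      Dom δ ν (volume.withDensity ρ) ∧ (volume.withDensity ρ).real univ ≤ ν.real univ + ε := by
  let g : ℕ → (Fin d → ℝ) → ℝ≥0∞ := fun n l => ⨅ u ∈ Metric.ball l (1 / ((n : ℝ) + 1)), ρ u
  have gm : ∀ n, Measurable (g n) := fun n => measurable_of_Iio fun t => by
    refine IsOpen.measurableSet ?_
    have : g n ⁻¹' Iio t = ⋃ u ∈ {u | ρ u < t}, Metric.ball u (1 / ((n : ℝ) + 1)) := by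
      ext l
      simp only [g, mem_preimage, mem_Iio, iInf_lt_iff, mem_iUnion, Metric.mem_ball, mem_ofPred_eq,
        exists_prop]
      exact exists_congr fun u => by rw [dist_comm, and_comm]
    rw [this]
    exact isOpen_biUnion fun _ _ => Metric.isOpen_ball
  have gle : ∀ (n : ℕ) l u, ‖u‖ < 1 / ((n : ℝ) + 1) → g n l ≤ ρ (u + l) := fun n l u hu =>
    biInf_le _ (by simpa [dist_eq_norm] using hu)
  have gle0 : ∀ n l, g n l ≤ ρ l := fun n l => by simpa using gle n l 0 (by simp; positivity)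
  have mono : Monotone g := fun n m hnm l =>
    biInf_mono fun u hu => Metric.ball_subset_ball (Nat.one_div_le_one_div hnm) hu
  have sup : ∀ l, ⨆ n, g n l = ρ l := fun l => by
    refine le_antisymm (iSup_le fun n => gle0 n l) (le_of_forall_lt fun t ht => ?_)
    obtain ⟨t', h1, h2⟩ := exists_between ht
    obtain ⟨r, hr, h3⟩ := Metric.eventually_nhds_iff.1 (hρ l t' h2)
    obtain ⟨n, hn⟩ := exists_nat_one_div_lt hr
    exact h1.trans_le (le_iSup_of_le n (le_iInf₂ fun u hu => (h3 (lt_trans hu hn)).le))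
  have lim : Tendsto (fun n => ∫⁻ l, g n l) atTop (𝓝 (∫⁻ l, ρ l)) := by
    simp only [← sup]
    rw [lintegral_iSup gm mono]
    exact tendsto_atTop_iSup fun n m h => lintegral_mono (mono h)
  obtain ⟨n, hn⟩ := (((ENNReal.tendsto_toReal hf).comp lim).eventually
    (lt_mem_nhds (sub_lt_self _ hε))).exists
  refine ⟨1 / ((n : ℝ) + 1) / 2, by positivity, volume.withDensity (g n),
    isFiniteMeasure_withDensity (ne_top_of_le_ne_top hf (lintegral_mono (gle0 n))),
    fun u hu F hF => ?_, ?_⟩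
  · rw [lintegral_withDensity_eq_lintegral_mul _ (gm n) (by fun_prop),
      lintegral_withDensity_eq_lintegral_mul _ hρ.measurable hF,
      ← lintegral_add_left_eq_self (ρ * F) u]
    refine lintegral_mono fun l => mul_le_mul_left (gle n l u (hu.trans_lt ?_)) _
    exact half_lt_self (by positivity)
  · simp only [Measure.real, withDensity_apply _ MeasurableSet.univ, Measure.restrict_univ]
    simp only [Function.comp] at hn
    linarith

/-- the properties of the covariance kernel that come from the spectral density -/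
structure Sp (K : (Fin d → ℝ) → ℝ) : Prop where
  cont : Continuous K
  bd : ∀ x, |K x| ≤ K 0
  riesz : ∃ L c₀ : ℝ, 0 < L ∧ 0 < c₀ ∧ ∀ (N : ℕ) (a : (Fin d → Fin (2 * N + 1)) → ℝ),
    c₀ * ∑ j, a j ^ 2 ≤ ∑ j, ∑ k, a j * a k * K (pt L N j - pt L N k)
  split : ∀ ε : ℝ, 0 < ε → ∃ (C : ℝ) (K₁ : (Fin d → ℝ) → ℝ), 0 ≤ C ∧
    (∀ y, |K₁ y| ≤ C * ∏ i, (1 + y i ^ 2)⁻¹) ∧
    ∀ (ι : Type) [Fintype ι] (x : ι → Fin d → ℝ) (a : ι → ℝ) (y : Fin d → ℝ),
      (∑ i, a i * (K (x i - y) - K₁ (x i - y))) ^ 2 ≤ ε * ∑ i, ∑ j, a i * a j * K (x i - x j)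

theorem sp_of_density {K : (Fin d → ℝ) → ℝ} {ρ : (Fin d → ℝ) → ℝ≥0∞} (hρ : LowerSemicontinuous ρ)
    (hf : ∫⁻ l, ρ l ≠ ∞) (hK : ∀ x, (K x : ℂ) = ch (volume.withDensity ρ) x) (h0 : ∃ x, K x ≠ 0) :
    Sp K := by
  have := isFiniteMeasure_withDensity hf
  obtain rfl : K = fun x => (ch (volume.withDensity ρ) x).re := funext fun x => by simp [← hK]
  refine ⟨Complex.continuous_re.comp cont_ch, fun x => ?_, ?_, fun ε hε => ?_⟩
  · simpa [ch_zero] using (Complex.abs_re_le_norm _).trans (norm_ch x)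
  · obtain ⟨l₀, h1⟩ : ∃ l, 0 < ρ l := by
      by_contra! h1
      obtain rfl : ρ = 0 := funext fun l => le_zero_iff.1 (h1 l)
      simp [ch] at h0
    obtain ⟨t, h2, h3⟩ := ENNReal.lt_iff_exists_nnreal_btwn.1 h1
    obtain ⟨δ, hδ, h4⟩ := Metric.nhds_basis_closedBall.eventually_iff.1 (hρ l₀ t h3)
    have ht : (0 : ℝ) < t := by exact_mod_cast h2
    have : IsFiniteMeasure (volume.restrict (Metric.closedBall l₀ δ)) :=
      isFiniteMeasure_restrict.2 measure_closedBall_lt_top.ne
    refine ⟨Real.pi / δ, t * (2 * δ) ^ d, by have := Real.pi_pos; positivity, by positivity,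
      fun N a => le_trans (le_of_eq ?_)
        (quad_mono (ν := t • volume.restrict (Metric.closedBall l₀ δ)) ?_ _ a)⟩
    · have e : ∀ x, ch (t • volume.restrict (Metric.closedBall l₀ δ)) x =
          (t : ℝ) * ch (volume.restrict (Metric.closedBall l₀ δ)) x := fun x => by
        simp [ch, integral_smul_nnreal_measure, NNReal.smul_def]
      simp only [e, riesz_cube l₀ hδ, Complex.re_ofReal_mul, apply_ite Complex.re, mul_ite,
        Complex.ofReal_re, Complex.zero_re, mul_zero, Finset.sum_ite_eq, Finset.mem_univ, if_true,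
        Finset.mul_sum]
      exact Finset.sum_congr rfl fun j _ => by ring
    · rw [ENNReal.smul_def, ← withDensity_const, ← withDensity_indicator measurableSet_closedBall]
      exact withDensity_mono (.of_forall fun l => indicator_le (fun l hl => (h4 hl).le) l)
  · obtain ⟨δ, hδ, ν, hν, h1, h2⟩ := exists_dom hρ hf hε
    have hδ2 := half_pos hδ
    have := prob_un hδ2
    set U := Measure.pi fun _ : Fin d => un (δ / 2)
    have h3 : U ∗ (U ∗ ν) ≤ volume.withDensity ρ :=
      Dom.le (Dom.conv (Dom.conv (by simpa using h1) hδ2) hδ2)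
    have h4 := Measure.sub_add_cancel_of_le h3
    set μ := volume.withDensity ρ
    have h5 : ∀ x, ch μ x = ch (μ - U ∗ (U ∗ ν)) x + ch (U ∗ (U ∗ ν)) x := fun x => by
      conv_lhs => rw [← h4]
      exact integral_add_measure (int_ex x) (int_ex x)
    have h6 : (μ - U ∗ (U ∗ ν)).real univ ≤ ε := by
      have := congrArg Complex.re (h5 0)
      rw [ch_conv, ch_conv] at this
      simp [ch_zero] at this
      linarith
    refine ⟨(1 + (δ / 2)⁻¹ ^ 2) ^ d * ν.real univ, fun y => (ch (U ∗ (U ∗ ν)) y).re, by positivity,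
      fun y => (Complex.abs_re_le_norm _).trans ?_, fun ι _ x a y => ?_⟩
    · rw [ch_conv, ch_conv, ← mul_assoc, norm_mul, norm_mul, ← sq, mul_right_comm]
      refine mul_le_mul ?_ (norm_ch y) (by positivity) (by positivity)
      rw [ch_pi, norm_prod, ← Finset.prod_pow]
      refine (Finset.prod_le_prod (fun _ _ => by positivity) fun i _ => wave_un hδ2 (y i)).trans ?_
      simp [Finset.prod_mul_distrib]
    · have h7 := quad_cs (μ := μ - U ∗ (U ∗ ν)) x a y
      have h8 := quad_mono (μ := μ) (ν := μ - U ∗ (U ∗ ν)) Measure.sub_le x a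
      have h9 : 0 ≤ ∑ i, ∑ j, a i * a j * (ch (μ - U ∗ (U ∗ ν)) (x i - x j)).re := by
        rw [quad]; exact integral_nonneg fun l => by positivity
      simp only [h5 (_ - y), Complex.add_re, add_sub_cancel_right]
      exact h7.trans (mul_le_mul h6 h8 h9 hε.le)

end Pool.Agent.MP_0502fb_pr.H57
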