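import Mathlib
import Pool.Agent.MP_0502fb_pr.H57.Ent
import Pool.Agent.MP_0502fb_pr.H57.Spec

/-!
Concentration under conditioning, and the pressure exerted by the walls.
-/

namespace Pool.Agent.MP_0502fb_pr.H57

open MeasureTheory ProbabilityTheory Set Filter Topology
open scoped ENNReal NNReal

variable {Ω : Type*} [MeasurableSpace Ω] {P : Measure Ω} {V : Submodule ℝ (Ω → ℝ)}
  {ι : Type*} [Fintype ι] {ξ : ι → Ω → ℝ}

lemma GS.cs (h : GS P V) {ξ η : Ω → ℝ} (hξ : ξ ∈ V) (hη : η ∈ V) :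
    cov P ξ η ^ 2 ≤ cov P ξ ξ * cov P η η := cs_int (h.memLp hξ) (h.memLp hη)

lemma cov_smul (ξ η : Ω → ℝ) (t : ℝ) : cov P ξ (t • η) = t * cov P ξ η := by
  simp only [cov, Pi.smul_apply, smul_eq_mul, ← integral_const_mul]
  exact integral_congr_ae (.of_forall fun ω => by ring)

lemma GS.cov_left (h : GS P V) (hξ : ∀ i, ξ i ∈ V) {η : Ω → ℝ} (hη : η ∈ V) (a : ι → ℝ) :
    cov P (∑ i, a i • ξ i) η = ∑ i, a i * cov P (ξ i) η := by
  simpa using h.cov_sum Finset.univ (Finset.univ : Finset Unit) hξ (fun _ => hη) a fun _ => 1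

lemma cm_smul (S : Set Ω) (η : Ω → ℝ) (t : ℝ) : cm P S (t • η) = t * cm P S η := by
  simp only [cm, Pi.smul_apply, smul_eq_mul, integral_const_mul, mul_div_assoc]

lemma GS.cm_sum (h : GS P V) (hξ : ∀ i, ξ i ∈ V) (S : Set Ω) (a : ι → ℝ) :
    cm P S (∑ i, a i • ξ i) = ∑ i, a i * cm P S (ξ i) := by
  simp only [cm, Finset.sum_apply, Pi.smul_apply, smul_eq_mul]
  rw [integral_finsetSum _ fun i _ => ((h.int (hξ i)).const_mul _).integrableOn, Finset.sum_div]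
  simp only [integral_const_mul, mul_div_assoc]

omit [Fintype ι] in
lemma GS.ev_mono (h : GS P V) {k k' : ι → ℝ} (hk : ∀ i, k i ≤ k' i) :
    P.real (ev ξ k) ≤ P.real (ev ξ k') := by
  have := h.prob
  exact measureReal_mono fun ω hω i => (hω i).trans (by linarith [hk i])

lemma GS.conc (h : GS P V) (hξ : ∀ i, ξ i ∈ V) {J : Type*} [Fintype J] {η : J → Ω → ℝ}
    (hη : ∀ j, η j ∈ V) (k : ι → ℝ) (hk : 0 < P.real (ev ξ k)) {r u : ℝ} (hr : 0 < r) (hu : 0 < u)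
    (h34 : 3 / 4 ≤ P.real {ω | ∀ j, |η j ω| ≤ r}) :
    P.real ({ω | ∃ j, u ≤ |η j ω - cm P (ev ξ k) (η j)|} ∩ ev ξ k) ≤
      P.real (ev ξ k) * (6 * r / u) := by
  have := h.prob
  have hm : Measurable fun ω => ⨆ j, ENNReal.ofReal |η j ω - cm P (ev ξ k) (η j)| :=
    Measurable.iSup fun j => by have := h.meas _ (hη j); fun_prop
  have h1 := mul_meas_ge_le_lintegral₀ (μ := P.restrict (ev ξ k)) hm.aemeasurable (.ofReal u)
  rw [Measure.restrict_apply' (h.ms_ev hξ k)] at h1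
  have h2 : ENNReal.ofReal u * P ({ω | ∃ j, u ≤ |η j ω - cm P (ev ξ k) (η j)|} ∩ ev ξ k) ≤
      P (ev ξ k) * (2 * ENNReal.ofReal (3 * r)) := by
    refine le_trans ?_ (h1.trans ((h.harge hξ hη k hk).trans ?_))
    · gcongr with ω
      exact fun ⟨j, hj⟩ => le_iSup_of_le j (ENNReal.ofReal_le_ofReal hj)
    · gcongr; exact h.borell_int hη hr h34
  have h3 := ENNReal.toReal_mono (by finiteness) h2
  simp only [ENNReal.toReal_mul, ENNReal.toReal_ofReal hu.le, ENNReal.toReal_ofNat,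
    ENNReal.toReal_ofReal (by positivity : 0 ≤ 3 * r)] at h3
  rw [← mul_div_assoc, le_div_iff₀' hu]
  simp only [Measure.real]
  linarith

lemma GS.drop (h : GS P V) (hξ : ∀ i, ξ i ∈ V) (Y : ι → Prop) (hk : 0 < P.real (ev ξ 0))
    {r u : ℝ} (hr : 0 < r) (hu : 0 < u) (h34 : 3 / 4 ≤ P.real {ω | ∀ i : {i // Y i}, |ξ i ω| ≤ r})
    {k : ι → ℝ} (h1 : ∀ i, Y i → u ≤ cm P (ev ξ 0) (ξ i) + k i) (h2 : ∀ i, ¬ Y i → 0 ≤ k i) :
    P.real (ev ξ 0) * (1 - 6 * r / u) ≤ P.real (ev ξ k) := by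
  classical
  have := h.prob
  have h3 := h.conc hξ (η := fun i : {i // Y i} => ξ i) (fun i => hξ i) 0 hk hr hu h34
  have h4 : P.real (ev ξ 0) ≤ P.real (ev ξ k) + P.real
      ({ω | ∃ j : {i // Y i}, u ≤ |ξ j ω - cm P (ev ξ 0) (ξ j)|} ∩ ev ξ 0) := by
    refine (measureReal_mono fun ω hω => ?_).trans (measureReal_union_le _ _)
    by_cases h5 : ∃ j : {i // Y i}, u ≤ |ξ j ω - cm P (ev ξ 0) (ξ j)|
    · exact Or.inr ⟨h5, hω⟩
    · refine Or.inl fun i => ?_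
      by_cases hi : Y i
      · linarith [(abs_lt.1 (not_le.1 (not_exists.1 h5 ⟨i, hi⟩))).1, h1 i hi]
      · have := hω i
        simp only [Pi.zero_apply] at this
        linarith [h2 i hi]
  linarith

lemma GS.shift (h : GS P V) (hξ : ∀ i, ξ i ∈ V) {η : Ω → ℝ} (hη : η ∈ V) {M : ℝ} {k : ι → ℝ}
    (hM : 1 / 2 ≤ P.real (ev ξ fun _ => M)) (hk : ∀ i, M - k i ≤ cov P (ξ i) η) :
    1 / 4 * Real.exp (-cov P η η) ≤ P.real (ev ξ k) := by
  have := h.prob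
  have h1 := h.hbd hξ (fun _ => M) (fun i => cov P (ξ i) η) (r := cov P η η) (fun a => by
    rw [← h.cov_left hξ hη, ← h.cov_sum _ _ hξ hξ, mul_comm]
    exact h.cs (V.sum_mem fun i _ => V.smul_mem _ (hξ i)) hη) (cov_self_nonneg _)
  have h2 : P.real (ev ξ ((fun _ => M) - fun i => cov P (ξ i) η)) ≤ P.real (ev ξ k) :=
    h.ev_mono fun i => by simp only [Pi.sub_apply]; linarith [hk i]
  calc _ ≤ P.real (ev ξ fun _ => M) ^ 2 * Real.exp (-cov P η η) := by gcongr; nlinarith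
    _ ≤ 1 * P.real (ev ξ k) := h1.trans (by gcongr; exact measureReal_le_one)
    _ = _ := one_mul _

lemma GS.concave (h : GS P V) (hξ : ∀ i, ξ i ∈ V) (hp : ∀ k, 0 < P.real (ev ξ k)) :
    ConcaveOn ℝ univ fun k => Real.log (P.real (ev ξ k)) := by
  refine concaveOn_iff_forall_pos.2 ⟨convex_univ, fun k _ k' _ a b ha hb hab => ?_⟩
  obtain rfl : b = 1 - a := by linarith
  have := Real.log_le_log (by have := hp k; have := hp k'; positivity)
    (h.lc hξ k k' ha (by linarith))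
  rwa [Real.log_mul (by have := hp k; positivity) (by have := hp k'; positivity),
    Real.log_rpow (hp k), Real.log_rpow (hp k')] at this

lemma GS.pressure (h : GS P V) (hξ : ∀ i, ξ i ∈ V) (hp : ∀ k, 0 < P.real (ev ξ k)) :
    ∃ σ : ι → ℝ, (∀ i, 0 ≤ σ i) ∧
      (∀ k, Real.log (P.real (ev ξ k)) ≤ Real.log (P.real (ev ξ 0)) + ∑ i, σ i * k i) ∧
      ∀ η ∈ V, cm P (ev ξ 0) η = ∑ i, σ i * cov P (ξ i) η := by
  classical
  obtain ⟨σ, hσ⟩ := exists_super (h.concave hξ hp)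
  refine ⟨σ, fun i => ?_, hσ, fun η hη => ?_⟩
  · have h1 := hσ (Pi.single i 1)
    have h2 := Real.log_le_log (hp 0) (h.ev_mono (ξ := ξ) (k := 0) (k' := Pi.single i 1) fun j => by
      simp only [Pi.zero_apply, Pi.single_apply]; split_ifs <;> norm_num)
    simp only [Pi.single_apply, mul_ite, mul_one, mul_zero, Finset.sum_ite_eq', Finset.mem_univ,
      if_true] at h1
    linarith
  · set δ := cm P (ev ξ 0) η - ∑ i, σ i * cov P (ξ i) η
    have key : ∀ t : ℝ, 0 ≤ cov P η η / 2 * (t * t) + -δ * t + 0 := fun t => by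
      have h1 := Real.log_le_log (by have := hp 0; positivity) (h.one hξ (V.smul_mem t hη) 0).2.1
      have h2 := hσ (0 + fun i => cov P (ξ i) (t • η))
      rw [Real.log_mul (hp 0).ne' (by positivity), Real.log_exp, cm_smul, cov_smul, cov_comm,
        cov_smul] at h1
      simp only [zero_add, cov_smul, mul_left_comm _ t, ← Finset.mul_sum] at h1 h2
      simp only [δ]
      linarith
    have := discrim_le_zero key
    rw [discrim] at this
    exact sub_eq_zero.1 (by nlinarith : δ = 0)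

lemma energy {σ m : ι → ℝ} {E : ι → ι → ℝ} {A B γ c : ℝ} (hσ : ∀ i, 0 ≤ σ i)
    (hc : γ ≤ c) (hm : ∀ j, m j = ∑ i, σ i * E i j)
    (hE : ∀ τ : ι → ℝ, (∀ i, 0 ≤ τ i) → γ * (∑ i, τ i) ^ 2 ≤ ∑ i, ∑ j, τ i * τ j * E i j)
    (hG : ∀ j, c * ∑ i, (if A < m i then σ i else 0) - B ≤ ∑ i, (if A < m i then σ i else 0) * E i j)
    (hS : A + B < γ * ∑ i, σ i) (i : ι) (hi : m i ≤ A) : σ i = 0 := by
  set τ : ι → ℝ := fun i => if A < m i then 0 else σ i with hτ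
  set s : ι → ℝ := fun i => if A < m i then σ i else 0 with hs
  have τ0 : ∀ i, 0 ≤ τ i := fun i => by simp only [τ]; split_ifs <;> simp [hσ]
  have s0 : ∀ i, 0 ≤ s i := fun i => by simp only [s]; split_ifs <;> simp [hσ]
  have e : ∀ i, σ i = τ i + s i := fun i => by simp only [τ, s]; split_ifs <;> simp
  have h1 : ∑ j, τ j * m j ≤ A * ∑ j, τ j := by
    rw [Finset.mul_sum]
    refine Finset.sum_le_sum fun j _ => ?_
    simp only [τ]
    split_ifs with h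
    · simp
    · nlinarith [hσ j]
  have h2 : ∑ j, τ j * m j = ∑ i, ∑ j, τ i * τ j * E i j + ∑ j, τ j * ∑ i, s i * E i j := by
    rw [Finset.sum_comm, ← Finset.sum_add_distrib]
    refine Finset.sum_congr rfl fun j _ => ?_
    rw [hm, Finset.mul_sum, Finset.mul_sum, ← Finset.sum_add_distrib]
    exact Finset.sum_congr rfl fun i _ => by rw [e i]; ring
  have h3 : (∑ j, τ j) * (c * ∑ i, s i - B) ≤ ∑ j, τ j * ∑ i, s i * E i j := by
    rw [Finset.sum_mul]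
    exact Finset.sum_le_sum fun j _ => mul_le_mul_of_nonneg_left (hG j) (τ0 j)
  have h4 := hE τ τ0
  have h5 : ∑ i, σ i = ∑ i, τ i + ∑ i, s i := by
    rw [← Finset.sum_add_distrib]; exact Finset.sum_congr rfl fun i _ => e i
  have h6 : 0 ≤ ∑ i, s i := Finset.sum_nonneg fun i _ => s0 i
  have h7 : ∑ i, τ i ≤ 0 := by
    by_contra! h7
    rw [h5] at hS
    nlinarith [mul_nonneg h7.le (mul_nonneg (sub_nonneg.2 hc) h6), mul_pos h7 (sub_pos.2 hS)]
  have := (Finset.single_le_sum (fun i _ => τ0 i) (Finset.mem_univ i)).trans h7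
  simp only [τ, if_neg (not_lt.2 hi)] at this
  exact le_antisymm this (hσ i)

lemma asym {d : ℕ} {α L l A : ℝ} (h0 : 0 < α) (hd : α < d) (hL : 0 < L) (hl : 0 < l) (hA : 0 ≤ A) :
    ∀ᶠ T : ℝ in atTop, ∀ n : ℕ, (T / L) ^ d ≤ n →
      ∃ m : ℕ, n ≤ 2 ^ m ∧ A * (2 * m + 1) ^ 2 * T ^ α + 3 ≤ l * n := by
  have hd0 : (0 : ℝ) < d := h0.trans hd
  set ε := (1 - α / d) / 4 with hε
  have hε0 : 0 < ε := by have := (div_lt_one hd0).2 hd; rw [hε]; linarith
  have t1 : Tendsto (fun T : ℝ => (T / L) ^ d) atTop atTop :=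
    (tendsto_pow_atTop (by exact_mod_cast hd0.ne')).comp (tendsto_id.atTop_div_const hL)
  obtain ⟨n₀, hn₀⟩ := eventually_atTop.1
    ((tendsto_rpow_atTop (by positivity : 0 < 2 * ε)).eventually_ge_atTop ((A * (3 + 4 / ε) ^ 2 * L ^ α + 3) / l))
  filter_upwards [t1.eventually_ge_atTop n₀, t1.eventually_ge_atTop 1, eventually_gt_atTop 0]
    with T h1 h2 hT n hn
  have n1 : (1 : ℝ) ≤ n := h2.trans hn
  have n0 : (0 : ℝ) < n := by linarith
  refine ⟨Nat.log 2 n + 1, (Nat.lt_pow_succ_log_self one_lt_two n).le, ?_⟩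
  have a1 : (Nat.log 2 n : ℝ) ≤ 2 * ((n : ℝ) ^ ε / ε) := by
    have b1 : (2 : ℝ) ^ Nat.log 2 n ≤ n := by
      exact_mod_cast Nat.pow_log_le_self 2 (by exact_mod_cast n0.ne')
    have b2 := Real.log_le_log (by positivity) b1
    rw [Real.log_pow] at b2
    nlinarith [Real.log_le_rpow_div n0.le hε0, Real.log_two_gt_d9,
      (Nat.cast_nonneg (Nat.log 2 n) : (0 : ℝ) ≤ _)]
  have a2 : (1 : ℝ) ≤ (n : ℝ) ^ ε := Real.one_le_rpow n1 hε0.le
  have a3 : (2 * ((Nat.log 2 n + 1 : ℕ) : ℝ) + 1) ≤ (3 + 4 / ε) * (n : ℝ) ^ ε := by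
    have : 4 / ε * (n : ℝ) ^ ε = 4 * ((n : ℝ) ^ ε / ε) := by ring
    push_cast; linarith
  have a4 : T ^ α ≤ L ^ α * (n : ℝ) ^ (α / d) := by
    have : (T / L) ^ α ≤ (n : ℝ) ^ (α / d) := by
      calc (T / L) ^ α = ((T / L) ^ d) ^ (α / d) := by
            rw [← Real.rpow_natCast, ← Real.rpow_mul (by positivity), mul_div_cancel₀ _ hd0.ne']
        _ ≤ _ := by gcongr
    rwa [Real.div_rpow hT.le hL.le, div_le_iff₀' (by positivity)] at this
  have a5 := hn₀ n (h1.trans hn)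
  rw [div_le_iff₀' hl] at a5
  have a6 : ((n : ℝ) ^ ε) ^ 2 * (n : ℝ) ^ (α / d) * (n : ℝ) ^ (2 * ε) = n := by
    rw [sq, ← Real.rpow_add n0, ← Real.rpow_add n0, ← Real.rpow_add n0]
    rw [show ε + ε + α / d + 2 * ε = 1 by rw [hε]; ring, Real.rpow_one]
  have a7 : 1 ≤ ((n : ℝ) ^ ε) ^ 2 * (n : ℝ) ^ (α / d) :=
    one_le_mul_of_one_le_of_one_le (one_le_pow₀ a2) (Real.one_le_rpow n1 (by positivity))
  calc _ ≤ A * ((3 + 4 / ε) * (n : ℝ) ^ ε) ^ 2 * (L ^ α * (n : ℝ) ^ (α / d)) +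
        3 * (((n : ℝ) ^ ε) ^ 2 * (n : ℝ) ^ (α / d)) := by gcongr; linarith
    _ = (A * (3 + 4 / ε) ^ 2 * L ^ α + 3) * (((n : ℝ) ^ ε) ^ 2 * (n : ℝ) ^ (α / d)) := by ring
    _ ≤ l * (n : ℝ) ^ (2 * ε) * (((n : ℝ) ^ ε) ^ 2 * (n : ℝ) ^ (α / d)) := by gcongr
    _ = _ := by rw [mul_assoc, mul_comm ((n : ℝ) ^ (2 * ε)), a6]

end Pool.Agent.MP_0502fb_pr.H57
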