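import Mathlib
import Pool.Agent.MP_0502fb_pr.H57.Press

/-!
Entropic repulsion, uniformly over the cube.
-/

namespace Pool.Agent.MP_0502fb_pr.H57

open MeasureTheory ProbabilityTheory Set Filter Topology
open scoped ENNReal NNReal

variable {d : ℕ} {Ω : Type*} [MeasurableSpace Ω] {P : Measure Ω} {V : Submodule ℝ (Ω → ℝ)}
  {f : Ω → C(Fin d → ℝ, ℝ)} {K : (Fin d → ℝ) → ℝ} {α c R : ℝ}

/-- the value of the field at a point -/
def fx (f : Ω → C(Fin d → ℝ, ℝ)) (x : Fin d → ℝ) : Ω → ℝ := fun ω => f ω x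

/-- a stationary centred Gaussian field with continuous paths -/
structure Fld (P : Measure Ω) (V : Submodule ℝ (Ω → ℝ)) (f : Ω → C(Fin d → ℝ, ℝ))
    (K : (Fin d → ℝ) → ℝ) : Prop where
  gs : GS P V
  mem : ∀ x, fx f x ∈ V
  cv : ∀ x y, cov P (fx f x) (fx f y) = K (x - y)

lemma mono34 [IsProbabilityMeasure P] {S : ℕ → Set Ω} (hS : Monotone S) (hu : ∀ ω, ∃ n, ω ∈ S n) :
    ∃ n, 3 / 4 ≤ P.real (S n) := by
  have h1 := tendsto_measure_iUnion_atTop (μ := P) hS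
  rw [iUnion_eq_univ_iff.2 hu, measure_univ] at h1
  exact (((ENNReal.tendsto_toReal (by simp)).comp h1).eventually
    (le_mem_nhds (by norm_num))).exists

lemma Fld.loc (h : Fld P V f K) (ρ : ℝ) : ∃ r : ℝ, 0 < r ∧ ∀ (J : Type) [Fintype J]
    (y : J → Fin d → ℝ) (z : Fin d → ℝ), (∀ j, ‖y j - z‖ ≤ ρ) →
      3 / 4 ≤ P.real {ω | ∀ j, |fx f (y j) ω| ≤ r} := by
  have := h.gs.prob
  obtain ⟨n, hn⟩ := mono34 (P := P) (S := fun n => {ω | ∀ y, ‖y‖ ≤ ρ → |f ω y| ≤ n + 1})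
    (fun n m hnm ω hω y hy => (hω y hy).trans (by gcongr)) fun ω => by
      obtain ⟨B, hB⟩ := (isCompact_closedBall 0 ρ).exists_bound_of_continuousOn
        (f ω).continuous.continuousOn
      obtain ⟨n, hn⟩ := exists_nat_ge B
      exact ⟨n, fun y hy => (hB y (by simpa using hy)).trans (by linarith)⟩
  refine ⟨n + 1, by positivity, fun J _ y z hy => ?_⟩
  have e := h.gs.law_eq (fun j => h.mem (y j)) (fun j => h.mem (y j - z)) fun i j => by
    rw [h.cv, h.cv, sub_sub_sub_cancel_right]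
  have ms : MeasurableSet {v : J → ℝ | ∀ j, |v j| ≤ n + 1} := by measurability
  have e2 := congrArg (fun μ : Measure (J → ℝ) => μ.real {v | ∀ j, |v j| ≤ n + 1}) e
  simp only [Measure.real] at e2
  rw [Measure.map_apply (measurable_pi_lambda _ fun j => h.gs.meas _ (h.mem _)) ms,
    Measure.map_apply (measurable_pi_lambda _ fun j => h.gs.meas _ (h.mem _)) ms] at e2
  exact (hn.trans (measureReal_mono fun ω hω j => hω _ (hy j))).trans_eq e2.symm

lemma Fld.half (h : Fld P V f K) {L r ρ : ℝ} (hL : 0 < L) (hρ : L ≤ ρ) (hr : 0 < r)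
    (hloc : ∀ (J : Type) [Fintype J] (y : J → Fin d → ℝ) (z : Fin d → ℝ), (∀ j, ‖y j - z‖ ≤ ρ) →
      3 / 4 ≤ P.real {ω | ∀ j, |fx f (y j) ω| ≤ r}) {N m : ℕ}
    (hm : Fintype.card (Fin d → Fin (2 * N + 1)) ≤ 2 ^ m) {ι : Type} [Fintype ι]
    (x : ι → Fin d → ℝ) (hx : ∀ i, ‖x i‖ ≤ L * (N + 1)) :
    1 / 2 ≤ P.real (ev (fun i => fx f (x i)) fun _ => (2 * m + 1) * r) := by
  classical
  have := h.gs.prob
  have h1 : (ev (fun i => fx f (x i)) fun _ => (2 * m + 1) * r)ᶜ ⊆ ⋃ j,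
      {ω | ∃ i : {i // ‖x i - pt L N j‖ ≤ ρ}, (2 * m + 1) * r < |fx f (x i) ω|} := by
    intro ω hω
    obtain ⟨i, hi⟩ := not_forall.1 hω
    obtain ⟨j, hj⟩ := near_pt hL N (hx i)
    exact mem_iUnion.2 ⟨j, ⟨i, hj.trans hρ⟩, by linarith [neg_abs_le (fx f (x i) ω), not_le.1 hi]⟩
  have h2 := (measureReal_mono (μ := P) h1).trans ((measureReal_iUnion_fintype_le _).trans
    (Finset.sum_le_sum fun j _ => h.gs.borell (fun i => h.mem _) hr
      (hloc _ (fun i : {i // ‖x i - pt L N j‖ ≤ ρ} => x i) _ fun i => i.2) m))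
  rw [probReal_compl_eq_one_sub (h.gs.ms_ev (fun i => h.mem _) _), Finset.sum_const,
    Finset.card_univ, nsmul_eq_mul] at h2
  have h3 : (Fintype.card (Fin d → Fin (2 * N + 1)) : ℝ) * (1 / 2) ^ (m + 1) ≤
      2 ^ m * (1 / 2) ^ (m + 1) := by gcongr; exact_mod_cast hm
  rw [pow_succ, ← mul_assoc (2 ^ m), ← mul_pow] at h3
  norm_num at h2 h3 ⊢
  rw [pow_succ] at h2
  linarith

lemma GS.cm_ge (h : GS P V) {g : Ω → ℝ} (hg : g ∈ V) {S : Set Ω} (hS : MeasurableSet S)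
    (h0 : 0 < P.real S) (h1 : ∀ ω ∈ S, 0 ≤ g ω) {M : ℝ} (hM : 0 ≤ M)
    (h2 : P.real (S ∩ {ω | g ω ≤ 2 * M}) ≤ P.real S / 2) : M ≤ cm P S g := by
  have := h.prob
  have ms : MeasurableSet {ω | g ω ≤ 2 * M} := measurableSet_le (h.meas g hg) measurable_const
  have h3 := measureReal_inter_add_sdiff (μ := P) (s := S) ms
  have h4 : 2 * M * P.real (S \ {ω | g ω ≤ 2 * M}) ≤ ∫ ω in S \ {ω | g ω ≤ 2 * M}, g ω ∂P :=
    setIntegral_ge_of_const_le_real (hS.diff ms) (measure_ne_top _ _)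
      (fun ω hω => (not_le.1 hω.2).le) (h.int hg).integrableOn
  have h5 : ∫ ω in S \ {ω | g ω ≤ 2 * M}, g ω ∂P ≤ ∫ ω in S, g ω ∂P :=
    setIntegral_mono_set (h.int hg).integrableOn ((ae_restrict_mem hS).mono h1)
      sdiff_subset.eventuallyLE
  rw [cm, le_div_iff₀ h0]
  nlinarith

theorem Fld.repel (h : Fld P V f K) (reg : Reg K α c R) (sp : Sp K) :
    ∃ L : ℝ, 0 < L ∧ ∀ M : ℝ, ∀ᶠ T : ℝ in atTop, ∃ b : ℝ, 0 < b ∧
      ∀ (ι : Type) [Fintype ι] (x : ι → Fin d → ℝ), (∀ i, ‖x i‖ ≤ T) →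
        (∀ k, 0 < P.real (ev (fun i => fx f (x i)) k)) ∧ b ≤ P.real (ev (fun i => fx f (x i)) 0) ∧
        ((∀ j, ∃ i, x i = pt L ⌊T / L⌋₊ j) → ∀ y, ‖y‖ ≤ T →
          M ≤ cm P (ev (fun i => fx f (x i)) 0) (fx f y)) := by
  classical
  have := h.gs.prob
  obtain ⟨L, c₀, hL, hc₀, hR⟩ := sp.riesz
  obtain ⟨C, c₁, hC, hc₁, hlat⟩ := reg.lattice hL
  obtain ⟨r, hr, hloc⟩ := h.loc (L + R)
  have hc := reg.c0
  have hc1 := reg.c1
  have hR0 := reg.R0
  have hK0 : 0 ≤ K 0 := (abs_nonneg _).trans (reg.bd 0)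
  refine ⟨L, hL, fun M => ?_⟩
  set Z := |M| + (12 * r + 1) + 2 * K 0 + 1 with hZ
  set M₁ := Z * (4 * C ^ 2 / c ^ 2) with hM₁
  have hM₁0 : 0 ≤ M₁ := by positivity
  obtain ⟨l, hl, hent⟩ := ent (P := P) (V := V) (M := 2 * M₁) hc₀ (by positivity)
  filter_upwards [hlat, asym reg.a0 reg.ad hL hl (A := 4 * C * r ^ 2 / (c ^ 2 * c₁))
    (by positivity), eventually_gt_atTop 0] with T ⟨κ, k1, k2, k3, k5, k6⟩ hasym hT
  obtain ⟨m, hm1, hm2⟩ := hasym _ k5
  set N := ⌊T / L⌋₊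
  set n : ℝ := ((Fintype.card (Fin d → Fin (2 * N + 1)) : ℕ) : ℝ) with hn
  have hn0 : 0 < n := lt_of_lt_of_le (by positivity) k5
  have hκ : 0 < κ := lt_of_lt_of_le (by positivity) k1
  have hN : L * N ≤ T := by rw [← le_div_iff₀' hL]; exact Nat.floor_le (by positivity)
  have hN' : T ≤ L * (N + 1) := by rw [← div_le_iff₀' hL]; exact (Nat.lt_floor_add_one _).le
  set g : Ω → ℝ := ∑ j, n⁻¹ • fx f (pt L N j) with hg
  have gV : g ∈ V := V.sum_mem fun j _ => V.smul_mem _ (h.mem _)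
  have cg : ∀ x, ‖x‖ ≤ T → c * κ / 2 ≤ cov P (fx f x) g ∧ cov P (fx f x) g ≤ C * κ := by
    intro x hx
    rw [cov_comm, h.gs.cov_left (fun j => h.mem _) (h.mem _), ← Finset.mul_sum]
    simp only [cov_comm _ (fx f x), h.cv]
    rw [← div_eq_inv_mul, le_div_iff₀ hn0, div_le_iff₀ hn0]
    exact k6 x hx
  have gg : cov P g g ≤ C * κ := by
    nth_rewrite 1 [hg]
    rw [h.gs.cov_left (fun j => h.mem _) gV, ← Finset.mul_sum, ← div_eq_inv_mul, div_le_iff₀' hn0]
    refine (Finset.sum_le_sum fun j _ => (cg _ ((norm_pt hL N j).trans hN)).2).trans_eq ?_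
    rw [Finset.sum_const, Finset.card_univ, nsmul_eq_mul]
  set MT := (2 * m + 1) * r with hMT
  refine ⟨1 / 4 * Real.exp (-((2 * MT / (c * κ)) ^ 2 * (C * κ))), by positivity,
    fun ι _ x hx => ?_⟩
  set ξ : ι → Ω → ℝ := fun i => fx f (x i) with hξ
  have ξV : ∀ i, ξ i ∈ V := fun i => h.mem _
  have low : ∀ k : ι → ℝ, 1 / 4 * Real.exp (-((2 * (MT + ‖k‖) / (c * κ)) ^ 2 * (C * κ))) ≤
      P.real (ev ξ k) := fun k => by
    refine le_trans ?_ (h.gs.shift ξV (V.smul_mem (2 * (MT + ‖k‖) / (c * κ)) gV)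
      (h.half hL (by linarith) hr hloc hm1 x fun i => (hx i).trans hN') fun i => ?_)
    · rw [cov_smul, cov_comm, cov_smul, ← mul_assoc _ _ (cov P g g), ← sq]
      gcongr
    · rw [cov_smul]
      calc _ ≤ MT + ‖k‖ := by linarith [(abs_le.1 (norm_le_pi_norm k i)).1]
        _ = 2 * (MT + ‖k‖) / (c * κ) * (c * κ / 2) := by field_simp
        _ ≤ _ := by gcongr; exact (cg _ (hx i)).1
  have pos : ∀ k, 0 < P.real (ev ξ k) := fun k => lt_of_lt_of_le (by positivity) (low k)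
  have low0 := low 0
  rw [norm_zero, add_zero] at low0
  refine ⟨pos, low0, fun hX y hy => ?_⟩
  have cmg : M₁ ≤ cm P (ev ξ 0) g := by
    have nn : ∀ ω ∈ ev ξ 0, ∀ j, 0 ≤ fx f (pt L N j) ω := fun ω hω j => by
      obtain ⟨i, hi⟩ := hX j
      simpa [← hi] using hω i
    have ge : ∀ ω, g ω = n⁻¹ * ∑ j, fx f (pt L N j) ω := fun ω => by
      simp [hg, Finset.mul_sum]
    refine h.gs.cm_ge gV (h.gs.ms_ev ξV 0) (pos 0) (fun ω hω => ?_) hM₁0 ?_
    · rw [ge]; exact mul_nonneg (by positivity) (Finset.sum_nonneg fun j _ => nn ω hω j)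
    refine (measureReal_mono fun ω hω => ?_).trans ((hent h.gs (fun j => h.mem (pt L N j))
      fun a => by simpa only [h.cv] using hR N a).trans ?_)
    · refine ⟨nn ω hω.1, ?_⟩
      have := hω.2
      rwa [mem_ofPred_eq, ge, ← div_eq_inv_mul, div_le_iff₀ hn0] at this
    · have e1 : (2 * MT / (c * κ)) ^ 2 * (C * κ) ≤
          4 * C * r ^ 2 / (c ^ 2 * c₁) * (2 * m + 1) ^ 2 * T ^ α := by
        rw [Real.rpow_neg hT.le, ← div_eq_mul_inv, div_le_iff₀ (by positivity)] at k1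
        calc _ = 4 * C * r ^ 2 / (c ^ 2 * c₁) * (2 * m + 1) ^ 2 * (c₁ / κ) := by
              rw [hMT]; field_simp; ring
          _ ≤ _ := by gcongr; rwa [div_le_iff₀' hκ]
      have e2 : Real.exp (-(l * n)) ≤
          Real.exp (-3) * Real.exp (-((2 * MT / (c * κ)) ^ 2 * (C * κ))) := by
        rw [← Real.exp_add]; gcongr; linarith
      have e3 : Real.exp (-3) ≤ 1 / 8 := by
        rw [Real.exp_neg, one_div]
        refine inv_anti₀ (by norm_num) ?_
        have := pow_le_pow_left₀ (by norm_num) (Real.add_one_le_exp 1) 3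
        rw [← Real.exp_nat_mul] at this
        norm_num at this ⊢
        exact this
      linarith [mul_le_mul_of_nonneg_right e3
        (Real.exp_pos (-((2 * MT / (c * κ)) ^ 2 * (C * κ)))).le]
  obtain ⟨σ, σ0, hσ, hcm⟩ := h.gs.pressure ξV pos
  have S1 : M₁ ≤ C * κ * ∑ i, σ i := by
    rw [hcm g gV] at cmg
    refine cmg.trans ?_
    rw [Finset.mul_sum]
    exact Finset.sum_le_sum fun i _ => by
      linarith [mul_le_mul_of_nonneg_left (cg _ (hx i)).2 (σ0 i)]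
  set mm : ι → ℝ := fun i => cm P (ev ξ 0) (ξ i) with hmm
  have hG : ∀ z, ‖z‖ ≤ T → c * κ * ∑ i, (if 12 * r + 1 < mm i then σ i else 0) - 2 * K 0 ≤
      ∑ i, (if 12 * r + 1 < mm i then σ i else 0) * K (x i - z) := by
    intro z hz
    set Y : ι → Prop := fun i => 12 * r + 1 < mm i ∧ ‖x i - z‖ ≤ R
    have d1 := h.gs.drop ξV Y (pos 0) hr (u := 12 * r) (by positivity)
      (hloc _ (fun i : {i // Y i} => x i) z fun i => i.2.2.trans (by linarith))
      (k := fun i => if Y i then -1 else 0) (fun i hi => by rw [if_pos hi]; linarith [hi.1])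
      fun i hi => by rw [if_neg hi]
    have d2 := (Real.log_le_log (by
      have := pos 0; rw [show 1 - 6 * r / (12 * r) = 1 / 2 by field_simp; norm_num]; positivity)
      d1).trans (hσ _)
    rw [show 1 - 6 * r / (12 * r) = 2⁻¹ by field_simp; norm_num,
      Real.log_mul (pos 0).ne' (by norm_num), Real.log_inv] at d2
    have d3 : ∑ i, -(σ i * if Y i then -1 else 0) ≤ 1 := by
      rw [Finset.sum_neg_distrib]; linarith [Real.log_two_lt_d9]
    have d4 : ∑ i, (c * κ * (if 12 * r + 1 < mm i then σ i else 0) -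
        2 * K 0 * -(σ i * if Y i then -1 else 0)) ≤
        ∑ i, (if 12 * r + 1 < mm i then σ i else 0) * K (x i - z) := by
      refine Finset.sum_le_sum fun i _ => ?_
      by_cases h1 : 12 * r + 1 < mm i
      · by_cases h2 : ‖x i - z‖ ≤ R
        · rw [if_pos h1, if_pos ⟨h1, h2⟩]
          have : c * κ - 2 * K 0 ≤ K (x i - z) := by
            linarith [(abs_le.1 (reg.bd (x i - z))).1, mul_le_of_le_one_left hκ.le hc1]
          linarith [mul_le_mul_of_nonneg_left this (σ0 i)]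
        · rw [if_pos h1, if_neg fun h3 => h2 h3.2]
          linarith [mul_le_mul_of_nonneg_left
            (k3 _ (not_le.1 h2).le (by linarith [norm_sub_le (x i) z, hx i])) (σ0 i)]
      · rw [if_neg h1, if_neg fun h3 => h1 h3.1]; simp
    rw [Finset.sum_sub_distrib, ← Finset.mul_sum, ← Finset.mul_sum] at d4
    linarith [mul_le_mul_of_nonneg_left d3 hK0]
  have hγ : c ^ 2 * κ / (4 * C) ≤ c * κ := by
    rw [div_le_iff₀ (by positivity)]
    linarith [mul_le_mul_of_nonneg_left (hc1.trans (by linarith : 1 ≤ 4 * C)) (mul_pos hc hκ).le]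
  have big : Z ≤ c ^ 2 * κ / (4 * C) * ∑ i, σ i := by
    calc Z = c ^ 2 / (4 * C ^ 2) * M₁ := by rw [hM₁]; field_simp
      _ ≤ c ^ 2 / (4 * C ^ 2) * (C * κ * ∑ i, σ i) := by gcongr
      _ = _ := by field_simp
  have en := energy (m := mm) (E := fun i j => K (x i - x j)) (A := 12 * r + 1) (B := 2 * K 0) σ0 hγ
    (fun j => (hcm _ (ξV j)).trans (by simp only [hξ, h.cv])) (fun τ τ0 => by
      have c1 := h.gs.cs (V.sum_mem fun i (_ : i ∈ Finset.univ) => V.smul_mem (τ i) (ξV i)) gV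
      rw [h.gs.cov_left ξV gV, h.gs.cov_sum _ _ ξV ξV] at c1
      have c0 := cov_self_nonneg (P := P) (∑ i, τ i • ξ i)
      rw [h.gs.cov_sum _ _ ξV ξV] at c0
      simp only [hξ, h.cv] at c1 c0
      have c2 : c * κ / 2 * ∑ i, τ i ≤ ∑ i, τ i * cov P (fx f (x i)) g := by
        rw [Finset.mul_sum]
        exact Finset.sum_le_sum fun i _ => by
          linarith [mul_le_mul_of_nonneg_left (cg _ (hx i)).1 (τ0 i)]
      have c3 := (pow_le_pow_left₀ (mul_nonneg (by positivity)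
        (Finset.sum_nonneg fun i _ => τ0 i)) c2 2).trans
        (c1.trans (mul_le_mul_of_nonneg_left gg c0))
      rw [← div_le_iff₀ (by positivity)] at c3
      refine le_trans (le_of_eq ?_) c3
      field_simp; ring)
    (fun j => hG _ (hx j)) (by linarith [abs_nonneg M])
  have e : ∀ i, (if 12 * r + 1 < mm i then σ i else 0) = σ i := fun i => by
    split_ifs with h1
    exacts [rfl, (en i (not_lt.1 h1)).symm]
  have := hG y hy
  simp only [e] at this
  rw [hcm _ (h.mem y)]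
  simp only [hξ, h.cv]
  linarith [le_abs_self M, mul_le_mul_of_nonneg_right hγ
    (Finset.sum_nonneg fun i (_ : i ∈ Finset.univ) => σ0 i)]

end Pool.Agent.MP_0502fb_pr.H57
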