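import Mathlib
import Pool.Agent.MP_0502fb_pr.H57.Repel

/-!
Two-sided bounds for the conditional moment generating function of a high field.
-/

namespace Pool.Agent.MP_0502fb_pr.H57

open MeasureTheory ProbabilityTheory Set Filter Topology
open scoped ENNReal NNReal

variable {d : ℕ} {Ω : Type*} [MeasurableSpace Ω] {P : Measure Ω} {V : Submodule ℝ (Ω → ℝ)}
  {f : Ω → C(Fin d → ℝ, ℝ)} {K : (Fin d → ℝ) → ℝ} {α c R : ℝ}
  {ι : Type*} [Fintype ι] {ξ : ι → Ω → ℝ}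

lemma GS.tilt (h : GS P V) (hξ : ∀ i, ξ i ∈ V) {η : Ω → ℝ} (hη : η ∈ V) :
    ∫ ω in ev ξ 0, Real.exp (η ω) ∂P =
      P.real (ev ξ fun i => cov P (ξ i) η) * Real.exp (cov P η η / 2) := by
  have := (h.one hξ hη 0).1
  rw [zero_add] at this
  simp only [this, Real.exp_sub, integral_div, div_mul_cancel₀ _ (Real.exp_pos _).ne']

lemma GS.mgf_up (h : GS P V) (hξ : ∀ i, ξ i ∈ V) {η : Ω → ℝ} (hη : η ∈ V)
    (h0 : 0 < P.real (ev ξ 0)) : ∫ ω in ev ξ 0, Real.exp (η ω) ∂P ≤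
      P.real (ev ξ 0) * Real.exp (cm P (ev ξ 0) η) * Real.exp (cov P η η / 2) := by
  have := (h.one hξ hη 0).2.2 h0
  rw [zero_add] at this
  rw [h.tilt hξ hη]
  gcongr

lemma GS.mgf (h : GS P V) {η : Ω → ℝ} (hη : η ∈ V) :
    ∫ ω, Real.exp (η ω) ∂P = Real.exp (cov P η η / 2) := by
  have := h.prob
  simpa [ev] using h.tilt (ι := Empty) (ξ := fun _ => η) (fun _ => hη) hη

lemma GS.boxes (h : GS P V) (hξ : ∀ i, ξ i ∈ V) (hp : ∀ k, 0 < P.real (ev ξ k)) {κ : Type*}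
    [DecidableEq κ] (β : ι → κ) {w : κ → ℝ} (hw : ∀ q, 0 < w q) {W θ : ℝ}
    (hW : ∀ s : Finset κ, ∑ q ∈ s, w q ≤ W) (h0 : θ ≤ Real.log (P.real (ev ξ 0)))
    (hq : ∀ q, θ ≤ Real.log (P.real (ev ξ fun i => if β i = q then -W else 0))) {k : ι → ℝ}
    (hk : ∀ i, -w (β i) ≤ k i) : θ ≤ Real.log (P.real (ev ξ k)) := by
  rcases isEmpty_or_nonempty ι with hι | hι
  · rwa [Subsingleton.elim k 0]
  set S := Finset.univ.image β
  have hS : 0 < ∑ q ∈ S, w q := Finset.sum_pos (fun q _ => hw q) (by simp [S])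
  obtain ⟨q, -, h1⟩ := (h.concave hξ hp).exists_le_of_centerMass (t := S)
    (p := fun q i => if β i = q then -∑ q ∈ S, w q else 0) (fun q _ => (hw q).le) hS
    fun _ _ => mem_univ _
  refine (hq q).trans ((Real.log_le_log (hp _) (h.ev_mono fun i => ?_)).trans
    (h1.trans (Real.log_le_log (hp _) (h.ev_mono fun i => le_of_eq_of_le ?_ (hk i)))))
  · split_ifs
    exacts [neg_le_neg (hW S), le_rfl]
  · simp only [Finset.centerMass, Pi.smul_apply, Finset.sum_apply, smul_eq_mul, mul_ite, mul_zero,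
      Finset.sum_ite_eq]
    rw [if_pos (Finset.mem_image_of_mem β (Finset.mem_univ i))]
    field_simp

lemma box_sum : ∃ Z : ℝ, ∀ s : Finset (Fin d → ℤ), ∑ q ∈ s, ∏ l, (1 + (q l : ℝ) ^ 2)⁻¹ ≤ Z := by
  classical
  have h1 : Summable fun n : ℤ => (1 + (n : ℝ) ^ 2)⁻¹ := by
    refine (Real.summable_one_div_int_pow.2 one_lt_two).of_norm_bounded_eventually ?_
    filter_upwards [eventually_cofinite_ne 0] with n hn
    have : (n : ℝ) ≠ 0 := by exact_mod_cast hn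
    rw [Real.norm_of_nonneg (by positivity), one_div]
    exact inv_anti₀ (by positivity) (by linarith)
  refine ⟨∏ _l : Fin d, ∑' n : ℤ, (1 + (n : ℝ) ^ 2)⁻¹, fun s => ?_⟩
  refine (Finset.sum_le_sum_of_subset_of_nonneg (t := Fintype.piFinset fun l => s.image (· l))
    (fun q hq => Fintype.mem_piFinset.2 fun l => Finset.mem_image_of_mem _ hq)
    fun _ _ _ => by positivity).trans ?_
  rw [← Finset.prod_univ_sum (fun l => s.image (· l)) fun _ (n : ℤ) => (1 + (n : ℝ) ^ 2)⁻¹]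
  exact Finset.prod_le_prod (fun _ _ => by positivity) fun l _ =>
    h1.sum_le_tsum _ fun _ _ => by positivity

lemma peetre (x y : Fin d → ℝ) : ∏ l, (1 + (x - y) l ^ 2)⁻¹ ≤
    (2 * (1 + (1 + ‖y‖) ^ 2)) ^ d * ∏ l, (1 + (⌊x l⌋ : ℝ) ^ 2)⁻¹ := by
  refine (Finset.prod_le_prod (g := fun l => 2 * (1 + (1 + ‖y‖) ^ 2) * (1 + (⌊x l⌋ : ℝ) ^ 2)⁻¹)
    (fun _ _ => by positivity) fun l _ => ?_).trans (by simp [Finset.prod_mul_distrib])
  have h1 := abs_le.1 (norm_le_pi_norm y l)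
  have h2 : (⌊x l⌋ - x l + y l) ^ 2 ≤ (1 + ‖y‖) ^ 2 :=
    sq_le_sq' (by linarith [Int.lt_floor_add_one (x l)]) (by linarith [Int.floor_le (x l)])
  rw [← div_eq_mul_inv, le_div_iff₀ (by positivity), ← div_eq_inv_mul, div_le_iff₀ (by positivity),
    Pi.sub_apply]
  nlinarith [sq_nonneg (x l - y l - (⌊x l⌋ - x l + y l)), sq_nonneg (x l - y l),
    mul_nonneg (sq_nonneg (x l - y l)) (sq_nonneg (1 + ‖y‖)), sq_nonneg (1 + ‖y‖)]

theorem Fld.mgf_low (h : Fld P V f K) (sp : Sp K) {J : Type*} [Fintype J] (y : J → Fin d → ℝ)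
    (b : J → ℝ) {θ : ℝ} (hθ : 0 < θ) : ∃ M : ℝ, ∀ (ι : Type) [Fintype ι] (x : ι → Fin d → ℝ),
      (∀ k, 0 < P.real (ev (fun i => fx f (x i)) k)) →
      (∀ i, M ≤ cm P (ev (fun i => fx f (x i)) 0) (fx f (x i))) →
      P.real (ev (fun i => fx f (x i)) 0) ^ 2 *
        Real.exp (cov P (∑ j, b j • fx f (y j)) (∑ j, b j • fx f (y j)) - θ) ≤
        (∫ ω in ev (fun i => fx f (x i)) 0, Real.exp ((∑ j, b j • fx f (y j)) ω) ∂P) *
          ∫ ω in ev (fun i => fx f (x i)) 0, Real.exp (-(∑ j, b j • fx f (y j)) ω) ∂P := by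
  classical
  set B := (∑ j, b j ^ 2) * Fintype.card J + 1 with hB
  have hB0 : 0 < B := by positivity
  obtain ⟨C, K₁, hC, hK₁, hK₂⟩ := sp.split (θ / (4 * B)) (by positivity)
  obtain ⟨Z, hZ⟩ := box_sum (d := d)
  obtain ⟨r, hr, hloc⟩ := h.loc 1
  set A := 2 * (∑ j, |b j| * (C * (2 * (1 + (1 + ‖y j‖) ^ 2)) ^ d)) + 1 with hA
  have hA0 : 0 < A := by positivity
  have he : 0 < 1 - Real.exp (-(θ / 2)) := sub_pos.2 (Real.exp_lt_one_iff.2 (by linarith))
  refine ⟨6 * r / (1 - Real.exp (-(θ / 2))) + A * Z, fun ι _ x pos hM => ?_⟩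
  set ξ : ι → Ω → ℝ := fun i => fx f (x i) with hξ
  have ξV : ∀ i, ξ i ∈ V := fun i => h.mem _
  set η := ∑ j, b j • fx f (y j) with hη
  have ηV : η ∈ V := V.sum_mem fun j _ => V.smul_mem _ (h.mem _)
  set G : (ι → ℝ) → ℝ := fun k => Real.log (P.real (ev ξ k)) with hG
  set h₁ : ι → ℝ := fun i => 2 * ∑ j, b j * K₁ (x i - y j)
  set h₂ : ι → ℝ := fun i => 2 * ∑ j, b j * (K (x i - y j) - K₁ (x i - y j))
  have b1 : ∀ k : ι → ℝ, (∀ i, -|h₁ i| ≤ k i) → G 0 - θ / 2 ≤ G k := fun k hk => by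
    refine h.gs.boxes ξV pos (fun i l => ⌊x i l⌋)
      (w := fun q : Fin d → ℤ => A * ∏ l, (1 + (q l : ℝ) ^ 2)⁻¹) (fun q => by positivity)
      (W := A * Z) (fun s => by rw [← Finset.mul_sum]; gcongr; exact hZ s) (by linarith)
      (fun q => ?_) fun i => le_trans (neg_le_neg ?_) (hk i)
    · have d1 := h.gs.drop ξV (fun i => (fun l => ⌊x i l⌋) = q) (pos 0) hr
        (u := 6 * r / (1 - Real.exp (-(θ / 2)))) (by positivity)
        (hloc _ (fun i : {i // (fun l => ⌊x i l⌋) = q} => x i) (fun l => q l) fun i =>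
          (pi_norm_le_iff_of_nonneg zero_le_one).2 fun l => by
            rw [Pi.sub_apply, ← congrFun i.2 l, Real.norm_eq_abs, abs_le]
            constructor <;> linarith [Int.lt_floor_add_one (x i l), Int.floor_le (x i l)])
        (k := fun i => if (fun l => ⌊x i l⌋) = q then -(A * Z) else 0)
        (fun i hi => by rw [if_pos hi]; linarith [hM i]) fun i hi => by rw [if_neg hi]
      rw [show 1 - 6 * r / (6 * r / (1 - Real.exp (-(θ / 2)))) = Real.exp (-(θ / 2)) by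
        field_simp; ring] at d1
      have d2 := Real.log_le_log (by have := pos 0; positivity) d1
      rwa [Real.log_mul (pos 0).ne' (by positivity), Real.log_exp] at d2
    · rw [abs_mul, abs_two, hA, add_mul, mul_assoc, Finset.sum_mul]
      refine le_add_of_le_of_nonneg ?_ (by positivity)
      gcongr
      refine (Finset.abs_sum_le_sum_abs _ _).trans (Finset.sum_le_sum fun j _ => ?_)
      rw [abs_mul, mul_assoc, mul_assoc]
      gcongr
      exact (hK₁ _).trans (by gcongr; exact peetre _ _)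
  have b2 : 2 * G 0 - θ ≤ G h₂ + G (-h₂) := by
    have d1 := h.gs.hbd ξV 0 h₂ (r := θ) (fun a => ?_) hθ.le
    · have d2 := Real.log_le_log (by have := pos 0; positivity) d1
      rw [Real.log_mul (by have := pos 0; positivity) (by positivity), Real.log_exp, Real.log_pow,
        Real.log_mul (pos _).ne' (pos _).ne', zero_add, zero_sub] at d2
      simpa using d2
    have q0 := cov_self_nonneg (P := P) (∑ i, a i • ξ i)
    rw [h.gs.cov_sum _ _ ξV ξV] at q0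
    simp only [hξ, h.cv] at q0 ⊢
    have e : ∑ i, a i * h₂ i = 2 * ∑ j, b j * ∑ i, a i * (K (x i - y j) - K₁ (x i - y j)) := by
      simp only [h₂, Finset.mul_sum]
      rw [Finset.sum_comm]
      exact Finset.sum_congr rfl fun j _ => Finset.sum_congr rfl fun i _ => by ring
    have d1 := Finset.sum_le_sum fun j (_ : j ∈ Finset.univ) => hK₂ ι x a (y j)
    rw [Finset.sum_const, Finset.card_univ, nsmul_eq_mul] at d1
    rw [e, mul_pow]
    calc _ ≤ 2 ^ 2 * ((∑ j, b j ^ 2) * (Fintype.card J *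
            (θ / (4 * B) * ∑ i, ∑ j, a i * a j * K (x i - x j)))) := by
          gcongr
          exact (Finset.sum_mul_sq_le_sq_mul_sq _ _ _).trans (by gcongr)
      _ ≤ 2 ^ 2 * (B * (θ / (4 * B) * ∑ i, ∑ j, a i * a j * K (x i - x j))) := by
          rw [← mul_assoc (∑ j, b j ^ 2)]; gcongr; linarith
      _ = _ := by field_simp; norm_num
  have cv : ∀ i, cov P (ξ i) η = 2⁻¹ * h₁ i + 2⁻¹ * h₂ i := fun i => by
    rw [cov_comm, h.gs.cov_left (fun j => h.mem _) (ξV i)]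
    simp only [hξ, cov_comm _ (fx f (x i)), h.cv, h₁, h₂, mul_sub, Finset.sum_sub_distrib]
    ring
  have cc : ∀ k k', 2⁻¹ * G k + 2⁻¹ * G k' ≤ G ((2⁻¹ : ℝ) • k + (2⁻¹ : ℝ) • k') := fun k k' =>
    (h.gs.concave ξV pos).2 (mem_univ _) (mem_univ _) (by norm_num) (by norm_num) (by norm_num)
  have c1 := cc h₁ h₂
  have c2 := cc (-h₁) (-h₂)
  have c3 := b1 h₁ fun i => neg_abs_le _
  have c4 := b1 (-h₁) fun i => neg_le_neg (le_abs_self _)
  have t1 := h.gs.tilt ξV ηV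
  have t2 := h.gs.tilt ξV (V.smul_mem (-1) ηV)
  have e1 : (fun i => cov P (ξ i) η) = (2⁻¹ : ℝ) • h₁ + (2⁻¹ : ℝ) • h₂ := funext cv
  have e2 : (fun i => cov P (ξ i) ((-1 : ℝ) • η)) = (2⁻¹ : ℝ) • -h₁ + (2⁻¹ : ℝ) • -h₂ :=
    funext fun i => by rw [cov_smul, cv]; simp; ring
  rw [e2, cov_smul, cov_comm, cov_smul] at t2
  simp only [Pi.smul_apply, smul_eq_mul, neg_mul, one_mul, neg_neg] at t2
  rw [t1, t2, e1, ← Real.exp_log (pos 0), ← Real.exp_log (pos (_ + _)),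
    ← Real.exp_log (pos ((2⁻¹ : ℝ) • -h₁ + _))]
  simp only [sq, ← Real.exp_add, Real.exp_le_exp]
  simp only [hG] at c1 c2 c3 c4 b2
  linarith

end Pool.Agent.MP_0502fb_pr.H57
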