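import Mathlib
import Pool.Agent.MP_0502fb_pr.H57.GS

/-!
Weak convergence from convergence of moment generating functions, and interpolation on nets.
-/

namespace Pool.Agent.MP_0502fb_pr.H57

open MeasureTheory ProbabilityTheory Set Filter Topology
open scoped ENNReal NNReal BoundedContinuousFunction

variable {J : Type*} [Fintype J]

lemma mgf_lim {X : Type*} [TopologicalSpace X] [MeasurableSpace X] [OpensMeasurableSpace X]
    {γ : Type*} {l : Filter γ} [l.NeBot] {ν : γ → ProbabilityMeasure X} {ν₀ : ProbabilityMeasure X}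
    (hν : Tendsto ν l (𝓝 ν₀)) {F : X → ℝ} (hF : Continuous F) (h0 : ∀ x, 0 ≤ F x) {a b : ℝ}
    (i1 : ∀ t, Integrable F (ν t)) (i2 : ∀ t, Integrable (fun x => F x * F x) (ν t))
    (t1 : Tendsto (fun t => ∫ x, F x ∂ν t) l (𝓝 a))
    (t2 : Tendsto (fun t => ∫ x, F x * F x ∂ν t) l (𝓝 b)) : ∫ x, F x ∂ν₀ = a := by
  let Φ : ℕ → X →ᵇ ℝ := fun n => .ofNormedAddCommGroup (fun x => min (F x) (n + 1)) (by fun_prop)
    (n + 1) fun x => by
      rw [Real.norm_of_nonneg (le_min (h0 x) (by positivity))]; exact min_le_right _ _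
  have iΦ : ∀ (n : ℕ) (m : ProbabilityMeasure X), Integrable (fun x => min (F x) (n + 1)) m :=
    fun n m => (Φ n).integrable _
  have h1 : ∀ n : ℕ, Tendsto (fun t => ∫ x, min (F x) (n + 1) ∂ν t) l
      (𝓝 (∫ x, min (F x) (n + 1) ∂ν₀)) := fun n => ProbabilityMeasure.tendsto_iff_forall_integral_tendsto.1 hν (Φ n)
  have h2 : ∀ n : ℕ, ∫ x, min (F x) (n + 1) ∂ν₀ ≤ a := fun n => le_of_tendsto_of_tendsto' (h1 n) t1
    fun t => integral_mono (iΦ n _) (i1 t) fun x => min_le_left _ _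
  have h3 : ∀ n : ℕ, a ≤ ∫ x, min (F x) (n + 1) ∂ν₀ + 1 / ((n : ℝ) + 1) * b := fun n =>
    le_of_tendsto_of_tendsto' t1 ((h1 n).add (t2.const_mul _)) fun t => by
      rw [← integral_const_mul, ← integral_add (iΦ n _) ((i2 t).const_mul _)]
      refine integral_mono (i1 t) ((iΦ n _).add ((i2 t).const_mul _)) fun x => ?_
      have := h0 x
      rcases le_total (F x) (n + 1) with h | h
      · simp only [min_eq_left h]; exact le_add_of_nonneg_right (by positivity)
      · simp only [min_eq_right h]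
        rw [one_div, ← div_eq_inv_mul, ← sub_le_iff_le_add', le_div_iff₀ (by positivity)]
        nlinarith
  have pt : ∀ x, Tendsto (fun n : ℕ => min (F x) (n + 1)) atTop (𝓝 (F x)) := fun x => by
    refine tendsto_const_nhds.congr' ?_
    filter_upwards [tendsto_natCast_atTop_atTop.eventually_ge_atTop (F x)] with n hn
    rw [min_eq_left (by linarith)]
  have i0 : Integrable F ν₀ := by
    refine ⟨hF.aestronglyMeasurable, ?_⟩
    have := lintegral_liminf_le' (μ := ν₀) (u := atTop)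
      (f := fun (n : ℕ) x => ‖min (F x) (n + 1)‖ₑ) fun n => by fun_prop
    simp only [fun x => (pt x).enorm.liminf_eq] at this
    refine this.trans_lt (lt_of_le_of_lt (liminf_le_of_frequently_le' (.of_forall fun n => ?_))
      (ENNReal.ofReal_lt_top (r := a)))
    rw [← ofReal_integral_norm_eq_lintegral_enorm (iΦ n _)]
    refine ENNReal.ofReal_le_ofReal (le_of_eq_of_le ?_ (h2 n))
    exact integral_congr_ae (.of_forall fun x =>
      Real.norm_of_nonneg (le_min (h0 x) (by positivity)))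
  have h4 := tendsto_integral_of_dominated_convergence (μ := ν₀) F
    (fun n : ℕ => (iΦ n _).1) i0 (fun n => .of_forall fun x => by
      rw [Real.norm_of_nonneg (le_min (h0 x) (by positivity))]; exact min_le_left _ _)
    (.of_forall pt)
  refine le_antisymm (le_of_tendsto' h4 h2) ?_
  simpa using ge_of_tendsto' (h4.add
    (tendsto_one_div_add_atTop_nhds_zero_nat.mul_const b)) h3

lemma weak_of_mgf {γ : Type*} {l : Filter γ} (ν : γ → ProbabilityMeasure (J → ℝ))
    (μ : ProbabilityMeasure (J → ℝ))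
    (hμ : ∀ a : J → ℝ, Integrable (fun y : J → ℝ => Real.exp (∑ j, a j * y j)) μ)
    (hν : ∀ t (a : J → ℝ), Integrable (fun y : J → ℝ => Real.exp (∑ j, a j * y j)) (ν t))
    (h : ∀ a : J → ℝ, Tendsto (fun t => ∫ y : J → ℝ, Real.exp (∑ j, a j * y j) ∂ν t) l
      (𝓝 (∫ y : J → ℝ, Real.exp (∑ j, a j * y j) ∂μ))) : Tendsto ν l (𝓝 μ) := by
  classical
  let F : (J → ℝ) → ℝ := fun y => ∑ p : J × Bool,
    Real.exp (∑ j, (Pi.single p.1 (if p.2 then 1 else -1) : J → ℝ) j * y j)
  have hF : ∀ y, ‖y‖ ≤ F y := fun y => by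
    have h0 : 0 ≤ F y := by positivity
    refine (pi_norm_le_iff_of_nonneg h0).2 fun j => le_trans ?_ (Finset.single_le_sum
      (fun _ _ => (Real.exp_pos _).le) (Finset.mem_univ (j, decide (0 ≤ y j))))
    refine le_trans (le_of_eq ?_) ((le_add_of_nonneg_right zero_le_one).trans (Real.add_one_le_exp _))
    by_cases h : 0 ≤ y j
    · simp [Pi.single_apply, h, abs_of_nonneg h]
    · simp [Pi.single_apply, h, abs_of_neg (not_le.1 h)]
  have iF : ∀ t, Integrable F (ν t) := fun t => integrable_finsetSum _ fun p _ => hν t _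
  obtain ⟨B, hB⟩ : ∃ B : ℝ, ∀ᶠ t in l, ∫ y, F y ∂ν t ≤ B := by
    simp only [F, fun t => integral_finsetSum (μ := (ν t : Measure (J → ℝ))) Finset.univ
      fun (p : J × Bool) _ => hν t (Pi.single p.1 (if p.2 then 1 else -1))]
    exact ⟨_, (tendsto_finsetSum _ fun p _ => h _).eventually (ge_mem_nhds (lt_add_one _))⟩
  have tight : IsTightMeasureSet {((m : ProbabilityMeasure (J → ℝ)) : Measure (J → ℝ)) |
      m ∈ ν '' {t | ∫ y, F y ∂ν t ≤ B}} := by
    refine isTightMeasureSet_iff_exists_isCompact_measure_compl_le.2 fun ε hε => ?_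
    obtain ⟨e, h1, h2⟩ := ENNReal.lt_iff_exists_nnreal_btwn.1 hε
    have he : (0 : ℝ) < e := by exact_mod_cast h1
    refine ⟨Metric.closedBall 0 ((|B| + 1) / e), isCompact_closedBall _ _, ?_⟩
    rintro _ ⟨_, ⟨t, ht, rfl⟩, rfl⟩
    have h3 := (mul_meas_ge_le_integral_of_nonneg (.of_forall fun y => (norm_nonneg y).trans (hF y))
      (iF t) ((|B| + 1) / e)).trans ht
    refine le_trans ((measure_mono fun y hy => ?_).trans
      ((ENNReal.toReal_le_toReal (measure_ne_top _ {y | (|B| + 1) / e ≤ F y}) (by simp)).1 ?_)) h2.le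
    · exact (not_le.1 (mt mem_closedBall_zero_iff.2 hy)).le.trans (hF y)
    · rw [div_mul_eq_mul_div, div_le_iff₀ he] at h3
      refine le_of_mul_le_mul_left (h3.trans ?_) (by positivity : 0 < |B| + 1)
      exact mul_le_mul_of_nonneg_right (by linarith [le_abs_self B]) he.le
  refine (isCompact_closure_of_isTightMeasureSet tight).tendsto_nhds_of_unique_mapClusterPt
    (hB.mono fun t ht => subset_closure ⟨t, ht, rfl⟩) fun ν₀ _ h0 => ?_
  obtain ⟨U, hU, h0⟩ := mapClusterPt_iff_ultrafilter.1 h0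
  have e : ∀ a : J → ℝ, ∫ y : J → ℝ, Real.exp (∑ j, a j * y j) ∂ν₀ =
      ∫ y : J → ℝ, Real.exp (∑ j, a j * y j) ∂μ := by
    intro a
    have e2 : ∀ y : J → ℝ, Real.exp (∑ j, a j * y j) * Real.exp (∑ j, a j * y j) =
      Real.exp (∑ j, (a + a) j * y j) := fun y => by
        simp [← Real.exp_add, add_mul, Finset.sum_add_distrib]
    exact mgf_lim h0 (by fun_prop) (fun y => (Real.exp_pos _).le) (fun t => hν t a)
      (fun t => by simpa only [e2] using hν t _) ((h a).mono_left hU)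
      (by simpa only [e2] using (h _).mono_left hU)
  refine ProbabilityMeasure.toMeasure_injective (ext_lin fun a => ?_).symm
  have e3 : ∀ (t : ℝ) (y : J → ℝ), t * ∑ j, a j * y j = ∑ j, (t • a) j * y j := fun t y => by
    simp [Finset.mul_sum, mul_assoc]
  have e4 : mgf (fun y : J → ℝ => ∑ j, a j * y j) μ =
      mgf (fun y : J → ℝ => ∑ j, a j * y j) ν₀ := funext fun t => by
    simp only [mgf, e3, e]
  have e5 : integrableExpSet (fun y : J → ℝ => ∑ j, a j * y j) μ = univ := eq_univ_of_forall fun t => by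
    simpa only [integrableExpSet, mem_ofPred_eq, e3] using hμ _
  simpa only [complexMGF, mul_comm Complex.I] using
    eqOn_complexMGF_of_mgf e4 (x := Complex.I) (by simp [e5])

lemma exists_interp {D : Type*} [MetricSpace D] {Q : Set D} (hQ : IsCompact Q) (hne : Q.Nonempty)
    {δ : ℝ} (hδ : 0 < δ) : ∃ (Z : Finset D) (ψ : Z → C(D, ℝ)), (∀ z x, 0 ≤ ψ z x) ∧
      (∀ x ∈ Q, ∑ z, ψ z x = 1) ∧ (∀ z ∈ Z, z ∈ Q) ∧ ∀ z x, ψ z x ≠ 0 → dist x z ≤ δ := by
  obtain ⟨Z, h1, h2⟩ := hQ.elim_nhds_subcover (fun z => Metric.ball z δ)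
    fun z _ => Metric.ball_mem_nhds z hδ
  let φ : Z → D → ℝ := fun z x => max 0 (δ - dist x z)
  have φ0 : ∀ z x, 0 ≤ φ z x := fun z x => le_max_left _ _
  have s0 : ∀ x ∈ Q, 0 < ∑ z, φ z x := fun x hx => by
    obtain ⟨z, hz, h3⟩ := mem_iUnion₂.1 (h2 hx)
    exact Finset.sum_pos' (fun z _ => φ0 z x)
      ⟨⟨z, hz⟩, Finset.mem_univ _, lt_max_of_lt_right (sub_pos.2 h3)⟩
  have s1 : ∀ x, 0 < ∑ z, φ z x + Metric.infDist x Q := fun x => by
    by_cases hx : x ∈ Q
    · exact add_pos_of_pos_of_nonneg (s0 x hx) Metric.infDist_nonneg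
    · exact add_pos_of_nonneg_of_pos (Finset.sum_nonneg fun z _ => φ0 z x)
        ((hQ.isClosed.notMem_iff_infDist_pos hne).1 hx)
  have := Metric.continuous_infDist_pt Q
  refine ⟨Z, fun z => ⟨fun x => φ z x / (∑ z, φ z x + Metric.infDist x Q),
    Continuous.div (by fun_prop) (by fun_prop) fun x => (s1 x).ne'⟩,
    fun z x => div_nonneg (φ0 z x) (s1 x).le, fun x hx => ?_, h1, fun z x h3 => ?_⟩
  · simp only [ContinuousMap.coe_mk, ← Finset.sum_div, Metric.infDist_zero_of_mem hx, add_zero]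
    exact div_self (s0 x hx).ne'
  · by_contra! h4
    exact h3 (by simp [φ, max_eq_left (sub_nonpos.2 h4.le)])

end Pool.Agent.MP_0502fb_pr.H57
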