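import Mathlib
import Pool.Agent.MP_0502fb_pr.H57.Mgf
import Pool.Agent.MP_0502fb_pr.H57.Weak

/-!
From finitely many walls to the whole cube, and convergence of finite-dimensional laws.
-/

namespace Pool.Agent.MP_0502fb_pr.H57

open MeasureTheory ProbabilityTheory Set Filter Topology
open scoped ENNReal NNReal BoundedContinuousFunction

variable {d : ℕ} {Ω : Type*} [MeasurableSpace Ω] {P : Measure Ω} {V : Submodule ℝ (Ω → ℝ)}
  {f : Ω → C(Fin d → ℝ, ℝ)} {K : (Fin d → ℝ) → ℝ} {α c R T : ℝ}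

/-- the persistence event -/
def AT (f : Ω → C(Fin d → ℝ, ℝ)) (T : ℝ) : Set Ω := {ω | ∀ x, ‖x‖ ≤ T → 0 ≤ f ω x}

omit [MeasurableSpace Ω] in
lemma approx (f : Ω → C(Fin d → ℝ, ℝ)) (hT : 0 ≤ T) {ι : Type} (x₀ : ι → Fin d → ℝ)
    (h0 : ∀ i, ‖x₀ i‖ ≤ T) : ∃ x : (n : ℕ) → ι ⊕ Fin n → Fin d → ℝ, (∀ n i, ‖x n i‖ ≤ T) ∧
      (∀ n i, x n (Sum.inl i) = x₀ i) ∧ Antitone (fun n => ev (fun i => fx f (x n i)) 0) ∧
      ⋂ n, ev (fun i => fx f (x n i)) 0 = AT f T := by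
  have : Nonempty {x : Fin d → ℝ // ‖x‖ ≤ T} := ⟨⟨0, by simpa using hT⟩⟩
  let z := TopologicalSpace.denseSeq {x : Fin d → ℝ // ‖x‖ ≤ T}
  have hx : ∀ (n : ℕ) (i : ι ⊕ Fin n), ‖Sum.elim x₀ (fun i : Fin n => (z i).1) i‖ ≤ T :=
      fun n i => by
    rcases i with i | i
    exacts [h0 i, (z i).2]
  refine ⟨fun n => Sum.elim x₀ fun i => (z i).1, hx, fun _ _ => rfl, fun n m hnm ω hω i => ?_,
    subset_antisymm (fun ω hω x hx => ?_) (subset_iInter fun n ω hω i => ?_)⟩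
  · rcases i with i | i
    exacts [hω (Sum.inl i), hω (Sum.inr (Fin.castLE hnm i))]
  · refine (TopologicalSpace.denseRange_denseSeq _).induction_on
      (p := fun x : {x : Fin d → ℝ // ‖x‖ ≤ T} => 0 ≤ f ω x.1) ⟨x, hx⟩
      (isClosed_le continuous_const (by fun_prop)) fun n => ?_
    simpa [fx] using mem_iInter.1 hω (n + 1) (Sum.inr (Fin.last n))
  · simpa [fx] using hω _ (hx n i)

lemma lim_facts [IsFiniteMeasure P] {S : ℕ → Set Ω} {A : Set Ω} (ms : ∀ n, MeasurableSet (S n))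
    (anti : Antitone S) (hA : ⋂ n, S n = A) :
    Tendsto (fun n => P.real (S n)) atTop (𝓝 (P.real A)) ∧
    (∀ F : Ω → ℝ, Integrable F P →
      Tendsto (fun n => ∫ ω in S n, F ω ∂P) atTop (𝓝 (∫ ω in A, F ω ∂P))) ∧
    (0 < P.real A → (∀ n, 0 < P.real (S n)) ∧ ∀ F : Ω → ℝ, Integrable F P →
      Tendsto (fun n => cm P (S n) F) atTop (𝓝 (cm P A F))) := by
  subst hA
  have h1 : ∀ F : Ω → ℝ, Integrable F P →
      Tendsto (fun n => ∫ ω in S n, F ω ∂P) atTop (𝓝 (∫ ω in ⋂ n, S n, F ω ∂P)) := fun F hF =>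
    tendsto_setIntegral_of_antitone ms anti ⟨0, hF.integrableOn⟩
  have h2 : Tendsto (fun n => P.real (S n)) atTop (𝓝 (P.real (⋂ n, S n))) := by
    simpa using h1 (fun _ => 1) (integrable_const _)
  exact ⟨h2, h1, fun h0 => ⟨fun n => h0.trans_le (measureReal_mono (iInter_subset _ n)),
    fun F hF => (h1 F hF).div h2 h0.ne'⟩⟩

lemma Fld.ms_AT (h : Fld P V f K) (hT : 0 ≤ T) : MeasurableSet (AT f T) := by
  obtain ⟨x, -, -, -, h1⟩ := approx f hT (ι := Empty) (fun _ => 0) (by simp)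
  exact h1 ▸ MeasurableSet.iInter fun n => h.gs.ms_ev (fun _ => h.mem _) 0

lemma Fld.up (h : Fld P V f K) (hT : 0 ≤ T) (h0 : 0 < P.real (AT f T)) {η : Ω → ℝ} (hη : η ∈ V) :
    ∫ ω in AT f T, Real.exp (η ω) ∂P ≤
      P.real (AT f T) * Real.exp (cm P (AT f T) η) * Real.exp (cov P η η / 2) := by
  have := h.gs.prob
  obtain ⟨x, -, -, h1, h2⟩ := approx f hT (ι := Empty) (fun _ => 0) (by simp)
  obtain ⟨t1, t2, t3⟩ := lim_facts (P := P) (fun n => h.gs.ms_ev (fun _ => h.mem _) 0) h1 h2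
  exact le_of_tendsto_of_tendsto' (t2 _ (h.gs.int_exp hη))
    ((t1.mul ((t3 h0).2 η (h.gs.int hη)).rexp).mul_const _) fun n =>
      h.gs.mgf_up (fun _ => h.mem _) hη ((t3 h0).1 n)

lemma Fld.conc (h : Fld P V f K) (hT : 0 ≤ T) (h0 : 0 < P.real (AT f T)) {η : ℕ → Ω → ℝ}
    (hη : ∀ j, η j ∈ V) {r u : ℝ} (hr : 0 < r) (hu : 0 < u)
    (h34 : 3 / 4 ≤ P.real {ω | ∀ j, |η j ω| ≤ r}) :
    P.real ({ω | ∃ j, 2 * u ≤ |η j ω - cm P (AT f T) (η j)|} ∩ AT f T) ≤
      P.real (AT f T) * (6 * r / u) := by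
  have := h.gs.prob
  obtain ⟨x, -, -, h1, h2⟩ := approx f hT (ι := Empty) (fun _ => 0) (by simp)
  obtain ⟨t1, -, t3⟩ := lim_facts (P := P) (fun n => h.gs.ms_ev (fun _ => h.mem _) 0) h1 h2
  have fin : ∀ N : ℕ, P.real ({ω | ∃ j < N, 2 * u ≤ |η j ω - cm P (AT f T) (η j)|} ∩ AT f T) ≤
      P.real (AT f T) * (6 * r / u) := fun N => by
    refine ge_of_tendsto (t1.mul_const _) ?_
    filter_upwards [eventually_all.2 fun j : Fin N =>
      Metric.tendsto_nhds.1 ((t3 h0).2 _ (h.gs.int (hη j))) u hu] with n hn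
    refine le_trans (measureReal_mono ?_) (h.gs.conc (fun _ => h.mem _) (η := fun j : Fin N => η j)
      (fun j => hη j) 0 ((t3 h0).1 n) hr hu (h34.trans (measureReal_mono fun ω hω j => hω j)))
    rintro ω ⟨⟨j, hj, h3⟩, h4⟩
    refine ⟨⟨⟨j, hj⟩, ?_⟩, mem_iInter.1 (h2 ▸ h4) n⟩
    have h5 := hn ⟨j, hj⟩
    rw [Real.dist_eq] at h5
    linarith [abs_sub_le (η j ω) (cm P (ev (fun i => fx f (x n i)) 0) (η j)) (cm P (AT f T) (η j))]
  have t4 := tendsto_measure_iUnion_atTop (μ := P) (s := fun N : ℕ =>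
    {ω | ∃ j < N, 2 * u ≤ |η j ω - cm P (AT f T) (η j)|} ∩ AT f T)
    fun n m hnm ω ⟨⟨j, hj, h3⟩, h4⟩ => ⟨⟨j, hj.trans_le hnm, h3⟩, h4⟩
  refine le_trans (measureReal_mono ?_) (le_of_tendsto'
    ((ENNReal.tendsto_toReal (measure_ne_top _ _)).comp t4) fin)
  exact fun ω ⟨⟨j, h3⟩, h4⟩ => mem_iUnion.2 ⟨j + 1, ⟨j, by simp, h3⟩, h4⟩

lemma Fld.pos (h : Fld P V f K) (reg : Reg K α c R) (sp : Sp K) (T : ℝ) :
    0 < P.real (AT f T) := by
  have := h.gs.prob
  obtain ⟨L, -, h1⟩ := h.repel reg sp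
  obtain ⟨T', ⟨b, hb, h2⟩, h3, h4⟩ :=
    ((h1 0).and ((eventually_ge_atTop T).and (eventually_ge_atTop 0))).exists
  obtain ⟨x, hx, -, h5, h6⟩ := approx f h4 (ι := Empty) (fun _ => 0) (by simp)
  obtain ⟨t1, -⟩ := lim_facts (P := P) (fun n => h.gs.ms_ev (fun _ => h.mem _) 0) h5 h6
  exact hb.trans_le ((ge_of_tendsto' t1 fun n => (h2 _ _ (hx n)).2.1).trans
    (measureReal_mono fun ω hω y hy => hω y (hy.trans h3)))

lemma Fld.walls (h : Fld P V f K) (reg : Reg K α c R) (sp : Sp K) (M : ℝ) :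
    ∀ᶠ T : ℝ in atTop, ∃ (ι : Type) (_ : Fintype ι) (x : (n : ℕ) → ι ⊕ Fin n → Fin d → ℝ),
      (∀ n i, ‖x n i‖ ≤ T) ∧ Antitone (fun n => ev (fun i => fx f (x n i)) 0) ∧
      ⋂ n, ev (fun i => fx f (x n i)) 0 = AT f T ∧
      ∀ n, (∀ k, 0 < P.real (ev (fun i => fx f (x n i)) k)) ∧
        ∀ y, ‖y‖ ≤ T → M ≤ cm P (ev (fun i => fx f (x n i)) 0) (fx f y) := by
  obtain ⟨L, hL, h1⟩ := h.repel reg sp
  filter_upwards [h1 M, eventually_ge_atTop 0] with T ⟨b, _, h2⟩ hT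
  obtain ⟨x, hx, h3, h4, h5⟩ := approx f hT (pt L ⌊T / L⌋₊) fun j => (norm_pt hL _ j).trans (by
    rw [← le_div_iff₀' hL]; exact Nat.floor_le (by positivity))
  exact ⟨_, inferInstance, x, hx, h4, h5, fun n => ⟨(h2 _ _ (hx n)).1,
    (h2 _ _ (hx n)).2.2 fun j => ⟨_, h3 n j⟩⟩⟩

lemma Fld.high (h : Fld P V f K) (reg : Reg K α c R) (sp : Sp K) (M : ℝ) :
    ∀ᶠ T : ℝ in atTop, ∀ y, ‖y‖ ≤ T → M ≤ cm P (AT f T) (fx f y) := by
  have := h.gs.prob
  filter_upwards [h.walls reg sp M] with T ⟨ι, _, x, _, h1, h2, h3⟩ y hy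
  obtain ⟨-, -, t3⟩ := lim_facts (P := P) (fun n => h.gs.ms_ev (fun _ => h.mem _) 0) h1 h2
  exact ge_of_tendsto' ((t3 (h.pos reg sp T)).2 _ (h.gs.int (h.mem y))) fun n => (h3 n).2 y hy

lemma Fld.low (h : Fld P V f K) (reg : Reg K α c R) (sp : Sp K) {J : Type*} [Fintype J]
    (y : J → Fin d → ℝ) (b : J → ℝ) {θ : ℝ} (hθ : 0 < θ) : ∀ᶠ T : ℝ in atTop,
      P.real (AT f T) ^ 2 * Real.exp (cov P (∑ j, b j • fx f (y j)) (∑ j, b j • fx f (y j)) - θ) ≤
        (∫ ω in AT f T, Real.exp ((∑ j, b j • fx f (y j)) ω) ∂P) *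
          ∫ ω in AT f T, Real.exp (-(∑ j, b j • fx f (y j)) ω) ∂P := by
  have := h.gs.prob
  obtain ⟨M, hM⟩ := h.mgf_low sp y b hθ
  have ηV : ∑ j, b j • fx f (y j) ∈ V := V.sum_mem fun j _ => V.smul_mem _ (h.mem _)
  filter_upwards [h.walls reg sp M] with T ⟨ι, _, x, hx, h1, h2, h3⟩
  obtain ⟨t1, t2, -⟩ := lim_facts (P := P) (fun n => h.gs.ms_ev (fun _ => h.mem _) 0) h1 h2
  exact le_of_tendsto_of_tendsto' ((t1.pow 2).mul_const _)
    ((t2 _ (h.gs.int_exp ηV)).mul (t2 _ (h.gs.int_exp (V.neg_mem ηV)))) fun n =>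
      hM _ _ (h3 n).1 fun i => (h3 n).2 _ (hx n i)

lemma int_cond (A : Set Ω) (F : Ω → ℝ) : ∫ ω, F ω ∂cond P A = cm P A F := by
  simp [ProbabilityTheory.cond, cm, integral_smul_measure, Measure.real, div_eq_inv_mul]

lemma integrable_cond {A : Set Ω} (h0 : 0 < P.real A) {F : Ω → ℝ} (hF : Integrable F P) :
    Integrable F (cond P A) :=
  hF.integrableOn.smul_measure (ENNReal.inv_ne_top.2 (ENNReal.toReal_pos_iff.1 h0).1.ne')

lemma Fld.mgf_lim (h : Fld P V f K) (reg : Reg K α c R) (sp : Sp K) {J : Type*} [Fintype J]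
    (y : J → Fin d → ℝ) (b : J → ℝ) :
    Tendsto (fun T => cm P (AT f T) fun ω => Real.exp ((∑ j, b j • fx f (y j)) ω -
      cm P (AT f T) (∑ j, b j • fx f (y j)))) atTop
      (𝓝 (∫ ω, Real.exp ((∑ j, b j • fx f (y j)) ω) ∂P)) := by
  have low := fun θ (hθ : 0 < θ) => h.low reg sp y b hθ
  set η := ∑ j, b j • fx f (y j)
  have ηV : η ∈ V := V.sum_mem fun j _ => V.smul_mem _ (h.mem _)
  have e : ∀ T, (cm P (AT f T) fun ω => Real.exp (η ω - cm P (AT f T) η)) =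
      (∫ ω in AT f T, Real.exp (η ω) ∂P) / (P.real (AT f T) * Real.exp (cm P (AT f T) η)) :=
    fun T => by rw [cm]; simp only [Real.exp_sub, integral_div, div_div, mul_comm]
  simp only [e, h.gs.mgf ηV]
  refine tendsto_order.2 ⟨fun a ha => ?_, fun a ha => ?_⟩
  · have t : Tendsto (fun θ => Real.exp (cov P η η / 2 - θ)) (𝓝[>] 0)
        (𝓝 (Real.exp (cov P η η / 2 - 0))) :=
      ((by fun_prop : Continuous fun θ => Real.exp (cov P η η / 2 - θ)).tendsto 0).mono_left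
        nhdsWithin_le_nhds
    rw [sub_zero] at t
    obtain ⟨θ, h1, h2⟩ := ((t.eventually (lt_mem_nhds ha)).and self_mem_nhdsWithin).exists
    filter_upwards [low θ h2, eventually_ge_atTop 0] with T h3 hT
    have p := h.pos reg sp T
    have h4 := h.up hT p (V.smul_mem (-1) ηV)
    rw [cov_smul, cov_comm, cov_smul, cm_smul] at h4
    simp only [Pi.smul_apply, smul_eq_mul, neg_mul, one_mul, neg_neg] at h4
    have h5 := h3.trans (mul_le_mul_of_nonneg_left h4 (integral_nonneg fun ω => (Real.exp_pos _).le))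
    refine h1.trans_le ?_
    rw [le_div_iff₀ (by positivity)]
    refine le_of_mul_le_mul_right (le_of_eq_of_le ?_ h5) (by positivity)
    rw [show cov P η η - θ = cov P η η / 2 - θ + cov P η η / 2 by ring, Real.exp_add, Real.exp_neg]
    field_simp
  · filter_upwards [eventually_ge_atTop 0] with T hT
    have p := h.pos reg sp T
    exact lt_of_le_of_lt ((div_le_iff₀' (by positivity)).2 (h.up hT p ηV)) ha

theorem Fld.fdd (h : Fld P V f K) (reg : Reg K α c R) (sp : Sp K) {J : Type*} [Fintype J]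
    (y : J → Fin d → ℝ) (Ψ : (J → ℝ) →ᵇ ℝ) :
    Tendsto (fun T => ∫ ω, Ψ (fun j => f ω (y j) - cm P (AT f T) (fx f (y j))) ∂cond P (AT f T))
      atTop (𝓝 (∫ ω, Ψ (fun j => f ω (y j)) ∂P)) := by
  have := h.gs.prob
  have pc : ∀ T, IsProbabilityMeasure (cond P (AT f T)) := fun T =>
    cond_isProbabilityMeasure (ENNReal.toReal_pos_iff.1 (h.pos reg sp T)).1.ne'
  have m0 : Measurable fun ω j => f ω (y j) :=
    measurable_pi_lambda _ fun j => h.gs.meas _ (h.mem _)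
  have m1 : ∀ T, Measurable fun ω j => f ω (y j) - cm P (AT f T) (fx f (y j)) := fun T =>
    m0.sub_const _
  have ηV : ∀ b : J → ℝ, ∑ j, b j • fx f (y j) ∈ V := fun b =>
    V.sum_mem fun j _ => V.smul_mem _ (h.mem _)
  have e0 : ∀ (b : J → ℝ) ω, ∑ j, b j * f ω (y j) = (∑ j, b j • fx f (y j)) ω := fun b ω => by
    simp [fx]
  have e1 : ∀ T (b : J → ℝ) ω, ∑ j, b j * (f ω (y j) - cm P (AT f T) (fx f (y j))) =
      (∑ j, b j • fx f (y j)) ω - cm P (AT f T) (∑ j, b j • fx f (y j)) := fun T b ω => by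
    simp only [mul_sub, Finset.sum_sub_distrib, e0, h.gs.cm_sum fun j => h.mem (y j)]
  have mb : ∀ b : J → ℝ, Continuous fun v : J → ℝ => Real.exp (∑ j, b j * v j) := fun b => by
    fun_prop
  have key := weak_of_mgf (l := atTop)
    (fun T => ⟨_, Measure.isProbabilityMeasure_map (μ := cond P (AT f T)) (m1 T).aemeasurable⟩)
    ⟨_, Measure.isProbabilityMeasure_map (μ := P) m0.aemeasurable⟩
    (fun b => (integrable_map_measure (mb b).aestronglyMeasurable m0.aemeasurable).2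
      (by simpa only [Function.comp_def, e0] using h.gs.int_exp (ηV b)))
    (fun T b => (integrable_map_measure (mb b).aestronglyMeasurable (m1 T).aemeasurable).2 (by
      simp only [Function.comp_def, e1, Real.exp_sub]
      exact integrable_cond (h.pos reg sp T) ((h.gs.int_exp (ηV b)).div_const _)))
    fun b => by
      simp only [ProbabilityMeasure.coe_mk]
      rw [integral_map m0.aemeasurable (mb b).aestronglyMeasurable]
      simp only [fun T => integral_map (μ := cond P (AT f T)) (m1 T).aemeasurable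
        (mb b).aestronglyMeasurable, e0, e1, int_cond]
      exact h.mgf_lim reg sp y b
  have := ProbabilityMeasure.tendsto_iff_forall_integral_tendsto.1 key Ψ
  simp only [ProbabilityMeasure.coe_mk] at this
  rw [integral_map m0.aemeasurable Ψ.continuous.aestronglyMeasurable] at this
  simpa only [fun T => integral_map (μ := cond P (AT f T)) (m1 T).aemeasurable
    Ψ.continuous.aestronglyMeasurable] using this

end Pool.Agent.MP_0502fb_pr.H57
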