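import Mathlib
import Pool.Agent.MP_0502fb_pr.H57.Lim

/-!
Convergence in law in the space of continuous functions.
-/

namespace Pool.Agent.MP_0502fb_pr.H57

open MeasureTheory ProbabilityTheory Set Filter Topology
open scoped ENNReal NNReal BoundedContinuousFunction Uniformity

variable {d : ℕ} {Ω : Type*} [MeasurableSpace Ω] {P : Measure Ω} {V : Submodule ℝ (Ω → ℝ)}
  {f : Ω → C(Fin d → ℝ, ℝ)} {K : (Fin d → ℝ) → ℝ} {α c R T : ℝ}

lemma weak_of_uc {E γ : Type*} [UniformSpace E] [IsCountablyGenerated (𝓤 E)] [MeasurableSpace E]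
    [OpensMeasurableSpace E] {l : Filter γ} [l.IsCountablyGenerated] (ν : γ → ProbabilityMeasure E)
    (μ : ProbabilityMeasure E) (h : ∀ φ : E →ᵇ ℝ, UniformContinuous φ →
      Tendsto (fun t => ∫ x, φ x ∂ν t) l (𝓝 (∫ x, φ x ∂μ))) : Tendsto ν l (𝓝 μ) := by
  let _ := UniformSpace.pseudoMetricSpace E
  exact tendsto_iff_forall_lipschitz_integral_tendsto.2 fun φ ⟨C, hC⟩ ⟨L, hL⟩ =>
    h (.mkOfBound ⟨φ, hL.continuous⟩ C hC) hL.uniformContinuous

lemma close_int [IsProbabilityMeasure P] {F G : Ω → ℝ} (hF : Integrable F P) (hG : Integrable G P)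
    {S : Set Ω} (hS : MeasurableSet S) {B ε : ℝ} (hε : 0 ≤ ε) (h1 : ∀ ω, |F ω - G ω| ≤ B)
    (h2 : ∀ ω ∉ S, |F ω - G ω| ≤ ε) : |∫ ω, F ω ∂P - ∫ ω, G ω ∂P| ≤ ε + B * P.real S := by
  have i1 : Integrable (S.indicator fun _ => B) P := (integrable_const _).indicator hS
  rw [← integral_sub hF hG]
  refine abs_integral_le_integral_abs.trans ((integral_mono (g := fun ω => ε + S.indicator
    (fun _ => B) ω) (hF.sub hG).abs ((integrable_const _).add i1) fun ω => ?_).trans_eq ?_)
  · by_cases h : ω ∈ S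
    · simp only [indicator_of_mem h]; exact (h1 ω).trans (le_add_of_nonneg_left hε)
    · simp only [indicator_of_notMem h, add_zero]; exact h2 ω h
  · rw [integral_add (integrable_const _) i1, integral_indicator hS]
    simp [mul_comm]

lemma Fld.cont_cm (h : Fld P V f K) (hK : Continuous K) (A : Set Ω) :
    Continuous fun x => cm P A (fx f x) := by
  have := h.gs.prob
  refine Continuous.div_const (continuous_iff_continuousAt.2 fun y => ?_) _
  have key : ∀ x, dist (∫ ω in A, fx f x ω ∂P) (∫ ω in A, fx f y ω ∂P) ≤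
      √(K 0 - K (x - y) - K (y - x) + K 0) := fun x => by
    have hV := V.sub_mem (h.mem x) (h.mem y)
    have h1 := cs_int ((h.gs.memLp hV).restrict A) (memLp_const 1)
    have h2 : ∫ ω in A, (fx f x - fx f y) ω * (fx f x - fx f y) ω ∂P ≤
        cov P (fx f x - fx f y) (fx f x - fx f y) := setIntegral_le_integral
      ((h.gs.memLp hV).integrable_mul (h.gs.memLp hV)) (.of_forall fun ω => mul_self_nonneg _)
    have h3 := h.gs.cov_sum Finset.univ Finset.univ (fun i => h.mem (![x, y] i))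
      (fun i => h.mem (![x, y] i)) ![1, -1] ![1, -1]
    simp only [Fin.sum_univ_two, Matrix.cons_val_zero, Matrix.cons_val_one, one_smul, neg_smul,
      ← sub_eq_add_neg, h.cv, sub_self] at h3
    simp only [mul_one, integral_const, smul_eq_mul, measureReal_restrict_apply_univ] at h1
    rw [Real.dist_eq, ← integral_sub (h.gs.int (h.mem x)).integrableOn
      (h.gs.int (h.mem y)).integrableOn]
    refine Real.abs_le_sqrt (h1.trans ((mul_le_of_le_one_right
      (integral_nonneg fun ω => mul_self_nonneg _) measureReal_le_one).trans ?_))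
    linarith
  refine tendsto_iff_dist_tendsto_zero.2 (squeeze_zero (fun _ => dist_nonneg) key ?_)
  simpa using (by fun_prop : Continuous fun x => √(K 0 - K (x - y) - K (y - x) + K 0)).tendsto y

theorem Fld.conv (h : Fld P V f K) (reg : Reg K α c R) (sp : Sp K)
    (hf : @Measurable Ω _ _ (borel _) f) {m : ℝ → C(Fin d → ℝ, ℝ)}
    (hm : ∀ T x, m T x = cm P (AT f T) (fx f x)) (Φ : C(Fin d → ℝ, ℝ) →ᵇ ℝ) :
    Tendsto (fun T => ∫ ω, Φ (f ω - m T) ∂cond P (AT f T)) atTop (𝓝 (∫ ω, Φ (f ω) ∂P)) := by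
  let _ : MeasurableSpace C(Fin d → ℝ, ℝ) := borel _
  have : BorelSpace C(Fin d → ℝ, ℝ) := ⟨rfl⟩
  have := h.gs.prob
  have pc : ∀ T, IsProbabilityMeasure (cond P (AT f T)) := fun T =>
    cond_isProbabilityMeasure (ENNReal.toReal_pos_iff.1 (h.pos reg sp T)).1.ne'
  have m1 : ∀ T, Measurable fun ω => f ω - m T := fun T =>
    (continuous_sub_right (m T)).measurable.comp hf
  have red : ∀ φ : C(Fin d → ℝ, ℝ) →ᵇ ℝ, (Tendsto (fun T => ∫ u, φ u ∂(cond P (AT f T)).map
      fun ω => f ω - m T) atTop (𝓝 (∫ u, φ u ∂P.map f))) ↔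
      Tendsto (fun T => ∫ ω, φ (f ω - m T) ∂cond P (AT f T)) atTop (𝓝 (∫ ω, φ (f ω) ∂P)) :=
    fun φ => by
      simp only [integral_map hf.aemeasurable φ.continuous.aestronglyMeasurable,
        fun T => integral_map (μ := cond P (AT f T)) (m1 T).aemeasurable
          φ.continuous.aestronglyMeasurable]
  refine (red Φ).1 (ProbabilityMeasure.tendsto_iff_forall_integral_tendsto.1 (weak_of_uc
    (fun T => ⟨_, Measure.isProbabilityMeasure_map (μ := cond P (AT f T)) (m1 T).aemeasurable⟩)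
    ⟨_, Measure.isProbabilityMeasure_map (μ := P) hf.aemeasurable⟩ fun φ hφ => (red φ).2 ?_) Φ)
  refine Metric.tendsto_nhds.2 fun ε' hε' => ?_
  set ε := ε' / (3 + 4 * ‖φ‖) with hε
  have hε0 : 0 < ε := by positivity
  obtain ⟨⟨Q₀, e⟩, ⟨hQ₀, he⟩, hQ⟩ := (Metric.uniformity_basis_dist.compactConvergenceUniformity.1 _).1
    (hφ (Metric.dist_mem_uniformity hε0))
  dsimp only at hQ₀ he hQ
  set Q := insert 0 Q₀
  have cQ : IsCompact Q := hQ₀.insert 0
  set r := min (ε * (e / 4) / 6) (e / 2) with hr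
  have hr0 : 0 < r := by positivity
  obtain ⟨n, hn⟩ : ∃ n : ℕ, max (3 / 4) (1 - ε) ≤
      P.real {ω | ∀ x ∈ Q, ∀ z ∈ Q, dist x z ≤ 1 / ((n : ℝ) + 1) → |f ω x - f ω z| ≤ r} := by
    have h1 := tendsto_measure_iUnion_atTop (μ := P) (s := fun n : ℕ =>
      {ω | ∀ x ∈ Q, ∀ z ∈ Q, dist x z ≤ 1 / ((n : ℝ) + 1) → |f ω x - f ω z| ≤ r})
      fun n m hnm ω hω x hx z hz h1 => hω x hx z hz (h1.trans (Nat.one_div_le_one_div hnm))
    rw [iUnion_eq_univ_iff.2 fun ω => ?_, measure_univ] at h1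
    · exact (((ENNReal.tendsto_toReal (by simp)).comp h1).eventually
        (le_mem_nhds (max_lt (by norm_num) (by simpa using hε0)))).exists
    obtain ⟨δ, hδ, h2⟩ := Metric.uniformContinuousOn_iff_le.1
      (cQ.uniformContinuousOn_of_continuous (f ω).continuous.continuousOn) r hr0
    obtain ⟨n, hn⟩ := exists_nat_one_div_lt hδ
    exact ⟨n, fun x hx z hz h3 => h2 x hx z hz (h3.trans hn.le)⟩
  obtain ⟨Z, ψ, ψ0, ψ1, hZ, hψ⟩ := exists_interp cQ (insert_nonempty _ _)
    (δ := 1 / ((n : ℝ) + 1)) (by positivity)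
  let I : C(Z → ℝ, C(Fin d → ℝ, ℝ)) := ⟨fun v => ∑ z, v z • ψ z, by fun_prop⟩
  have Ie : ∀ v x, I v x = ∑ z, ψ z x * v z := fun v x => by simp [I, mul_comm]
  have : Nonempty Q := ⟨⟨0, mem_insert _ _⟩⟩
  let q := TopologicalSpace.denseSeq Q
  let η : ℕ → Ω → ℝ := fun j => fx f (q j) - ∑ z : Z, ψ z (q j) • fx f z
  have ηV : ∀ j, η j ∈ V := fun j =>
    V.sub_mem (h.mem _) (V.sum_mem fun z _ => V.smul_mem _ (h.mem _))
  have ηe : ∀ j ω, η j ω = f ω (q j) - I (fun z => f ω z) (q j) := fun j ω => by simp [η, Ie, fx]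
  have good : max (3 / 4) (1 - ε) ≤ P.real {ω | ∀ j, |η j ω| ≤ r} := by
    refine hn.trans (measureReal_mono fun ω hω j => ?_)
    have e1 : η j ω = ∑ z : Z, ψ z (q j) * (f ω (q j) - f ω z) := by
      simp only [ηe, Ie, mul_sub, Finset.sum_sub_distrib, ← Finset.sum_mul, ψ1 _ (q j).2, one_mul]
    rw [e1, ← one_mul r, ← ψ1 _ (q j).2, Finset.sum_mul]
    refine (Finset.abs_sum_le_sum_abs _ _).trans (Finset.sum_le_sum fun z _ => ?_)
    rw [abs_mul, abs_of_nonneg (ψ0 _ _)]
    rcases eq_or_ne (ψ z (q j)) 0 with h0 | h0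
    · simp [h0]
    · exact mul_le_mul_of_nonneg_left (hω _ (q j).2 _ (hZ _ z.2) (hψ _ _ h0)) (ψ0 _ _)
  have near : ∀ w : C(Fin d → ℝ, ℝ), (∀ j, |w (q j) - I (fun z => w z) (q j)| ≤ e / 2) →
      |φ w - φ (I fun z => w z)| ≤ ε := fun w hw => by
    refine le_of_lt (hQ (a := (w, I fun z => w z)) fun x hx => ?_)
    refine lt_of_le_of_lt ((TopologicalSpace.denseRange_denseSeq Q).induction_on
      (p := fun x : Q => |w x - I (fun z => w z) x| ≤ e / 2) ⟨x, mem_insert_of_mem _ hx⟩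
      (isClosed_le (by fun_prop) continuous_const) hw) (half_lt_self he)
  have far : ∀ w w', |φ w - φ w'| ≤ 2 * ‖φ‖ := fun w w' => φ.dist_le_two_norm w w'
  have mη : ∀ j, Measurable (η j) := fun j => h.gs.meas _ (ηV j)
  have mI : ∀ g : Ω → C(Fin d → ℝ, ℝ), Measurable g → ∀ μ : Measure Ω, IsFiniteMeasure μ →
      Integrable (fun ω => φ (g ω)) μ := fun g hg μ _ =>
    .of_bound (φ.continuous.measurable.comp hg).aestronglyMeasurable ‖φ‖
      (.of_forall fun ω => φ.norm_coe_le_norm _)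
  have cI : Measurable fun w : C(Fin d → ℝ, ℝ) => I fun z => w z :=
    Continuous.measurable (by fun_prop)
  have msg : MeasurableSet {ω | ∀ j, |η j ω| ≤ r} := by
    rw [ofPred_forall]
    exact .iInter fun j => measurableSet_le (continuous_abs.measurable.comp (mη j)) measurable_const
  have b1 := close_int (mI _ hf P inferInstance) (mI _ (cI.comp hf) P inferInstance) msg.compl hε0.le
    (fun ω => far _ _) fun ω hω => near _ fun j => by
      rw [← ηe]; exact (not_not.1 hω j).trans (min_le_right _ _)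
  rw [probReal_compl_eq_one_sub msg] at b1
  filter_upwards [Metric.tendsto_nhds.1 (h.fdd reg sp (fun z : Z => z.1) (φ.compContinuous I)) ε hε0,
    eventually_ge_atTop 0] with T b2 hT
  have p := h.pos reg sp T
  have msb : MeasurableSet {ω | ∃ j, 2 * (e / 4) ≤ |η j ω - cm P (AT f T) (η j)|} := by
    rw [ofPred_exists]
    exact .iUnion fun j => measurableSet_le measurable_const
      (continuous_abs.measurable.comp ((mη j).sub_const _))
  have b3 := close_int (mI _ (m1 T) (cond P (AT f T)) inferInstance)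
    (mI _ (cI.comp (m1 T)) _ inferInstance) msb hε0.le (fun ω => far _ _)
    fun ω hω => near _ fun j => by
      refine le_of_eq_of_le (congrArg _ ?_) ((not_le.1 (not_exists.1 hω j)).le.trans_eq (by ring))
      have e1 : cm P (AT f T) (η j) = m T (q j) - ∑ z : Z, ψ z (q j) * m T z := by
        simp only [hm, ← h.gs.cm_sum fun z : Z => h.mem z]
        simp only [cm, η, Pi.sub_apply, ← sub_div]
        rw [integral_sub (h.gs.int (h.mem _)).integrableOn
          (h.gs.int (V.sum_mem fun z _ => V.smul_mem _ (h.mem _))).integrableOn]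
      simp only [e1, ηe, Ie, ContinuousMap.sub_apply, mul_sub, Finset.sum_sub_distrib]
      ring
  have b4 : (cond P (AT f T)).real {ω | ∃ j, 2 * (e / 4) ≤ |η j ω - cm P (AT f T) (η j)|} ≤ ε := by
    have h1 := h.conc hT p ηV hr0 (u := e / 4) (by positivity) ((le_max_left _ _).trans good)
    rw [Measure.real, cond_apply (h.ms_AT hT), ENNReal.toReal_mul, ENNReal.toReal_inv, inter_comm,
      ← div_eq_inv_mul]
    refine (div_le_iff₀' p).2 (h1.trans (mul_le_mul_of_nonneg_left ?_ p.le))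
    rw [div_le_iff₀ (by positivity)]
    linarith [min_le_left (ε * (e / 4) / 6) (e / 2)]
  simp only [Real.dist_eq, BoundedContinuousFunction.compContinuous_apply, ← hm] at b2 ⊢
  simp only [Function.comp_def, ContinuousMap.sub_apply] at b1 b3
  have b5 : ε * (3 + 4 * ‖φ‖) = ε' := by rw [hε]; field_simp
  have b6 := mul_le_mul_of_nonneg_left b4 (norm_nonneg φ)
  have b7 := mul_le_mul_of_nonneg_left ((le_max_right _ _).trans good) (norm_nonneg φ)
  rw [abs_lt] at b2 ⊢
  rw [abs_le] at b1 b3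
  constructor <;> linarith [b1.1, b1.2, b2.1, b2.2, b3.1, b3.2]

lemma fld_of_process (hf : @Measurable Ω _ _ (borel _) f)
    (hG : IsGaussianProcess (fun x ω => f ω x) P) (h0 : ∀ x, ∫ ω, f ω x ∂P = 0)
    (hK : ∀ x y, ∫ ω, f ω x * f ω y ∂P = K (x - y)) :
    Fld P (Submodule.span ℝ (range (fx f))) f K := by
  let _ : MeasurableSpace C(Fin d → ℝ, ℝ) := borel _
  have : BorelSpace C(Fin d → ℝ, ℝ) := ⟨rfl⟩
  have ms : ∀ x, Measurable fun ω => f ω x := fun x =>
    (continuous_eval_const x).measurable.comp hf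
  refine ⟨⟨hG.isProbabilityMeasure, fun ξ hξ => ?_, fun ξ hξ => ?_⟩,
    fun x => Submodule.subset_span ⟨x, rfl⟩, hK⟩
  all_goals
    obtain ⟨a, rfl⟩ := Finsupp.mem_span_range_iff_exists_finsupp.1 hξ
    have e : (a.sum fun x t => t • fx f x) = fun ω => ∑ x ∈ a.support, a x • f ω x := by
      ext ω; simp [Finsupp.sum, fx]
    rw [e]
  · fun_prop
  · refine ⟨_, (hG.smul a).hasGaussianLaw_fun_sum.map_eq_gaussianReal.trans (congrArg₂ _ ?_ rfl)⟩
    rw [integral_finsetSum _ fun x _ => ((hG.smul a).hasGaussianLaw_eval x).integrable]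
    simp [integral_const_mul, h0]

end Pool.Agent.MP_0502fb_pr.H57
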